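import Pool.Agent.Run7.h195.VR.Mom

/-! # Solutions in which two of the variables are in a sparse relation -/

set_option autoImplicit false

namespace Pool.Agent.Run7.h195.VR

open Finset Pool.Agent.helper132_dc

/-- exponential sum over a finite family of frequencies. -/
noncomputable def RR {κ : Type*} (q k : ℕ) [NeZero q] (P : Finset κ) (g : κ → Fin k → ZMod q)
    (α : Fin k → ZMod q) : ℂ := ∑ c ∈ P, ZMod.stdAddChar (∑ j : Fin k, α j * g c j)

lemma RR_conj {κ : Type*} (q k : ℕ) [NeZero q] (P : Finset κ) (g : κ → Fin k → ZMod q)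
    (α : Fin k → ZMod q) : (starRingEnd ℂ) (RR q k P g α) = RR q k P g (fun j => - α j) := by
  unfold RR
  rw [map_sum]
  refine Finset.sum_congr rfl fun n _ => ?_
  rw [← AddChar.map_neg_eq_conj]
  congr 1
  rw [← Finset.sum_neg_distrib]
  refine Finset.sum_congr rfl fun j _ => ?_
  ring

lemma RR_moment {κ : Type*} [DecidableEq κ] (q k r : ℕ) [NeZero q] (P : Finset κ)
    (g : κ → Fin k → ZMod q) :
    ∑ α : Fin k → ZMod q, ‖RR q k P g α‖ ^ (2 * r) = (q : ℝ) ^ k *
      (((Fintype.piFinset fun _ : Fin r ⊕ Fin r => P).filter fun w =>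
        ∀ j : Fin k, ∑ i, ((sg r i : ℤ) : ZMod q) * g (w i) j = 0).card : ℝ) := by
  have h1 : ∀ α : Fin k → ZMod q, ((‖RR q k P g α‖ ^ (2 * r) : ℝ) : ℂ) =
      ∑ w ∈ Fintype.piFinset fun _ : Fin r ⊕ Fin r => P,
        (ZMod.stdAddChar (∑ j : Fin k, α j * (∑ i, ((sg r i : ℤ) : ZMod q) * g (w i) j)) : ℂ) := by
    intro α
    have e0 : ((‖RR q k P g α‖ ^ (2 * r) : ℝ) : ℂ) =
        ∏ i : Fin r ⊕ Fin r, RR q k P g (fun j => ((sg r i : ℤ) : ZMod q) * α j) := by
      rw [Fintype.prod_sum_type]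
      have e1 : ∀ i : Fin r, RR q k P g (fun j => ((sg r (Sum.inl i) : ℤ) : ZMod q) * α j) =
          RR q k P g α := by
        intro i
        congr 1
        funext j
        simp [sg]
      have e2 : ∀ i : Fin r, RR q k P g (fun j => ((sg r (Sum.inr i) : ℤ) : ZMod q) * α j) =
          (starRingEnd ℂ) (RR q k P g α) := by
        intro i
        rw [RR_conj]
        congr 1
        funext j
        simp [sg]
      rw [Finset.prod_congr rfl fun i _ => e1 i, Finset.prod_congr rfl fun i _ => e2 i]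
      rw [Finset.prod_const, Finset.prod_const, Finset.card_univ, Fintype.card_fin, ← mul_pow,
        Complex.mul_conj']
      push_cast
      rw [← pow_mul]
    rw [e0]
    unfold RR
    rw [Finset.prod_univ_sum]
    refine Finset.sum_congr rfl fun v _ => ?_
    rw [← char_sum]
    congr 1
    rw [Finset.sum_comm]
    refine Finset.sum_congr rfl fun j _ => ?_
    rw [Finset.mul_sum]
    refine Finset.sum_congr rfl fun a _ => ?_
    ring
  have h2 : ((∑ α : Fin k → ZMod q, ‖RR q k P g α‖ ^ (2 * r) : ℝ) : ℂ) = (q : ℂ) ^ k *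
      (((Fintype.piFinset fun _ : Fin r ⊕ Fin r => P).filter fun w =>
        ∀ j : Fin k, ∑ i, ((sg r i : ℤ) : ZMod q) * g (w i) j = 0).card : ℂ) := by
    push_cast
    have h3 : ∀ α : Fin k → ZMod q, ((‖RR q k P g α‖ : ℝ) : ℂ) ^ (2 * r) =
      ∑ w ∈ Fintype.piFinset fun _ : Fin r ⊕ Fin r => P,
        (ZMod.stdAddChar (∑ j : Fin k, α j * (∑ i, ((sg r i : ℤ) : ZMod q) * g (w i) j)) : ℂ) := by
      intro α
      rw [← h1 α]
      push_cast
      rfl
    rw [Finset.sum_congr rfl fun α _ => h3 α, Finset.sum_comm]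
    rw [Finset.sum_congr rfl fun v _ => orth q k _]
    rw [← Finset.sum_filter, Finset.sum_const, nsmul_eq_mul, mul_comm]
  exact_mod_cast h2

lemma RR_mono {κ : Type*} [DecidableEq κ] (q k r : ℕ) [NeZero q] (P P' : Finset κ) (hP : P ⊆ P')
    (g : κ → Fin k → ZMod q) :
    ∑ α : Fin k → ZMod q, ‖RR q k P g α‖ ^ (2 * r) ≤ ∑ α : Fin k → ZMod q, ‖RR q k P' g α‖ ^ (2 * r) := by
  rw [RR_moment, RR_moment]
  refine mul_le_mul_of_nonneg_left ?_ (by positivity)
  have h : ((Fintype.piFinset fun _ : Fin r ⊕ Fin r => P).filter fun w =>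
        ∀ j : Fin k, ∑ i, ((sg r i : ℤ) : ZMod q) * g (w i) j = 0) ⊆
      ((Fintype.piFinset fun _ : Fin r ⊕ Fin r => P').filter fun w =>
        ∀ j : Fin k, ∑ i, ((sg r i : ℤ) : ZMod q) * g (w i) j = 0) := by
    refine Finset.filter_subset_filter _ ?_
    intro w hw
    rw [Fintype.mem_piFinset] at hw ⊢
    exact fun i => hP (hw i)
  exact_mod_cast Finset.card_le_card h

/-- the frequency of a pair. -/
def gp (q k : ℕ) (c1 c2 : ℤ) (p : ℕ × ℕ) (j : Fin k) : ZMod q :=
  (c1 : ZMod q) * ((p.1 : ℕ) : ZMod q) ^ (j.val + 1) + (c2 : ZMod q) * ((p.2 : ℕ) : ZMod q) ^ (j.val + 1)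

lemma F_pm (q k : ℕ) (B : Finset ℕ) [NeZero q] (c : ℤ) (hc : c = 1 ∨ c = -1) (α : Fin k → ZMod q) :
    ‖F q k B (fun j => (c : ZMod q) * α j)‖ = ‖F q k B α‖ := by
  rcases hc with rfl | rfl
  · congr 2
    funext j
    simp
  · have : (fun j => (((-1 : ℤ)) : ZMod q) * α j) = fun j => - α j := by
      funext j
      simp
    rw [this, F_neg, RCLike.norm_conj]

lemma RR_prod (q k : ℕ) (B : Finset ℕ) [NeZero q] (c1 c2 : ℤ) (h1 : c1 = 1 ∨ c1 = -1)
    (h2 : c2 = 1 ∨ c2 = -1) (α : Fin k → ZMod q) :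
    ‖RR q k (B ×ˢ B) (gp q k c1 c2) α‖ = ‖F q k B α‖ ^ 2 := by
  have h3 : RR q k (B ×ˢ B) (gp q k c1 c2) α =
      F q k B (fun j => (c1 : ZMod q) * α j) * F q k B (fun j => (c2 : ZMod q) * α j) := by
    unfold RR F
    rw [Finset.sum_mul_sum, Finset.sum_product]
    refine Finset.sum_congr rfl fun x _ => Finset.sum_congr rfl fun y _ => ?_
    rw [← AddChar.map_add_eq_mul, ← Finset.sum_add_distrib]
    congr 1
    refine Finset.sum_congr rfl fun j _ => ?_
    unfold gp
    ring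
  rw [h3, norm_mul, F_pm q k B c1 h1, F_pm q k B c2 h2, sq]

/-- counting with a relation between two variables. -/
lemma count_le {ι : Type*} [Fintype ι] [DecidableEq ι] (q k : ℕ) (B : Finset ℕ) [NeZero q]
    (P : Finset (ℕ × ℕ)) (c1 c2 : ℤ) (ν : ι → ℤ) (hν : ∀ i, ν i = 1 ∨ ν i = -1) :
    (q : ℝ) ^ k * (((P ×ˢ (Fintype.piFinset fun _ : ι => B)).filter fun t =>
      ∀ j : Fin k, c1 * ((t.1.1 : ℕ) : ℤ) ^ (j.val + 1) + c2 * ((t.1.2 : ℕ) : ℤ) ^ (j.val + 1) +
        ∑ i, ν i * ((t.2 i : ℕ) : ℤ) ^ (j.val + 1) = 0).card : ℝ) ≤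
    ∑ α : Fin k → ZMod q, ‖RR q k P (gp q k c1 c2) α‖ * ‖F q k B α‖ ^ (Fintype.card ι) := by
  obtain ⟨Q, hQ⟩ : ∃ Q, Q = (P ×ˢ (Fintype.piFinset fun _ : ι => B)).filter fun t =>
      ∀ j : Fin k, gp q k c1 c2 t.1 j + ∑ i, ((ν i : ℤ) : ZMod q) * ((t.2 i : ℕ) : ZMod q) ^ (j.val + 1) = 0 :=
    ⟨_, rfl⟩
  have h0 : ((P ×ˢ (Fintype.piFinset fun _ : ι => B)).filter fun t =>
      ∀ j : Fin k, c1 * ((t.1.1 : ℕ) : ℤ) ^ (j.val + 1) + c2 * ((t.1.2 : ℕ) : ℤ) ^ (j.val + 1) +
        ∑ i, ν i * ((t.2 i : ℕ) : ℤ) ^ (j.val + 1) = 0) ⊆ Q := by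
    rw [hQ]
    intro t ht
    rw [Finset.mem_filter] at ht ⊢
    refine ⟨ht.1, fun j => ?_⟩
    have h := congrArg (fun z : ℤ => (z : ZMod q)) (ht.2 j)
    push_cast at h
    unfold gp
    exact h
  have h1 : ((((P ×ˢ (Fintype.piFinset fun _ : ι => B)).filter fun t =>
      ∀ j : Fin k, c1 * ((t.1.1 : ℕ) : ℤ) ^ (j.val + 1) + c2 * ((t.1.2 : ℕ) : ℤ) ^ (j.val + 1) +
        ∑ i, ν i * ((t.2 i : ℕ) : ℤ) ^ (j.val + 1) = 0).card : ℕ) : ℝ) ≤ (Q.card : ℝ) := by
    exact_mod_cast Finset.card_le_card h0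
  refine (mul_le_mul_of_nonneg_left h1 (by positivity)).trans ?_
  have h2 : ∑ α : Fin k → ZMod q, (RR q k P (gp q k c1 c2) α *
      ∏ i, F q k B (fun j => ((ν i : ℤ) : ZMod q) * α j)) = (q : ℂ) ^ k * (Q.card : ℂ) := by
    have h3 : ∀ α : Fin k → ZMod q, RR q k P (gp q k c1 c2) α *
        ∏ i, F q k B (fun j => ((ν i : ℤ) : ZMod q) * α j) =
        ∑ t ∈ P ×ˢ (Fintype.piFinset fun _ : ι => B),
          (ZMod.stdAddChar (∑ j : Fin k, α j * (gp q k c1 c2 t.1 j +
            ∑ i, ((ν i : ℤ) : ZMod q) * ((t.2 i : ℕ) : ZMod q) ^ (j.val + 1))) : ℂ) := by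
      intro α
      unfold RR F
      rw [Finset.prod_univ_sum, Finset.sum_mul_sum, Finset.sum_product]
      refine Finset.sum_congr rfl fun x _ => Finset.sum_congr rfl fun y _ => ?_
      rw [← char_sum, ← AddChar.map_add_eq_mul]
      congr 1
      rw [Finset.sum_comm, ← Finset.sum_add_distrib]
      refine Finset.sum_congr rfl fun j _ => ?_
      rw [mul_add, Finset.mul_sum]
      congr 1
      refine Finset.sum_congr rfl fun i _ => ?_
      ring
    rw [Finset.sum_congr rfl fun α _ => h3 α, Finset.sum_comm]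
    rw [Finset.sum_congr rfl fun v _ => orth q k _]
    rw [← Finset.sum_filter, ← hQ, Finset.sum_const, nsmul_eq_mul, mul_comm]
  have h3 : (q : ℝ) ^ k * (Q.card : ℝ) = ‖∑ α : Fin k → ZMod q, (RR q k P (gp q k c1 c2) α *
      ∏ i, F q k B (fun j => ((ν i : ℤ) : ZMod q) * α j))‖ := by
    rw [h2, norm_mul, norm_pow, Complex.norm_natCast, Complex.norm_natCast]
  rw [h3]
  refine (norm_sum_le _ _).trans (le_of_eq ?_)
  refine Finset.sum_congr rfl fun α _ => ?_
  rw [norm_mul, norm_prod, Finset.prod_congr rfl fun i _ => F_pm q k B (ν i) (hν i) α,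
    Finset.prod_const, Finset.card_univ]

/-- the second moment: the frequencies of pairs are essentially distinct. -/
lemma RR_two (q k N : ℕ) [NeZero q] (hk : 2 ≤ k) (hN : 1 ≤ N) (hq : 4 * N ^ 2 < q)
    (P : Finset (ℕ × ℕ)) (hP : ∀ p ∈ P, p.1 ≤ N ∧ p.2 ≤ N) (c1 c2 : ℤ) (h1 : c1 = 1 ∨ c1 = -1)
    (h2 : c2 = 1 ∨ c2 = -1) (hne : c1 = c2 ∨ ∀ p ∈ P, p.1 ≠ p.2) :
    ∑ α : Fin k → ZMod q, ‖RR q k P (gp q k c1 c2) α‖ ^ 2 ≤ (q : ℝ) ^ k * (2 * (P.card : ℝ)) := by
  have hm := RR_moment q k 1 P (gp q k c1 c2)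
  rw [mul_one] at hm
  rw [hm]
  refine mul_le_mul_of_nonneg_left ?_ (by positivity)
  have key : ∀ p ∈ P, ∀ p' ∈ P, (∀ j : Fin k, gp q k c1 c2 p j = gp q k c1 c2 p' j) →
      p' = p ∨ p' = (p.2, p.1) := by
    intro p hp p' hp' h
    have hb := hP p hp
    have hb' := hP p' hp'
    have hz : ∀ j : Fin k, j.val + 1 ≤ 2 → (c1 * (p.1 : ℤ) ^ (j.val + 1) + c2 * (p.2 : ℤ) ^ (j.val + 1)) =
        c1 * (p'.1 : ℤ) ^ (j.val + 1) + c2 * (p'.2 : ℤ) ^ (j.val + 1) := by
      intro j hj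
      have hj' := h j
      unfold gp at hj'
      have e1 : (((c1 * (p.1 : ℤ) ^ (j.val + 1) + c2 * (p.2 : ℤ) ^ (j.val + 1)) -
          (c1 * (p'.1 : ℤ) ^ (j.val + 1) + c2 * (p'.2 : ℤ) ^ (j.val + 1)) : ℤ) : ZMod q) = 0 := by
        push_cast
        rw [sub_eq_zero]
        exact hj'
      rw [ZMod.intCast_zmod_eq_zero_iff_dvd] at e1
      have e2 : ∀ n : ℕ, n ≤ N → (0 : ℤ) ≤ (n : ℤ) ^ (j.val + 1) ∧ (n : ℤ) ^ (j.val + 1) ≤ (N : ℤ) ^ 2 := by
        intro n hn
        refine ⟨by positivity, ?_⟩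
        have e3 : n ^ (j.val + 1) ≤ N ^ (j.val + 1) := Nat.pow_le_pow_left hn _
        have e4 : N ^ (j.val + 1) ≤ N ^ 2 := Nat.pow_le_pow_right hN hj
        exact_mod_cast e3.trans e4
      have b1 := e2 p.1 hb.1
      have b2 := e2 p.2 hb.2
      have b3 := e2 p'.1 hb'.1
      have b4 := e2 p'.2 hb'.2
      have hq' : 4 * (N : ℤ) ^ 2 < q := by exact_mod_cast hq
      have e5 := Int.eq_zero_of_abs_lt_dvd e1 (by
        rw [abs_lt]
        rcases h1 with rfl | rfl <;> rcases h2 with rfl | rfl <;> constructor <;> linarith)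
      linarith
    have z1 := hz ⟨0, by omega⟩ (by simp)
    have z2 := hz ⟨1, by omega⟩ (by simp)
    simp only [zero_add, pow_one] at z1
    have z2' : c1 * (p.1 : ℤ) ^ 2 + c2 * (p.2 : ℤ) ^ 2 = c1 * (p'.1 : ℤ) ^ 2 + c2 * (p'.2 : ℤ) ^ 2 := by
      simpa using z2
    obtain ⟨a, b⟩ := p
    obtain ⟨c, d⟩ := p'
    simp only at z1 z2' ⊢
    have hcase : c1 = c2 ∨ (a : ℤ) ≠ b := by
      rcases hne with h | h
      · exact Or.inl h
      · right
        have := h (a, b) hp
        exact_mod_cast this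
    -- algebra
    have alg : ((c : ℤ) = a ∧ (d : ℤ) = b) ∨ ((c : ℤ) = b ∧ (d : ℤ) = a) := by
      by_cases hcc : c1 = c2
      · have z3 : (a : ℤ) + b = c + d := by
          rcases h1 with rfl | rfl <;> rw [← hcc] at z1 <;> linarith
        have z4 : (a : ℤ) ^ 2 + (b : ℤ) ^ 2 = (c : ℤ) ^ 2 + (d : ℤ) ^ 2 := by
          rcases h1 with rfl | rfl <;> rw [← hcc] at z2' <;> linarith
        have z5 : ((c : ℤ) - a) * (c - b) = 0 := by
          have : (d : ℤ) = a + b - c := by linarith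
          rw [this] at z4
          nlinarith
        rcases mul_eq_zero.1 z5 with h | h
        · left; constructor <;> linarith
        · right; constructor <;> linarith
      · have hab : (a : ℤ) ≠ b := by
          rcases hcase with h | h
          · exact absurd h hcc
          · exact h
        have z3 : (a : ℤ) - b = c - d := by
          rcases h1 with rfl | rfl <;> rcases h2 with rfl | rfl
          · exact absurd rfl hcc
          · linarith
          · linarith
          · exact absurd rfl hcc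
        have z4 : (a : ℤ) ^ 2 - (b : ℤ) ^ 2 = (c : ℤ) ^ 2 - (d : ℤ) ^ 2 := by
          rcases h1 with rfl | rfl <;> rcases h2 with rfl | rfl
          · exact absurd rfl hcc
          · linarith
          · linarith
          · exact absurd rfl hcc
        have z5 : ((a : ℤ) - b) * ((a + b) - (c + d)) = 0 := by
          have e : ((a : ℤ) - b) * ((a + b) - (c + d)) =
              ((a : ℤ) ^ 2 - (b : ℤ) ^ 2) - (a - b) * (c + d) := by ring
          rw [e, z4, z3]; ring
        rcases mul_eq_zero.1 z5 with h | h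
        · exact absurd (by linarith : (a : ℤ) = b) hab
        · left; constructor <;> linarith
    rcases alg with ⟨h3, h4⟩ | ⟨h3, h4⟩
    · left
      have h3' : c = a := by exact_mod_cast h3
      have h4' : d = b := by exact_mod_cast h4
      rw [h3', h4']
    · right
      have h3' : c = b := by exact_mod_cast h3
      have h4' : d = a := by exact_mod_cast h4
      rw [h3', h4']
  have hcard : ((Fintype.piFinset fun _ : Fin 1 ⊕ Fin 1 => P).filter fun w =>
        ∀ j : Fin k, ∑ i, ((sg 1 i : ℤ) : ZMod q) * gp q k c1 c2 (w i) j = 0).card ≤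
      (P ×ˢ (univ : Finset Bool)).card := by
    refine Finset.card_le_card_of_surjOn (fun t => fun i => Sum.elim (fun _ => t.1)
      (fun _ => if t.2 then t.1 else (t.1.2, t.1.1)) i) ?_
    intro w hw
    rw [Finset.mem_coe, Finset.mem_filter, Fintype.mem_piFinset] at hw
    obtain ⟨hw1, hw2⟩ := hw
    have h3 : ∀ j : Fin k, gp q k c1 c2 (w (Sum.inl 0)) j = gp q k c1 c2 (w (Sum.inr 0)) j := by
      intro j
      have := hw2 j
      rw [Fintype.sum_sum_type] at this
      simp only [Finset.univ_unique, Finset.sum_singleton, sg, Sum.elim_inl, Sum.elim_inr] at this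
      push_cast at this
      have h4 : gp q k c1 c2 (w (Sum.inl default)) j = gp q k c1 c2 (w (Sum.inr default)) j := by
        linear_combination this
      exact h4
    rw [Set.mem_image]
    rcases key _ (hw1 (Sum.inl 0)) _ (hw1 (Sum.inr 0)) h3 with h | h
    · refine ⟨(w (Sum.inl 0), true), ?_, ?_⟩
      · rw [Finset.mem_coe, Finset.mem_product]
        exact ⟨hw1 _, mem_univ _⟩
      · funext i
        rcases i with i | i
        · have : i = 0 := Subsingleton.elim _ _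
          rw [this]; rfl
        · have : i = 0 := Subsingleton.elim _ _
          rw [this]
          simp only [Sum.elim_inr, if_true]
          exact h.symm
    · refine ⟨(w (Sum.inl 0), false), ?_, ?_⟩
      · rw [Finset.mem_coe, Finset.mem_product]
        exact ⟨hw1 _, mem_univ _⟩
      · funext i
        rcases i with i | i
        · have : i = 0 := Subsingleton.elim _ _
          rw [this]; rfl
        · have : i = 0 := Subsingleton.elim _ _
          rw [this]
          simp only [Sum.elim_inr, Bool.false_eq_true, if_false]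
          exact h.symm
  rw [Finset.card_product, Finset.card_univ, Fintype.card_bool] at hcard
  have h5 : ((((Fintype.piFinset fun _ : Fin 1 ⊕ Fin 1 => P).filter fun w =>
        ∀ j : Fin k, ∑ i, ((sg 1 i : ℤ) : ZMod q) * gp q k c1 c2 (w i) j = 0).card : ℕ) : ℝ) ≤
      ((P.card * 2 : ℕ) : ℝ) := by exact_mod_cast hcard
  refine h5.trans (le_of_eq ?_)
  push_cast
  ring

/-- the pointwise inequality. -/
lemma pointwise (s r K : ℕ) (hs : 1 ≤ s) (hsr : s < 2 * r) (hsK : s < K) (T a b : ℝ) (hT : 1 ≤ T)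
    (ha : 0 ≤ a) (hb : 0 ≤ b) :
    a * b ^ (s - 1) ≤ T ^ (2 * s) * a ^ 2 + T⁻¹ * (1 + a ^ (2 * r) + b ^ K) := by
  have hT0 : 0 < T := by linarith
  have hTi : 0 < T⁻¹ := by positivity
  have hsmall : ∀ c : ℝ, 0 ≤ c → c ≤ T → b ≤ T →
      a * b ^ (s - 1) ≤ T ^ (2 * s) * a ^ 2 + T⁻¹ * (1 + a ^ (2 * r) + b ^ K) := by
    intro c _ _ hbT
    have e1 : b ^ (s - 1) ≤ T ^ (s - 1) := pow_le_pow_left₀ hb hbT _
    have e2 : a * b ^ (s - 1) ≤ a * T ^ (s - 1) := mul_le_mul_of_nonneg_left e1 ha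
    have e3 : T ^ s = T * T ^ (s - 1) := by rw [← pow_succ']; congr 1; omega
    rcases le_total (T⁻¹ ^ s) a with h | h
    · -- a ≥ T^{-s}
      have e4 : 1 ≤ a * T ^ s := by
        have h5 : T⁻¹ ^ s * T ^ s = 1 := by rw [← mul_pow, inv_mul_cancel₀ hT0.ne', one_pow]
        rw [← h5]
        exact mul_le_mul_of_nonneg_right h (by positivity)
      have e5 : a * T ^ (s - 1) ≤ T ^ (2 * s) * a ^ 2 := by
        have h6 : T ^ (s - 1) ≤ T ^ s := pow_le_pow_right₀ hT (by omega)
        have h7 : T ^ (2 * s) = T ^ s * T ^ s := by rw [← pow_add]; congr 1; omega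
        have h8 : 0 ≤ a * T ^ s := by positivity
        calc a * T ^ (s - 1) ≤ a * T ^ s := mul_le_mul_of_nonneg_left h6 ha
          _ = (a * T ^ s) * 1 := (mul_one _).symm
          _ ≤ (a * T ^ s) * (a * T ^ s) := mul_le_mul_of_nonneg_left e4 h8
          _ = T ^ (2 * s) * a ^ 2 := by rw [h7]; ring
      have e6 : 0 ≤ T⁻¹ * (1 + a ^ (2 * r) + b ^ K) := by positivity
      linarith
    · have e4 : a * T ^ (s - 1) ≤ T⁻¹ := by
        calc a * T ^ (s - 1) ≤ T⁻¹ ^ s * T ^ (s - 1) := mul_le_mul_of_nonneg_right h (by positivity)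
          _ = T⁻¹ := by
              have h6 : T⁻¹ ^ s = T⁻¹ * T⁻¹ ^ (s - 1) := by rw [← pow_succ']; congr 1; omega
              rw [h6, mul_assoc, ← mul_pow, inv_mul_cancel₀ hT0.ne', one_pow, mul_one]
      have e5 : 0 ≤ T ^ (2 * s) * a ^ 2 := by positivity
      have e6 : T⁻¹ * 1 ≤ T⁻¹ * (1 + a ^ (2 * r) + b ^ K) := by
        refine mul_le_mul_of_nonneg_left ?_ hTi.le
        have : 0 ≤ a ^ (2 * r) := by positivity
        have : 0 ≤ b ^ K := by positivity
        linarith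
      linarith
  rcases le_total a b with hab | hab
  · rcases le_total T b with h | h
    · have e1 : a * b ^ (s - 1) ≤ b ^ s := by
        have : b ^ s = b * b ^ (s - 1) := by rw [← pow_succ']; congr 1; omega
        rw [this]
        exact mul_le_mul_of_nonneg_right hab (by positivity)
      have e2 : b ^ s ≤ T⁻¹ * b ^ K := by
        have h3 : b ^ K = b ^ s * b ^ (K - s) := by rw [← pow_add]; congr 1; omega
        have h4 : T ≤ b ^ (K - s) := by
          have hb1 : 1 ≤ b := hT.trans h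
          calc T ≤ b := h
            _ = b ^ 1 := (pow_one b).symm
            _ ≤ b ^ (K - s) := pow_le_pow_right₀ hb1 (by omega)
        rw [h3, ← mul_assoc, mul_comm T⁻¹, mul_assoc]
        have h5 : 1 ≤ T⁻¹ * b ^ (K - s) := by
          rw [← inv_mul_cancel₀ hT0.ne']
          exact mul_le_mul_of_nonneg_left h4 hTi.le
        have h6 : 0 ≤ b ^ s := by positivity
        nlinarith
      have e3 : 0 ≤ T ^ (2 * s) * a ^ 2 := by positivity
      have e4 : T⁻¹ * b ^ K ≤ T⁻¹ * (1 + a ^ (2 * r) + b ^ K) := by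
        refine mul_le_mul_of_nonneg_left ?_ hTi.le
        have : 0 ≤ a ^ (2 * r) := by positivity
        linarith
      linarith
    · exact hsmall 0 le_rfl hT0.le h
  · rcases le_total T a with h | h
    · have e1 : a * b ^ (s - 1) ≤ a ^ s := by
        have : a ^ s = a * a ^ (s - 1) := by rw [← pow_succ']; congr 1; omega
        rw [this]
        exact mul_le_mul_of_nonneg_left (pow_le_pow_left₀ hb hab _) ha
      have e2 : a ^ s ≤ T⁻¹ * a ^ (2 * r) := by
        have h3 : a ^ (2 * r) = a ^ s * a ^ (2 * r - s) := by rw [← pow_add]; congr 1; omega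
        have h4 : T ≤ a ^ (2 * r - s) := by
          have hb1 : 1 ≤ a := hT.trans h
          calc T ≤ a := h
            _ = a ^ 1 := (pow_one a).symm
            _ ≤ a ^ (2 * r - s) := pow_le_pow_right₀ hb1 (by omega)
        rw [h3, ← mul_assoc, mul_comm T⁻¹, mul_assoc]
        have h5 : 1 ≤ T⁻¹ * a ^ (2 * r - s) := by
          rw [← inv_mul_cancel₀ hT0.ne']
          exact mul_le_mul_of_nonneg_left h4 hTi.le
        have h6 : 0 ≤ a ^ s := by positivity
        nlinarith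
      have e3 : 0 ≤ T ^ (2 * s) * a ^ 2 := by positivity
      have e4 : T⁻¹ * a ^ (2 * r) ≤ T⁻¹ * (1 + a ^ (2 * r) + b ^ K) := by
        refine mul_le_mul_of_nonneg_left ?_ hTi.le
        have : 0 ≤ b ^ K := by positivity
        linarith
      linarith
    · exact hsmall 0 le_rfl hT0.le (hab.trans h)

end Pool.Agent.Run7.h195.VR
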