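import Pool.Agent.Run7.h195.VR.Sub

/-! # Diagonal solutions, Markov, lower bound -/

set_option autoImplicit false

namespace Pool.Agent.Run7.h195.VR

open Finset Pool.Agent.helper132_dc

open scoped Classical in
/-- all solutions of Vinogradov's system with all variables in `A`. -/
noncomputable def JS (s k : ℕ) (A : Finset ℕ) : Finset ((Fin s → ℕ) × (Fin s → ℕ)) :=
  ((Fintype.piFinset fun _ : Fin s => A) ×ˢ (Fintype.piFinset fun _ : Fin s => A)).filter
    (fun p : (Fin s → ℕ) × (Fin s → ℕ) =>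
      ∀ j : Fin k, ∑ i : Fin s, p.1 i ^ (j.val + 1) = ∑ i : Fin s, p.2 i ^ (j.val + 1))

open scoped Classical in
/-- diagonal solutions. -/
noncomputable def DS (s : ℕ) (A : Finset ℕ) : Finset ((Fin s → ℕ) × (Fin s → ℕ)) :=
  ((Fintype.piFinset fun _ : Fin s => A) ×ˢ (Fintype.piFinset fun _ : Fin s => A)).filter
    (fun p : (Fin s → ℕ) × (Fin s → ℕ) => ∃ σ : Equiv.Perm (Fin s), p.2 = p.1 ∘ σ)

lemma JS_card (s k : ℕ) (A : Finset ℕ) : (JS s k A).card = (DS s A).card + (NS s k A).card := by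
  classical
  have h1 : DS s A = (JS s k A).filter fun p => ∃ σ : Equiv.Perm (Fin s), p.2 = p.1 ∘ σ := by
    unfold DS JS
    rw [Finset.filter_filter]
    refine Finset.filter_congr fun p _ => ?_
    constructor
    · rintro ⟨σ, hσ⟩
      refine ⟨fun j => ?_, σ, hσ⟩
      rw [hσ]
      exact (Equiv.sum_comp σ (fun i => p.1 i ^ (j.val + 1))).symm
    · exact fun h => h.2
  have h2 : NS s k A = (JS s k A).filter fun p => ¬ ∃ σ : Equiv.Perm (Fin s), p.2 = p.1 ∘ σ := by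
    unfold NS JS
    rw [Finset.filter_filter]
  rw [h1, h2, Finset.card_filter_add_card_filter_not]

lemma DS_le (s : ℕ) (A : Finset ℕ) : (DS s A).card ≤ s.factorial * A.card ^ s := by
  classical
  have h : DS s A ⊆ (univ : Finset (Equiv.Perm (Fin s))).biUnion fun σ =>
      (Fintype.piFinset fun _ : Fin s => A).image fun x => (x, x ∘ σ) := by
    intro p hp
    unfold DS at hp
    rw [Finset.mem_filter, Finset.mem_product] at hp
    obtain ⟨⟨h1, h2⟩, σ, hσ⟩ := hp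
    rw [Finset.mem_biUnion]
    refine ⟨σ, mem_univ _, ?_⟩
    rw [Finset.mem_image]
    exact ⟨p.1, h1, Prod.ext rfl hσ.symm⟩
  refine (Finset.card_le_card h).trans (Finset.card_biUnion_le.trans ?_)
  refine (Finset.sum_le_sum fun σ _ => Finset.card_image_le).trans ?_
  rw [Finset.sum_const, Finset.card_univ, Fintype.card_perm, Fintype.card_fin, smul_eq_mul,
    Fintype.card_piFinset]
  simp

lemma DS_ge (s : ℕ) (A : Finset ℕ) : A.card.descFactorial s * s.factorial ≤ (DS s A).card := by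
  classical
  have h1 : Fintype.card ((Fin s ↪ {x // x ∈ A}) × Equiv.Perm (Fin s)) =
      A.card.descFactorial s * s.factorial := by
    rw [Fintype.card_prod, Fintype.card_embedding_eq, Fintype.card_perm, Fintype.card_fin,
      Fintype.card_coe]
  rw [← h1, ← Finset.card_univ]
  refine Finset.card_le_card_of_injOn
    (fun q => ((fun i => ((q.1 i : {x // x ∈ A}) : ℕ)), (fun i => ((q.1 (q.2 i) : {x // x ∈ A}) : ℕ)))) ?_ ?_
  · intro q _
    rw [Finset.mem_coe]
    unfold DS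
    rw [Finset.mem_filter, Finset.mem_product, Fintype.mem_piFinset, Fintype.mem_piFinset]
    exact ⟨⟨fun i => (q.1 i).2, fun i => (q.1 (q.2 i)).2⟩, q.2, rfl⟩
  · intro q _ r _ hqr
    simp only [Prod.mk.injEq] at hqr
    obtain ⟨h2, h3⟩ := hqr
    have h4 : q.1 = r.1 := by
      ext i
      exact congrFun h2 i
    refine Prod.ext h4 ?_
    ext i
    have h5 := congrFun h3 i
    simp only [h4] at h5
    have h6 := r.1.injective (Subtype.ext h5)
    exact congrArg Fin.val h6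

lemma desc_lower (m : ℕ) : ∀ s : ℕ, (m : ℝ) ^ s * m ≤
    ((m.descFactorial s : ℕ) : ℝ) * m + (s : ℝ) ^ 2 * (m : ℝ) ^ s := by
  intro s
  induction s with
  | zero => simp
  | succ s ih =>
    have hm : (0 : ℝ) ≤ m := by positivity
    have h1 : ((m.descFactorial s : ℕ) : ℝ) ≤ (m : ℝ) ^ s := by
      exact_mod_cast Nat.descFactorial_le_pow m s
    have h2 : ((m : ℝ) - s) * ((m.descFactorial s : ℕ) : ℝ) ≤ ((m.descFactorial (s + 1) : ℕ) : ℝ) := by
      rw [Nat.descFactorial_succ]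
      push_cast
      refine mul_le_mul_of_nonneg_right ?_ (by positivity)
      have : m ≤ (m - s) + s := by omega
      have h : (m : ℝ) ≤ ((m - s : ℕ) : ℝ) + s := by exact_mod_cast this
      linarith
    have h3 := mul_le_mul_of_nonneg_right h2 hm
    have h4 := mul_le_mul_of_nonneg_right ih hm
    have h5 : (s : ℝ) * (((m.descFactorial s : ℕ) : ℝ) * m) ≤ (s : ℝ) * ((m : ℝ) ^ s * m) :=
      mul_le_mul_of_nonneg_left (mul_le_mul_of_nonneg_right h1 hm) (by positivity)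
    have h6 : 0 ≤ (m : ℝ) ^ s * m := by positivity
    have h7 : 0 ≤ (s : ℝ) * ((m : ℝ) ^ s * m) := by positivity
    push_cast
    rw [pow_succ]
    nlinarith

lemma DS_real (s m : ℕ) (A : Finset ℕ) (hA : A.card = m) (hm : 1 ≤ m) (hs : 1 ≤ s) :
    |((DS s A).card : ℝ) - (s.factorial : ℝ) * (m : ℝ) ^ s| ≤
      (s.factorial : ℝ) * (s : ℝ) ^ 2 * (m : ℝ) ^ (s - 1) := by
  have hm0 : (0 : ℝ) < m := by exact_mod_cast hm
  have h1 : ((DS s A).card : ℝ) ≤ (s.factorial : ℝ) * (m : ℝ) ^ s := by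
    have := DS_le s A
    rw [hA] at this
    exact_mod_cast this
  have h2 : ((m.descFactorial s : ℕ) : ℝ) * (s.factorial : ℝ) ≤ ((DS s A).card : ℝ) := by
    have := DS_ge s A
    rw [hA] at this
    exact_mod_cast this
  have h3 := desc_lower m s
  have h4 : (m : ℝ) ^ s = (m : ℝ) ^ (s - 1) * m := by
    rw [← pow_succ]; congr 1; omega
  have h5 : (m : ℝ) ^ s ≤ ((m.descFactorial s : ℕ) : ℝ) + (s : ℝ) ^ 2 * (m : ℝ) ^ (s - 1) := by
    have h6 : (m : ℝ) ^ s * m ≤ (((m.descFactorial s : ℕ) : ℝ) + (s : ℝ) ^ 2 * (m : ℝ) ^ (s - 1)) * m := by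
      refine h3.trans (le_of_eq ?_)
      rw [add_mul, mul_assoc, ← h4]
    exact le_of_mul_le_mul_right h6 hm0
  have h7 : (0 : ℝ) < (s.factorial : ℝ) := by exact_mod_cast Nat.factorial_pos s
  have h8 := mul_le_mul_of_nonneg_left h5 h7.le
  rw [abs_le]
  constructor
  · nlinarith
  · have : 0 ≤ (s.factorial : ℝ) * (s : ℝ) ^ 2 * (m : ℝ) ^ (s - 1) := by positivity
    linarith

/-- Cauchy–Schwarz: a lower bound for every set. -/
theorem lower (s k N : ℕ) (hs : 1 ≤ s) (hN : 1 ≤ N) (A : Finset ℕ) (hA : A ⊆ Icc 1 N) :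
    A.card ^ (2 * s) ≤ (2 * s) ^ k * N ^ (k * (k + 1) / 2) * (JS s k A).card := by
  classical
  obtain ⟨f, hf⟩ : ∃ f : (Fin s → ℕ) → (Fin k → ℕ), f = fun x j => ∑ i, x i ^ (j.val + 1) := ⟨_, rfl⟩
  obtain ⟨P, hP⟩ : ∃ P, P = Fintype.piFinset fun _ : Fin s => A := ⟨_, rfl⟩
  obtain ⟨T, hT⟩ : ∃ T, T = Fintype.piFinset fun j : Fin k => range (s * N ^ (j.val + 1) + 1) := ⟨_, rfl⟩
  have hmaps : ∀ x ∈ P, f x ∈ T := by
    intro x hx
    rw [hP, Fintype.mem_piFinset] at hx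
    rw [hT, hf, Fintype.mem_piFinset]
    intro j
    rw [Finset.mem_range]
    have h1 : ∑ i, x i ^ (j.val + 1) ≤ ∑ _i : Fin s, N ^ (j.val + 1) :=
      Finset.sum_le_sum fun i _ => Nat.pow_le_pow_left (Finset.mem_Icc.1 (hA (hx i))).2 _
    rw [Finset.sum_const, Finset.card_univ, Fintype.card_fin, smul_eq_mul] at h1
    exact Nat.lt_succ_of_le h1
  have hPc : P.card = A.card ^ s := by
    rw [hP, Fintype.card_piFinset]
    simp
  have h1 : P.card = ∑ v ∈ T, (P.filter fun x => f x = v).card :=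
    Finset.card_eq_sum_card_fiberwise hmaps
  have h2 : (JS s k A).card = ∑ v ∈ T, (P.filter fun x => f x = v).card ^ 2 := by
    have hJ : JS s k A = (P ×ˢ P).filter fun p => f p.1 = f p.2 := by
      unfold JS
      rw [← hP]
      refine Finset.filter_congr fun p _ => ?_
      rw [hf]
      constructor
      · intro h
        funext j
        exact h j
      · intro h j
        exact congrFun h j
    rw [hJ]
    have hm : ∀ p ∈ (P ×ˢ P).filter (fun p => f p.1 = f p.2), f p.1 ∈ T := by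
      intro p hp
      exact hmaps _ (Finset.mem_product.1 (Finset.mem_filter.1 hp).1).1
    rw [Finset.card_eq_sum_card_fiberwise hm]
    refine Finset.sum_congr rfl fun v _ => ?_
    rw [sq, ← Finset.card_product]
    congr 1
    ext p
    simp only [Finset.mem_filter, Finset.mem_product]
    constructor
    · rintro ⟨⟨⟨a, b⟩, c⟩, d⟩
      exact ⟨⟨a, d⟩, b, c ▸ d⟩
    · rintro ⟨⟨a, d⟩, b, c⟩
      exact ⟨⟨⟨a, b⟩, d.trans c.symm⟩, d⟩
  have h3 : (∑ v ∈ T, (P.filter fun x => f x = v).card) ^ 2 ≤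
      T.card * ∑ v ∈ T, (P.filter fun x => f x = v).card ^ 2 := sq_sum_le_card_mul_sum_sq
  rw [← h1, ← h2, hPc, ← pow_mul, mul_comm s 2] at h3
  refine h3.trans (Nat.mul_le_mul_right _ ?_)
  rw [hT, Fintype.card_piFinset]
  have h4 : ∀ j : Fin k, (range (s * N ^ (j.val + 1) + 1)).card ≤ (2 * s) * N ^ (j.val + 1) := by
    intro j
    rw [Finset.card_range]
    have : 1 ≤ s * N ^ (j.val + 1) := Nat.mul_pos hs (Nat.pow_pos hN)
    calc s * N ^ (j.val + 1) + 1 ≤ s * N ^ (j.val + 1) + s * N ^ (j.val + 1) := by omega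
      _ = _ := by ring
  refine (Finset.prod_le_prod' fun j _ => h4 j).trans (le_of_eq ?_)
  rw [Finset.prod_mul_distrib, Finset.prod_const, Finset.card_univ, Fintype.card_fin,
    Finset.prod_pow_eq_pow_sum]
  congr 2
  rw [Fin.sum_univ_eq_sum_range (fun i => i + 1) k]
  have h5 := Finset.sum_range_succ' (fun i => i) k
  rw [Finset.sum_range_id] at h5
  simp only [Nat.add_sub_cancel, add_zero] at h5
  rw [← h5, mul_comm]

open scoped Classical in
/-- **almost all subsets with `m` elements.** -/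
theorem main (k s : ℕ) (hk : 1 ≤ k) (hs : 1 ≤ s) (δ : ℝ) (hδ : 0 < δ) :
    ∃ C : ℝ, ∀ (N m : ℕ) (B : Finset ℕ), 1 ≤ N → B ⊆ Icc 1 N → 1 ≤ m →
      (m : ℝ) ≤ (B.card : ℝ) * (N : ℝ) ^ (-δ) →
      (m : ℝ) ^ s ≤ (B.card : ℝ) ^ (k * (k + 1) / 2) * (N : ℝ) ^ (-δ) →
      (((B.powersetCard m).filter fun A => ¬ (
          ((NS s k A).card : ℝ) ≤ (m : ℝ) ^ s * (N : ℝ) ^ (-(δ / 8)) ∧
          |((JS s k A).card : ℝ) - (s.factorial : ℝ) * (m : ℝ) ^ s| ≤
            (m : ℝ) ^ s * (N : ℝ) ^ (-(δ / 8)) + C * (m : ℝ) ^ (s - 1))).card : ℝ) ≤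
        C * (N : ℝ) ^ (-(δ / 8)) * ((B.powersetCard m).card : ℝ) := by
  obtain ⟨C, hC0, hC⟩ := main_avg k s δ hk hδ
  refine ⟨max C ((s.factorial : ℝ) * (s : ℝ) ^ 2), ?_⟩
  intro N m B hN hB hm h1 h2
  have hN0 : (0 : ℝ) < N := by exact_mod_cast hN
  have hm0 : (0 : ℝ) < m := by exact_mod_cast hm
  have h3 := hC N m B hN hB hm h1 h2
  obtain ⟨τ, hτ⟩ : ∃ τ : ℝ, τ = (m : ℝ) ^ s * (N : ℝ) ^ (-(δ / 8)) := ⟨_, rfl⟩
  have hτ0 : 0 < τ := by rw [hτ]; positivity
  have h4 : ((B.powersetCard m).filter fun A => ¬ (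
          ((NS s k A).card : ℝ) ≤ (m : ℝ) ^ s * (N : ℝ) ^ (-(δ / 8)) ∧
          |((JS s k A).card : ℝ) - (s.factorial : ℝ) * (m : ℝ) ^ s| ≤
            (m : ℝ) ^ s * (N : ℝ) ^ (-(δ / 8)) +
              max C ((s.factorial : ℝ) * (s : ℝ) ^ 2) * (m : ℝ) ^ (s - 1))) ⊆
      (B.powersetCard m).filter fun A => τ < ((NS s k A).card : ℝ) := by
    intro A hA
    rw [Finset.mem_filter] at hA ⊢
    refine ⟨hA.1, ?_⟩
    by_contra hlt
    rw [not_lt] at hlt
    apply hA.2
    have hAm := (Finset.mem_powersetCard.1 hA.1).2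
    have h5 := DS_real s m A hAm hm hs
    rw [← hτ]
    refine ⟨hlt, ?_⟩
    have h6 : ((JS s k A).card : ℝ) = ((DS s A).card : ℝ) + ((NS s k A).card : ℝ) := by
      exact_mod_cast JS_card s k A
    rw [h6]
    have h7 : ((DS s A).card : ℝ) + ((NS s k A).card : ℝ) - (s.factorial : ℝ) * (m : ℝ) ^ s =
        ((NS s k A).card : ℝ) + (((DS s A).card : ℝ) - (s.factorial : ℝ) * (m : ℝ) ^ s) := by ring
    rw [h7]
    refine (abs_add_le _ _).trans ?_
    rw [abs_of_nonneg (by positivity : (0 : ℝ) ≤ ((NS s k A).card : ℝ))]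
    refine add_le_add hlt (h5.trans ?_)
    exact mul_le_mul_of_nonneg_right (le_max_right _ _) (by positivity)
  have h5 : ((((B.powersetCard m).filter fun A => τ < ((NS s k A).card : ℝ)).card : ℕ) : ℝ) * τ ≤
      (B.card.choose m : ℝ) * (C * ((m : ℝ) ^ s * (N : ℝ) ^ (-(δ / 4)))) := by
    refine le_trans ?_ h3
    rw [← nsmul_eq_mul, ← Finset.sum_const]
    refine (Finset.sum_le_sum fun A hA => (Finset.mem_filter.1 hA).2.le).trans ?_
    exact Finset.sum_le_sum_of_subset_of_nonneg (Finset.filter_subset _ _) fun A _ _ => by positivity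
  have h6 : (m : ℝ) ^ s * (N : ℝ) ^ (-(δ / 4)) = (N : ℝ) ^ (-(δ / 8)) * τ := by
    rw [hτ]
    have : (N : ℝ) ^ (-(δ / 4)) = (N : ℝ) ^ (-(δ / 8)) * (N : ℝ) ^ (-(δ / 8)) := by
      rw [← Real.rpow_add hN0]; congr 1; ring
    rw [this]; ring
  have h7 : ((((B.powersetCard m).filter fun A => τ < ((NS s k A).card : ℝ)).card : ℕ) : ℝ) ≤
      C * (N : ℝ) ^ (-(δ / 8)) * (B.card.choose m : ℝ) := by
    have h8 : ((((B.powersetCard m).filter fun A => τ < ((NS s k A).card : ℝ)).card : ℕ) : ℝ) * τ ≤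
        (C * (N : ℝ) ^ (-(δ / 8)) * (B.card.choose m : ℝ)) * τ := by
      refine h5.trans (le_of_eq ?_)
      rw [h6]; ring
    exact le_of_mul_le_mul_right h8 hτ0
  have h8 := Finset.card_le_card h4
  have h9 : ((((B.powersetCard m).filter fun A => ¬ (
          ((NS s k A).card : ℝ) ≤ (m : ℝ) ^ s * (N : ℝ) ^ (-(δ / 8)) ∧
          |((JS s k A).card : ℝ) - (s.factorial : ℝ) * (m : ℝ) ^ s| ≤
            (m : ℝ) ^ s * (N : ℝ) ^ (-(δ / 8)) +
              max C ((s.factorial : ℝ) * (s : ℝ) ^ 2) * (m : ℝ) ^ (s - 1))).card : ℕ) : ℝ) ≤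
      ((((B.powersetCard m).filter fun A => τ < ((NS s k A).card : ℝ)).card : ℕ) : ℝ) := by
    exact_mod_cast h8
  refine h9.trans (h7.trans ?_)
  rw [Finset.card_powersetCard]
  refine mul_le_mul_of_nonneg_right (mul_le_mul_of_nonneg_right (le_max_left _ _) (by positivity)) (by positivity)

end Pool.Agent.Run7.h195.VR
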