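import Mathlib

/-! # Integer tuples with weights: counting with the moments of an exponential sum over `ZMod q` -/

set_option autoImplicit false

namespace Pool.Agent.Run7.h195.VR

open Finset

/-- the exponential sum. -/
noncomputable def F (q k : ℕ) (B : Finset ℕ) [NeZero q] (α : Fin k → ZMod q) : ℂ :=
  ∑ n ∈ B, ZMod.stdAddChar (∑ j : Fin k, α j * ((n : ℕ) : ZMod q) ^ (j.val + 1))

/-- solutions in `B` of the system with integer weights. -/
def W {ι : Type*} [Fintype ι] [DecidableEq ι] (k : ℕ) (B : Finset ℕ) (μ : ι → ℤ) : Finset (ι → ℕ) :=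
  (Fintype.piFinset fun _ : ι => B).filter
    fun v => ∀ j : Fin k, ∑ a, μ a * ((v a : ℕ) : ℤ) ^ (j.val + 1) = 0

/-- solutions modulo `q`. -/
def Wq {ι : Type*} [Fintype ι] [DecidableEq ι] (q k : ℕ) (B : Finset ℕ) (μ : ι → ℤ) : Finset (ι → ℕ) :=
  (Fintype.piFinset fun _ : ι => B).filter
    fun v => ∀ j : Fin k, ∑ a, ((μ a : ℤ) : ZMod q) * ((v a : ℕ) : ZMod q) ^ (j.val + 1) = 0

lemma W_sub {ι : Type*} [Fintype ι] [DecidableEq ι] (q k : ℕ) (B : Finset ℕ) (μ : ι → ℤ) :
    W k B μ ⊆ Wq q k B μ := by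
  intro v hv
  unfold W at hv
  unfold Wq
  rw [mem_filter] at hv ⊢
  refine ⟨hv.1, fun j => ?_⟩
  have h := congrArg (fun z : ℤ => (z : ZMod q)) (hv.2 j)
  push_cast at h
  exact h

lemma char_sum {A : Type*} [AddCommMonoid A] (ψ : AddChar A ℂ) {ι : Type*} (S : Finset ι) (g : ι → A) :
    ψ (∑ i ∈ S, g i) = ∏ i ∈ S, ψ (g i) := by
  classical
  induction S using Finset.induction_on with
  | empty => simp
  | insert a S ha ih => rw [Finset.sum_insert ha, Finset.prod_insert ha, AddChar.map_add_eq_mul, ih]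

lemma orth (q k : ℕ) [NeZero q] (b : Fin k → ZMod q) :
    ∑ α : Fin k → ZMod q, ZMod.stdAddChar (∑ j : Fin k, α j * b j) =
      if ∀ j, b j = 0 then (q : ℂ) ^ k else 0 := by
  have h1 : ∀ α : Fin k → ZMod q, (ZMod.stdAddChar (∑ j : Fin k, α j * b j) : ℂ) =
      ∏ j : Fin k, ZMod.stdAddChar (α j * b j) := by
    intro α
    rw [char_sum]
  rw [Finset.sum_congr rfl fun α _ => h1 α]
  have h2 := Finset.prod_univ_sum (fun _ : Fin k => (Finset.univ : Finset (ZMod q)))
    (fun j x => (ZMod.stdAddChar (x * b j) : ℂ))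
  rw [Fintype.piFinset_univ] at h2
  rw [← h2]
  have h3 : ∀ j : Fin k, ∑ x : ZMod q, (ZMod.stdAddChar (x * b j) : ℂ) =
      if b j = 0 then (q : ℂ) else 0 := by
    intro j
    rw [AddChar.sum_mulShift _ (ZMod.isPrimitive_stdAddChar q)]
    rw [ZMod.card]
    split_ifs <;> simp
  rw [Finset.prod_congr rfl fun j _ => h3 j]
  split_ifs with h
  · rw [Finset.prod_congr rfl fun j _ => if_pos (h j)]
    simp
  · push Not at h
    obtain ⟨j, hj⟩ := h
    exact Finset.prod_eq_zero (Finset.mem_univ j) (if_neg hj)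

lemma sumF {ι : Type*} [Fintype ι] [DecidableEq ι] (q k : ℕ) (B : Finset ℕ) [NeZero q] (μ : ι → ℤ) :
    ∑ α : Fin k → ZMod q, ∏ a, F q k B (fun j => ((μ a : ℤ) : ZMod q) * α j) =
      (q : ℂ) ^ k * ((Wq q k B μ).card : ℂ) := by
  have h1 : ∀ α : Fin k → ZMod q, ∏ a, F q k B (fun j => ((μ a : ℤ) : ZMod q) * α j) =
      ∑ v ∈ Fintype.piFinset fun _ : ι => B,
        (ZMod.stdAddChar (∑ j : Fin k, α j * (∑ a, ((μ a : ℤ) : ZMod q) *
          ((v a : ℕ) : ZMod q) ^ (j.val + 1))) : ℂ) := by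
    intro α
    unfold F
    rw [Finset.prod_univ_sum]
    refine Finset.sum_congr rfl fun v _ => ?_
    rw [← char_sum]
    congr 1
    rw [Finset.sum_comm]
    refine Finset.sum_congr rfl fun j _ => ?_
    rw [Finset.mul_sum]
    refine Finset.sum_congr rfl fun a _ => ?_
    ring
  rw [Finset.sum_congr rfl fun α _ => h1 α, Finset.sum_comm]
  rw [Finset.sum_congr rfl fun v _ => orth q k _]
  rw [← Finset.sum_filter]
  unfold Wq
  rw [Finset.sum_const, nsmul_eq_mul, mul_comm]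

/-- the weights `+1`, `-1`. -/
def sg (s : ℕ) : Fin s ⊕ Fin s → ℤ := Sum.elim (fun _ => 1) (fun _ => -1)

lemma F_neg (q k : ℕ) (B : Finset ℕ) [NeZero q] (α : Fin k → ZMod q) :
    F q k B (fun j => - α j) = (starRingEnd ℂ) (F q k B α) := by
  unfold F
  rw [map_sum]
  refine Finset.sum_congr rfl fun n _ => ?_
  rw [← AddChar.map_neg_eq_conj]
  congr 1
  rw [← Finset.sum_neg_distrib]
  refine Finset.sum_congr rfl fun j _ => ?_
  ring

lemma moment (q k K : ℕ) (B : Finset ℕ) [NeZero q] :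
    ∑ α : Fin k → ZMod q, ‖F q k B α‖ ^ (2 * K) = (q : ℝ) ^ k * ((Wq q k B (sg K)).card : ℝ) := by
  have h := sumF q k B (sg K)
  have h1 : ∀ α : Fin k → ZMod q, ∏ a, F q k B (fun j => ((sg K a : ℤ) : ZMod q) * α j) =
      ((‖F q k B α‖ ^ (2 * K) : ℝ) : ℂ) := by
    intro α
    rw [Fintype.prod_sum_type]
    have e1 : ∀ i : Fin K, F q k B (fun j => ((sg K (Sum.inl i) : ℤ) : ZMod q) * α j) = F q k B α := by
      intro i
      congr 1
      funext j
      simp [sg]
    have e2 : ∀ i : Fin K, F q k B (fun j => ((sg K (Sum.inr i) : ℤ) : ZMod q) * α j) =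
        (starRingEnd ℂ) (F q k B α) := by
      intro i
      rw [← F_neg]
      congr 1
      funext j
      simp [sg]
    rw [Finset.prod_congr rfl fun i _ => e1 i, Finset.prod_congr rfl fun i _ => e2 i]
    rw [Finset.prod_const, Finset.prod_const, Finset.card_univ, Fintype.card_fin, ← mul_pow,
      Complex.mul_conj']
    push_cast
    rw [← pow_mul]
  rw [Finset.sum_congr rfl fun α _ => h1 α] at h
  exact_mod_cast h

lemma F_zero (q k : ℕ) (B : Finset ℕ) [NeZero q] : ‖F q k B (fun _ => 0)‖ = B.card := by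
  unfold F
  simp

lemma F_le (q k : ℕ) (B : Finset ℕ) [NeZero q] (α : Fin k → ZMod q) : ‖F q k B α‖ ≤ B.card := by
  unfold F
  refine (norm_sum_le _ _).trans ?_
  rw [Finset.sum_congr rfl fun n _ => AddChar.norm_apply _ _]
  simp

lemma prod_le_sum {ι : Type*} (S : Finset ι) (hS : S.Nonempty) (g : ι → ℝ) (hg : ∀ a ∈ S, 0 ≤ g a) :
    ∏ a ∈ S, g a ≤ ∑ a ∈ S, g a ^ S.card := by
  obtain ⟨b, hb, hmax⟩ := Finset.exists_max_image S g hS
  have h1 : ∏ a ∈ S, g a ≤ ∏ _a ∈ S, g b := Finset.prod_le_prod hg fun a ha => hmax a ha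
  rw [Finset.prod_const] at h1
  refine h1.trans ?_
  exact Finset.single_le_sum (f := fun a => g a ^ S.card) (fun a ha => pow_nonneg (hg a ha) _) hb

/-- counting with weights: the number of solutions is at most the `e`-th moment of the exponential
sum, times `e`, times `N` for every zero weight. -/
lemma W_le {ι : Type*} [Fintype ι] [DecidableEq ι] (q k : ℕ) (B : Finset ℕ) [hq : Fact q.Prime] (μ : ι → ℤ)
    (hμ : ∀ a, |μ a| < q) (S : Finset ι) (hS : S = univ.filter fun a => μ a ≠ 0) (hne : S.Nonempty) :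
    (q : ℝ) ^ k * ((W k B μ).card : ℝ) ≤
      (B.card : ℝ) ^ (Fintype.card ι - S.card) *
        ((S.card : ℝ) * ∑ α : Fin k → ZMod q, ‖F q k B α‖ ^ S.card) := by
  have h0 : ((W k B μ).card : ℝ) ≤ ((Wq q k B μ).card : ℝ) := by
    exact_mod_cast Finset.card_le_card (W_sub q k B μ)
  have hq0 : (0 : ℝ) ≤ (q : ℝ) ^ k := by positivity
  refine (mul_le_mul_of_nonneg_left h0 hq0).trans ?_
  have h1 : (q : ℝ) ^ k * ((Wq q k B μ).card : ℝ) =
      ‖∑ α : Fin k → ZMod q, ∏ a, F q k B (fun j => ((μ a : ℤ) : ZMod q) * α j)‖ := by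
    rw [sumF, norm_mul, norm_pow, Complex.norm_natCast, Complex.norm_natCast]
  rw [h1]
  refine (norm_sum_le _ _).trans ?_
  have h2 : ∀ α : Fin k → ZMod q, ‖∏ a, F q k B (fun j => ((μ a : ℤ) : ZMod q) * α j)‖ ≤
      (B.card : ℝ) ^ (Fintype.card ι - S.card) *
        ∑ a ∈ S, ‖F q k B (fun j => ((μ a : ℤ) : ZMod q) * α j)‖ ^ S.card := by
    intro α
    rw [norm_prod, ← Finset.prod_mul_prod_compl S, mul_comm]
    refine mul_le_mul ?_ (prod_le_sum S hne _ fun a _ => norm_nonneg _)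
      (Finset.prod_nonneg fun a _ => norm_nonneg _) (by positivity)
    have h3 : ∀ a ∈ Sᶜ, ‖F q k B (fun j => ((μ a : ℤ) : ZMod q) * α j)‖ = B.card := by
      intro a ha
      rw [hS, Finset.mem_compl, Finset.mem_filter] at ha
      have h4 : μ a = 0 := by
        by_contra h5
        exact ha ⟨Finset.mem_univ a, h5⟩
      rw [h4]
      simp only [Int.cast_zero, zero_mul]
      exact F_zero q k B
    rw [Finset.prod_congr rfl h3, Finset.prod_const, Finset.card_compl]
  refine (Finset.sum_le_sum fun α _ => h2 α).trans ?_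
  rw [← Finset.mul_sum]
  refine mul_le_mul_of_nonneg_left ?_ (by positivity)
  rw [Finset.sum_comm]
  have h3 : ∀ a ∈ S, ∑ α : Fin k → ZMod q,
      ‖F q k B (fun j => ((μ a : ℤ) : ZMod q) * α j)‖ ^ S.card =
      ∑ α : Fin k → ZMod q, ‖F q k B α‖ ^ S.card := by
    intro a ha
    rw [hS, Finset.mem_filter] at ha
    have h4 : ((μ a : ℤ) : ZMod q) ≠ 0 := by
      intro h5
      rw [ZMod.intCast_zmod_eq_zero_iff_dvd] at h5
      have h6 := Int.eq_zero_of_abs_lt_dvd h5 (hμ a)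
      exact ha.2 h6
    refine Fintype.sum_equiv (Equiv.piCongrRight fun _ : Fin k => Equiv.mulLeft₀ _ h4) _ _ fun α => ?_
    rfl
  rw [Finset.sum_congr rfl h3, Finset.sum_const, nsmul_eq_mul]

end Pool.Agent.Run7.h195.VR
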