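import Pool.Agent.Run7.h195.VR.Four
import Pool.Agent.helper132_dc.D10

/-! # Number of solutions with integer weights in an arbitrary set, from decoupling -/

set_option autoImplicit false

namespace Pool.Agent.Run7.h195.VR

open Finset Pool.Agent.helper132_dc

/-- the functions. -/
noncomputable def FZ (q k : ℕ) [NeZero q] (n : ℤ) (α : Fin k → ZMod q) : ℂ :=
  ZMod.stdAddChar (∑ j : Fin k, α j * ((n : ℤ) : ZMod q) ^ (j.val + 1))

lemma FZ_orth (q k N s : ℕ) [NeZero q] (hN : 1 ≤ N) (hq : 2 * s * N ^ k < q) (B : Finset ℕ)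
    (hB : B ⊆ Icc 1 N) (M : ℤ) :
    OS (fun _ : Fin k → ZMod q => (1 : ℝ)) (FZ q k) (B.map Nat.castEmbedding) 1 k s M := by
  classical
  intro x y hx hy hn
  have hb : ∀ u : Fin s → ℤ, (∀ i, u i ∈ B.map (Nat.castEmbedding (R := ℤ))) → ∀ i, 0 ≤ u i ∧ u i ≤ N := by
    intro u hu i
    obtain ⟨n, hn1, hn2⟩ := Finset.mem_map.1 (hu i)
    have h1 := Finset.mem_Icc.1 (hB hn1)
    have h2 : (n : ℤ) = u i := hn2
    rw [← h2]
    exact ⟨by positivity, by exact_mod_cast h1.2⟩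
  have e1 : ∀ α : Fin k → ZMod q, ((1 : ℝ) : ℂ) * ((∏ i, FZ q k (x i) α) *
      ∏ i, (starRingEnd ℂ) (FZ q k (y i) α)) =
      (ZMod.stdAddChar (∑ j : Fin k, α j * (((∑ i, x i ^ (j.val + 1) - ∑ i, y i ^ (j.val + 1) : ℤ)) : ZMod q)) : ℂ) := by
    intro α
    unfold FZ
    have e2 : ∀ i, (starRingEnd ℂ) (ZMod.stdAddChar (∑ j : Fin k, α j * ((y i : ℤ) : ZMod q) ^ (j.val + 1)) : ℂ) =
        (ZMod.stdAddChar (-(∑ j : Fin k, α j * ((y i : ℤ) : ZMod q) ^ (j.val + 1))) : ℂ) := by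
      intro i
      rw [AddChar.map_neg_eq_conj]
    rw [Finset.prod_congr rfl fun i _ => e2 i, ← char_sum, ← char_sum, ← AddChar.map_add_eq_mul]
    push_cast
    rw [one_mul]
    congr 1
    rw [Finset.sum_neg_distrib, Finset.sum_comm, Finset.sum_comm (s := (univ : Finset (Fin s))),
      ← sub_eq_add_neg, ← Finset.sum_sub_distrib]
    refine Finset.sum_congr rfl fun j _ => ?_
    rw [← Finset.mul_sum, ← Finset.mul_sum, ← mul_sub]
  rw [Finset.sum_congr rfl fun α _ => e1 α]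
  rw [orth, if_neg]
  intro h0
  apply hn
  intro j hj1 hjk
  have h1 := h0 ⟨j - 1, by omega⟩
  simp only at h1
  have e2 : j - 1 + 1 = j := by omega
  rw [e2] at h1
  rw [ZMod.intCast_zmod_eq_zero_iff_dvd] at h1
  have h2 : |∑ i, x i ^ j - ∑ i, y i ^ j| < q := by
    have h3 : ∀ u : Fin s → ℤ, (∀ i, u i ∈ B.map (Nat.castEmbedding (R := ℤ))) →
        |∑ i, u i ^ j| ≤ s * (N : ℤ) ^ k := by
      intro u hu
      refine (Finset.abs_sum_le_sum_abs _ _).trans ?_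
      have h4 : ∀ i ∈ (univ : Finset (Fin s)), |u i ^ j| ≤ (N : ℤ) ^ k := by
        intro i _
        have h5 := hb u hu i
        rw [abs_of_nonneg (pow_nonneg h5.1 _)]
        have h6 : u i ^ j ≤ (N : ℤ) ^ j := pow_le_pow_left₀ h5.1 h5.2 _
        have h7 : (N : ℤ) ^ j ≤ (N : ℤ) ^ k := pow_le_pow_right₀ (by exact_mod_cast hN) hjk
        exact h6.trans h7
      refine (Finset.sum_le_sum h4).trans ?_
      rw [Finset.sum_const, Finset.card_univ, Fintype.card_fin, nsmul_eq_mul]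
    have h8 := h3 x hx
    have h9 := h3 y hy
    have h10 : ((2 * s * N ^ k : ℕ) : ℤ) < q := by exact_mod_cast hq
    push_cast at h10
    have h11 := abs_sub (∑ i, x i ^ j) (∑ i, y i ^ j)
    linarith
  have h3 := Int.eq_zero_of_abs_lt_dvd h1 h2
  rw [h3]
  exact dvd_zero _

lemma FZ_norm (q k : ℕ) [NeZero q] (n : ℤ) (α : Fin k → ZMod q) : ‖FZ q k n α‖ = 1 := by
  unfold FZ
  exact AddChar.norm_apply _ _

/-- the critical moment over an arbitrary set. -/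
theorem mom_bound (k : ℕ) (hk : 1 ≤ k) (ε : ℝ) (hε : 0 < ε) :
    ∃ C : ℝ, 1 ≤ C ∧ ∀ (q N : ℕ) (_ : NeZero q) (B : Finset ℕ), 1 ≤ N → 2 * sk k * N ^ k < q →
      B ⊆ Icc 1 N →
      ∑ α : Fin k → ZMod q, ‖F q k B α‖ ^ (2 * sk k) ≤
        (q : ℝ) ^ k * (C * (B.card : ℝ) ^ (sk k) * (N : ℝ) ^ ε) := by
  classical
  obtain ⟨p0, hp0⟩ := dec_main k hk ε hε
  obtain ⟨p, hpp, hp⟩ := Nat.exists_infinite_primes p0
  obtain ⟨C, hC, hU⟩ := hp0 p hp hpp
  have hpR1 : (1 : ℝ) ≤ p := by exact_mod_cast hp.one_lt.le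
  have hpR0 : (0 : ℝ) < p := by linarith
  obtain ⟨s, hs⟩ : ∃ s, s = sk k := ⟨_, rfl⟩
  have hs1 : 1 ≤ s := by rw [hs]; exact sk_pos k hk
  refine ⟨C * ((p : ℝ) ^ ε * (2 : ℝ) ^ ε), ?_, ?_⟩
  · have h1 : (1 : ℝ) ≤ (p : ℝ) ^ ε := Real.one_le_rpow hpR1 hε.le
    have h2 : (1 : ℝ) ≤ (2 : ℝ) ^ ε := Real.one_le_rpow (by norm_num) hε.le
    have h3 : (1 : ℝ) ≤ (p : ℝ) ^ ε * (2 : ℝ) ^ ε := by nlinarith
    nlinarith
  intro q N inst B hN hq hB
  have hN0 : (0 : ℝ) < N := by exact_mod_cast hN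
  obtain ⟨X, hXd⟩ : ∃ X, X = N + 1 := ⟨_, rfl⟩
  obtain ⟨h, hh⟩ : ∃ h, h = Nat.clog p X := ⟨_, rfl⟩
  have hXB : X ≤ p ^ h := by rw [hh]; exact Nat.le_pow_clog hp.one_lt X
  have hBX : p ^ h ≤ p * X := by
    have h1 := Nat.pow_pred_clog_lt_self hp.one_lt (x := X) (by omega)
    rw [← hh] at h1
    have hB1 : 1 ≤ h := by
      rw [hh]; exact Nat.clog_pos hp.one_lt (by omega)
    have h2 : p ^ h = p * p ^ h.pred := by
      rw [← pow_succ']; congr 1; rw [Nat.pred_eq_sub_one]; omega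
    rw [h2]
    exact Nat.mul_le_mul_left _ h1.le
  have hq0 : (0 : ℝ) < (q : ℝ) ^ k := by
    have : 0 < q := by omega
    positivity
  have hmain := hU (Fin k → ZMod q) inferInstance h (fun _ => (1 : ℝ)) (FZ q k) (B.map Nat.castEmbedding)
    (fun _ => zero_le_one) (FZ_orth q k N (sk k) hN hq B hB _)
  rw [← hs] at hmain ⊢
  -- left side
  have hL : nm (fun _ : Fin k → ZMod q => (1 : ℝ)) s (Sm (B.map Nat.castEmbedding) (FZ q k)) =
      ∑ α : Fin k → ZMod q, ‖F q k B α‖ ^ (2 * s) := by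
    unfold nm
    refine Finset.sum_congr rfl fun α _ => ?_
    rw [one_mul]
    unfold Sm F FZ
    rw [Finset.sum_map]
    simp
  -- right side
  have hR : ∀ c ∈ range (p ^ h), nm (fun _ : Fin k → ZMod q => (1 : ℝ)) s
      (Sm (cls (p ^ h) (B.map Nat.castEmbedding) c) (FZ q k)) = if c ∈ B then (q : ℝ) ^ k else 0 := by
    intro c hc
    rw [Finset.mem_range] at hc
    have hcls : cls (p ^ h) (B.map Nat.castEmbedding) c = if c ∈ B then {(c : ℤ)} else ∅ := by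
      have key : ∀ n ∈ B, ((p ^ h : ℕ) : ℤ) ∣ (n : ℤ) - c → n = c := by
        intro n hn hd
        have h0 := Finset.mem_Icc.1 (hB hn)
        have h1 := Int.eq_zero_of_abs_lt_dvd hd (by
          have h2 : (X : ℤ) ≤ ((p ^ h : ℕ) : ℤ) := by exact_mod_cast hXB
          have h3 : (c : ℤ) < ((p ^ h : ℕ) : ℤ) := by exact_mod_cast hc
          rw [abs_lt]
          constructor <;> omega)
        omega
      ext n
      rw [mem_cls, Finset.mem_map]
      constructor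
      · rintro ⟨⟨m, hm1, hm2⟩, hd⟩
        have hm3 : (m : ℤ) = n := hm2
        rw [← hm3] at hd
        have h4 := key m hm1 hd
        rw [h4] at hm1 hm3
        rw [if_pos hm1, Finset.mem_singleton]
        exact hm3.symm
      · intro h1
        split_ifs at h1 with h2
        · rw [Finset.mem_singleton] at h1
          subst h1
          exact ⟨⟨c, h2, rfl⟩, by simp⟩
        · exact absurd h1 (Finset.notMem_empty _)
    rw [hcls]
    split_ifs with h1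
    · unfold nm Sm
      have e1 : ∀ α : Fin k → ZMod q, (1 : ℝ) * ‖∑ n ∈ ({(c : ℤ)} : Finset ℤ), FZ q k n α‖ ^ (2 * s) = 1 := by
        intro α
        rw [Finset.sum_singleton, FZ_norm, one_pow, one_mul]
      rw [Finset.sum_congr rfl fun α _ => e1 α, Finset.sum_const, Finset.card_univ,
        Fintype.card_fun, ZMod.card, Fintype.card_fin]
      simp
    · unfold nm Sm
      simp only [Finset.sum_empty, norm_zero]
      rw [zero_pow (by omega)]
      simp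
  have hR2 : ∑ c ∈ range (p ^ h), nm (fun _ : Fin k → ZMod q => (1 : ℝ)) s
      (Sm (cls (p ^ h) (B.map Nat.castEmbedding) c) (FZ q k)) ^ ((1 : ℝ) / s) =
      B.card * ((q : ℝ) ^ k) ^ ((1 : ℝ) / s) := by
    have e1 : ∀ c ∈ range (p ^ h), nm (fun _ : Fin k → ZMod q => (1 : ℝ)) s
        (Sm (cls (p ^ h) (B.map Nat.castEmbedding) c) (FZ q k)) ^ ((1 : ℝ) / s) =
        if c ∈ B then ((q : ℝ) ^ k) ^ ((1 : ℝ) / s) else 0 := by
      intro c hc
      rw [hR c hc]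
      split_ifs
      · rfl
      · have hs0 : (0 : ℝ) < s := by exact_mod_cast hs1
        exact Real.zero_rpow (by positivity)
    rw [Finset.sum_congr rfl e1, ← Finset.sum_filter]
    have e2 : (range (p ^ h)).filter (fun c => c ∈ B) = B := by
      ext c
      rw [Finset.mem_filter, Finset.mem_range]
      constructor
      · exact fun h1 => h1.2
      · intro h1
        have := Finset.mem_Icc.1 (hB h1)
        exact ⟨by omega, h1⟩
    rw [e2, Finset.sum_const, nsmul_eq_mul]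
  rw [hL, hR2, mul_pow, one_div, Real.rpow_inv_natCast_pow hq0.le (by omega)] at hmain
  have h3 : (p : ℝ) ^ (ε * h) ≤ (p : ℝ) ^ ε * (2 : ℝ) ^ ε * (N : ℝ) ^ ε := by
    rw [← Real.mul_rpow hpR0.le (by norm_num), ← Real.mul_rpow (by positivity) hN0.le, mul_comm ε,
      Real.rpow_mul hpR0.le, Real.rpow_natCast]
    refine Real.rpow_le_rpow (by positivity) ?_ hε.le
    have h4 : ((p ^ h : ℕ) : ℝ) ≤ ((p * X : ℕ) : ℝ) := by exact_mod_cast hBX
    push_cast at h4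
    refine h4.trans ?_
    have h5 : (X : ℝ) ≤ 2 * N := by
      rw [hXd]; push_cast
      have : (1 : ℝ) ≤ N := by exact_mod_cast hN
      linarith
    calc (p : ℝ) * X ≤ p * (2 * N) := mul_le_mul_of_nonneg_left h5 hpR0.le
      _ = p * 2 * N := by ring
  refine hmain.trans ?_
  have h6 : C * (p : ℝ) ^ (ε * h) ≤ C * ((p : ℝ) ^ ε * (2 : ℝ) ^ ε * (N : ℝ) ^ ε) :=
    mul_le_mul_of_nonneg_left h3 (by linarith)
  refine (mul_le_mul_of_nonneg_right h6 (by positivity)).trans (le_of_eq ?_)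
  ring

/-- the exponent. -/
noncomputable def GG (k e : ℕ) : ℝ := max ((e : ℝ) / 2) ((e : ℝ) - (sk k : ℝ))

lemma pow_bd (k e N : ℕ) (hN : 1 ≤ N) (t : ℝ) (ht : 0 ≤ t) (htN : t ≤ N) :
    t ^ e ≤ (N : ℝ) ^ GG k e + (N : ℝ) ^ (GG k e - (sk k : ℝ)) * t ^ (2 * sk k) := by
  have hN0 : (0 : ℝ) < N := by exact_mod_cast hN
  have hN1 : (1 : ℝ) ≤ N := by exact_mod_cast hN
  obtain ⟨K, hK⟩ : ∃ K, K = sk k := ⟨_, rfl⟩
  rw [← hK]
  rcases Nat.lt_or_ge (2 * K) e with h | h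
  · have h1 : (N : ℝ) ^ ((e : ℝ) - 2 * K) ≤ (N : ℝ) ^ (GG k e - (K : ℝ)) := by
      apply Real.rpow_le_rpow_of_exponent_le hN1
      have := le_max_right ((e : ℝ) / 2) ((e : ℝ) - (sk k : ℝ))
      unfold GG
      rw [← hK] at this ⊢
      linarith
    have h2 : t ^ e = t ^ (e - 2 * K) * t ^ (2 * K) := by
      rw [← pow_add]; congr 1; omega
    have h3 : t ^ (e - 2 * K) ≤ (N : ℝ) ^ ((e : ℝ) - 2 * K) := by
      have e1 : ((e : ℝ) - 2 * K) = ((e - 2 * K : ℕ) : ℝ) := by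
        rw [Nat.cast_sub h.le]; push_cast; ring
      rw [e1, Real.rpow_natCast]
      exact pow_le_pow_left₀ ht htN _
    have h4 : 0 ≤ (N : ℝ) ^ GG k e := by positivity
    rw [h2]
    have h5 : t ^ (e - 2 * K) * t ^ (2 * K) ≤ (N : ℝ) ^ (GG k e - (K : ℝ)) * t ^ (2 * K) :=
      mul_le_mul_of_nonneg_right (h3.trans h1) (by positivity)
    linarith
  · have hG : (e : ℝ) / 2 ≤ GG k e := le_max_left _ _
    obtain ⟨r, hr⟩ : ∃ r : ℝ, r = (N : ℝ) ^ ((1 : ℝ) / 2) := ⟨_, rfl⟩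
    have hr0 : 0 < r := by rw [hr]; positivity
    rcases le_total t r with h1 | h1
    · have h2 : t ^ e ≤ (N : ℝ) ^ GG k e := by
        calc t ^ e ≤ r ^ e := pow_le_pow_left₀ ht h1 _
          _ = (N : ℝ) ^ ((e : ℝ) / 2) := by
              rw [hr, ← Real.rpow_natCast, ← Real.rpow_mul hN0.le]; congr 1; ring
          _ ≤ _ := Real.rpow_le_rpow_of_exponent_le hN1 hG
      have h3 : 0 ≤ (N : ℝ) ^ (GG k e - (K : ℝ)) * t ^ (2 * K) := by positivity
      linarith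
    · have h2 : t ^ (2 * K) = t ^ e * t ^ (2 * K - e) := by
        rw [← pow_add]; congr 1; omega
      have h3 : r ^ (2 * K - e) ≤ t ^ (2 * K - e) := pow_le_pow_left₀ hr0.le h1 _
      have h4 : r ^ (2 * K - e) = (N : ℝ) ^ ((K : ℝ) - (e : ℝ) / 2) := by
        rw [hr, ← Real.rpow_natCast, ← Real.rpow_mul hN0.le, Nat.cast_sub h]
        congr 1; push_cast; ring
      have h5 : 1 ≤ (N : ℝ) ^ (GG k e - (K : ℝ)) * (N : ℝ) ^ ((K : ℝ) - (e : ℝ) / 2) := by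
        rw [← Real.rpow_add hN0]
        apply Real.one_le_rpow hN1
        linarith
      have h6 : t ^ e ≤ (N : ℝ) ^ (GG k e - (K : ℝ)) * t ^ (2 * K) := by
        rw [h2]
        have h7 : 0 ≤ t ^ e := by positivity
        have h8 : 0 ≤ (N : ℝ) ^ (GG k e - (K : ℝ)) := by positivity
        calc t ^ e = t ^ e * 1 := (mul_one _).symm
          _ ≤ t ^ e * ((N : ℝ) ^ (GG k e - (K : ℝ)) * (N : ℝ) ^ ((K : ℝ) - (e : ℝ) / 2)) :=
              mul_le_mul_of_nonneg_left h5 h7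
          _ = (N : ℝ) ^ (GG k e - (K : ℝ)) * (t ^ e * r ^ (2 * K - e)) := by rw [h4]; ring
          _ ≤ (N : ℝ) ^ (GG k e - (K : ℝ)) * (t ^ e * t ^ (2 * K - e)) :=
              mul_le_mul_of_nonneg_left (mul_le_mul_of_nonneg_left h3 h7) h8
      have h9 : 0 ≤ (N : ℝ) ^ GG k e := by positivity
      linarith

/-- **the number of solutions with weights.** -/
theorem W_bound (k : ℕ) (hk : 1 ≤ k) (ε : ℝ) (hε : 0 < ε) :
    ∃ C : ℝ, 1 ≤ C ∧ ∀ (d N : ℕ) (B : Finset ℕ) (μ : Fin d → ℤ), 1 ≤ N → B ⊆ Icc 1 N → B.Nonempty →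
      (univ.filter fun a => μ a ≠ 0).Nonempty →
      ((W k B μ).card : ℝ) ≤ (B.card : ℝ) ^ (d - (univ.filter fun a => μ a ≠ 0).card) *
        (((univ.filter fun a => μ a ≠ 0).card : ℝ) *
          (C * ((B.card : ℝ) ^ (GG k (univ.filter fun a => μ a ≠ 0).card) * (N : ℝ) ^ ε))) := by
  obtain ⟨C, hC1, hC⟩ := mom_bound k hk ε hε
  refine ⟨1 + C, by linarith, ?_⟩
  intro d N B μ hN hB hBne hne
  have hN0 : (0 : ℝ) < N := by exact_mod_cast hN
  have hN1 : (1 : ℝ) ≤ N := by exact_mod_cast hN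
  obtain ⟨K, hK⟩ : ∃ K, K = sk k := ⟨_, rfl⟩
  obtain ⟨b, hb⟩ : ∃ b, b = B.card := ⟨_, rfl⟩
  have hb1 : 1 ≤ b := by rw [hb]; exact hBne.card_pos
  have hbR : (0 : ℝ) < b := by exact_mod_cast hb1
  obtain ⟨M, hM⟩ : ∃ M : ℕ, ∀ a, |μ a| ≤ M := by
    refine ⟨∑ a, (μ a).natAbs, fun a => ?_⟩
    have h1 := Finset.single_le_sum (f := fun a => (μ a).natAbs) (fun b _ => Nat.zero_le _)
      (Finset.mem_univ a)
    have h2 : |μ a| = ((μ a).natAbs : ℤ) := Int.abs_eq_natAbs _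
    rw [h2]
    exact_mod_cast h1
  obtain ⟨q, hqM, hqp⟩ := Nat.exists_infinite_primes (M + 2 * K * N ^ k + 1)
  have hFact : Fact q.Prime := ⟨hqp⟩
  have hq0 : (0 : ℝ) < (q : ℝ) ^ k := by
    have : 0 < q := hqp.pos
    positivity
  have hmom := hC q N inferInstance B hN (by rw [← hK]; omega) hB
  rw [← hK, ← hb] at hmom
  obtain ⟨S, hS⟩ : ∃ S, S = univ.filter fun a => μ a ≠ 0 := ⟨_, rfl⟩
  rw [← hS] at hne ⊢
  have hmain := W_le q k B μ (fun a => lt_of_le_of_lt (hM a) (by exact_mod_cast (by omega : M < q))) S hS hne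
  rw [Fintype.card_fin] at hmain
  rw [← hb] at hmain ⊢
  have hsum : ∑ α : Fin k → ZMod q, ‖F q k B α‖ ^ S.card ≤
      (q : ℝ) ^ k * ((1 + C) * ((b : ℝ) ^ GG k S.card * (N : ℝ) ^ ε)) := by
    have h1 : ∑ α : Fin k → ZMod q, ‖F q k B α‖ ^ S.card ≤ ∑ α : Fin k → ZMod q,
        ((b : ℝ) ^ GG k S.card + (b : ℝ) ^ (GG k S.card - (K : ℝ)) * ‖F q k B α‖ ^ (2 * K)) := by
      refine Finset.sum_le_sum fun α _ => ?_
      rw [hK]
      refine pow_bd k S.card b hb1 _ (norm_nonneg _) ?_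
      rw [hb]
      exact F_le q k B α
    refine h1.trans ?_
    rw [Finset.sum_add_distrib, ← Finset.mul_sum, Finset.sum_const, Finset.card_univ, nsmul_eq_mul]
    have h2 : ((Fintype.card (Fin k → ZMod q) : ℕ) : ℝ) = (q : ℝ) ^ k := by
      rw [Fintype.card_fun, ZMod.card, Fintype.card_fin]
      push_cast
      rfl
    rw [h2]
    have h3 : (b : ℝ) ^ GG k S.card ≤ (b : ℝ) ^ GG k S.card * (N : ℝ) ^ ε := by
      have : (1 : ℝ) ≤ (N : ℝ) ^ ε := Real.one_le_rpow hN1 hε.le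
      have h0 : 0 ≤ (b : ℝ) ^ GG k S.card := by positivity
      nlinarith
    have h4 : (b : ℝ) ^ (GG k S.card - (K : ℝ)) * (b : ℝ) ^ K = (b : ℝ) ^ GG k S.card := by
      rw [← Real.rpow_natCast (b : ℝ) K, ← Real.rpow_add hbR]; congr 1; ring
    have h5 : (b : ℝ) ^ (GG k S.card - (K : ℝ)) * ∑ α : Fin k → ZMod q, ‖F q k B α‖ ^ (2 * K) ≤
        (b : ℝ) ^ (GG k S.card - (K : ℝ)) * ((q : ℝ) ^ k * (C * (b : ℝ) ^ K * (N : ℝ) ^ ε)) :=
      mul_le_mul_of_nonneg_left hmom (by positivity)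
    have h6 : (b : ℝ) ^ (GG k S.card - (K : ℝ)) * ((q : ℝ) ^ k * (C * (b : ℝ) ^ K * (N : ℝ) ^ ε)) =
        (q : ℝ) ^ k * C * ((b : ℝ) ^ GG k S.card * (N : ℝ) ^ ε) := by
      rw [← h4]; ring
    rw [h6] at h5
    have h7 := mul_le_mul_of_nonneg_left h3 hq0.le
    nlinarith
  have h8 := hmain.trans (mul_le_mul_of_nonneg_left (mul_le_mul_of_nonneg_left hsum
    (by positivity : (0 : ℝ) ≤ (S.card : ℝ))) (by positivity : (0 : ℝ) ≤ (b : ℝ) ^ (d - S.card)))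
  have h9 : (b : ℝ) ^ (d - S.card) * ((S.card : ℝ) *
      ((q : ℝ) ^ k * ((1 + C) * ((b : ℝ) ^ GG k S.card * (N : ℝ) ^ ε)))) =
      (q : ℝ) ^ k * ((b : ℝ) ^ (d - S.card) * ((S.card : ℝ) *
      ((1 + C) * ((b : ℝ) ^ GG k S.card * (N : ℝ) ^ ε)))) := by ring
  rw [h9] at h8
  exact le_of_mul_le_mul_left h8 hq0

end Pool.Agent.Run7.h195.VR
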