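import Pool.Agent.Run7.h195.VR.Four

/-! # Patterns of coincidences -/

set_option autoImplicit false

namespace Pool.Agent.Run7.h195.VR

open Finset

open scoped Classical in
/-- non-diagonal solutions with all variables in `A`. -/
noncomputable def NS (s k : ℕ) (A : Finset ℕ) : Finset ((Fin s → ℕ) × (Fin s → ℕ)) :=
  ((Fintype.piFinset fun _ : Fin s => A) ×ˢ (Fintype.piFinset fun _ : Fin s => A)).filter
    (fun p : (Fin s → ℕ) × (Fin s → ℕ) =>
      (∀ j : Fin k, ∑ i : Fin s, p.1 i ^ (j.val + 1) = ∑ i : Fin s, p.2 i ^ (j.val + 1)) ∧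
      ¬ ∃ σ : Equiv.Perm (Fin s), p.2 = p.1 ∘ σ)

/-- both halves together. -/
def zz {s : ℕ} (p : (Fin s → ℕ) × (Fin s → ℕ)) : Fin s ⊕ Fin s → ℕ := Sum.elim p.1 p.2

/-- the set of values. -/
def sp {s : ℕ} (p : (Fin s → ℕ) × (Fin s → ℕ)) : Finset ℕ := univ.image (zz p)

/-- the weight of a class. -/
def mu {s d : ℕ} (π : Fin s ⊕ Fin s → Fin d) (a : Fin d) : ℤ :=
  ∑ i ∈ univ.filter (fun i => π i = a), sg s i

open scoped Classical in
/-- the patterns. -/
noncomputable def good (s d : ℕ) : Finset (Fin s ⊕ Fin s → Fin d) :=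
  univ.filter fun π => Function.Surjective π ∧ (univ.filter fun a => mu π a ≠ 0).Nonempty

lemma mem_NS {s k : ℕ} {A : Finset ℕ} {p : (Fin s → ℕ) × (Fin s → ℕ)} :
    p ∈ NS s k A ↔ sp p ⊆ A ∧
      (∀ j : Fin k, ∑ i : Fin s, p.1 i ^ (j.val + 1) = ∑ i : Fin s, p.2 i ^ (j.val + 1)) ∧
      ¬ ∃ σ : Equiv.Perm (Fin s), p.2 = p.1 ∘ σ := by
  classical
  unfold NS
  rw [Finset.mem_filter, Finset.mem_product, Fintype.mem_piFinset, Fintype.mem_piFinset]
  have h : ((∀ i, p.1 i ∈ A) ∧ ∀ i, p.2 i ∈ A) ↔ sp p ⊆ A := by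
    unfold sp zz
    rw [Finset.image_subset_iff]
    constructor
    · rintro ⟨h1, h2⟩ i _
      rcases i with i | i
      · exact h1 i
      · exact h2 i
    · intro h
      exact ⟨fun i => h (Sum.inl i) (mem_univ _), fun i => h (Sum.inr i) (mem_univ _)⟩
  rw [h]

lemma cover {s k : ℕ} {B : Finset ℕ} {p : (Fin s → ℕ) × (Fin s → ℕ)} (hp : p ∈ NS s k B) :
    ∃ π ∈ good s (sp p).card, ∃ v ∈ W k B (mu π), zz p = v ∘ π := by
  classical
  obtain ⟨hA, hsys, hnd⟩ := mem_NS.1 hp
  obtain ⟨φ⟩ : Nonempty ({x // x ∈ sp p} ≃ Fin (sp p).card) := ⟨(sp p).equivFin⟩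
  have hz : ∀ i, zz p i ∈ sp p := fun i => Finset.mem_image_of_mem _ (mem_univ i)
  obtain ⟨π, hπ⟩ : ∃ π : Fin s ⊕ Fin s → Fin (sp p).card, π = fun i => φ ⟨zz p i, hz i⟩ := ⟨_, rfl⟩
  obtain ⟨v, hv⟩ : ∃ v : Fin (sp p).card → ℕ, v = fun a => ((φ.symm a : {x // x ∈ sp p}) : ℕ) := ⟨_, rfl⟩
  have hvinj : Function.Injective v := by
    intro a b hab
    rw [hv] at hab
    exact φ.symm.injective (Subtype.ext hab)
  have hzv : zz p = v ∘ π := by
    funext i
    rw [hv, hπ]
    simp
  have hsurj : Function.Surjective π := by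
    intro a
    obtain ⟨i, _, hi⟩ := Finset.mem_image.1 (φ.symm a).2
    refine ⟨i, ?_⟩
    rw [hπ]
    have : (⟨zz p i, hz i⟩ : {x // x ∈ sp p}) = φ.symm a := Subtype.ext hi
    simp only [this, Equiv.apply_symm_apply]
  have hsum : ∀ g : ℕ → ℤ, ∑ a, mu π a * g (v a) = ∑ i, sg s i * g (zz p i) := by
    intro g
    unfold mu
    have h1 : ∀ a, (∑ i ∈ univ.filter (fun i => π i = a), sg s i) * g (v a) =
        ∑ i ∈ univ.filter (fun i => π i = a), sg s i * g (zz p i) := by
      intro a
      rw [Finset.sum_mul]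
      refine Finset.sum_congr rfl fun i hi => ?_
      rw [hzv, Function.comp_apply, (Finset.mem_filter.1 hi).2]
    rw [Finset.sum_congr rfl fun a _ => h1 a]
    exact Finset.sum_fiberwise univ π _
  refine ⟨π, ?_, v, ?_, hzv⟩
  · unfold good
    rw [Finset.mem_filter]
    refine ⟨mem_univ _, hsurj, ?_⟩
    by_contra hne
    rw [Finset.not_nonempty_iff_eq_empty, Finset.filter_eq_empty_iff] at hne
    apply hnd
    have h1 : ∀ w : ℕ, Fintype.card {i // p.2 i = w} = Fintype.card {i // p.1 i = w} := by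
      intro w
      obtain ⟨g, hg⟩ : ∃ g : ℕ → ℤ, g = fun n => if n = w then 1 else 0 := ⟨_, rfl⟩
      have h2 := hsum g
      have h3 : ∑ a, mu π a * g (v a) = 0 := by
        refine Finset.sum_eq_zero fun a _ => ?_
        have := hne (mem_univ a)
        rw [not_not] at this
        rw [this, zero_mul]
      rw [h3, Fintype.sum_sum_type] at h2
      simp only [sg, zz, Sum.elim_inl, Sum.elim_inr, one_mul, neg_mul, Finset.sum_neg_distrib] at h2
      have h4 : ∀ x : Fin s → ℕ, ∑ i, g (x i) = ((Fintype.card {i // x i = w} : ℕ) : ℤ) := by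
        intro x
        rw [hg, Fintype.card_subtype]
        simp
      rw [h4, h4] at h2
      have h5 : ((Fintype.card {i // p.2 i = w} : ℕ) : ℤ) = ((Fintype.card {i // p.1 i = w} : ℕ) : ℤ) := by
        linarith
      exact_mod_cast h5
    refine ⟨Equiv.ofFiberEquiv (f := p.2) (g := p.1) fun w => Fintype.equivOfCardEq (h1 w), ?_⟩
    funext i
    exact (Equiv.ofFiberEquiv_map (f := p.2) (g := p.1) (fun w => Fintype.equivOfCardEq (h1 w)) i).symm
  · unfold W
    rw [Finset.mem_filter, Fintype.mem_piFinset]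
    constructor
    · intro a
      rw [hv]
      exact hA (φ.symm a).2
    · intro j
      rw [hsum (fun n => (n : ℤ) ^ (j.val + 1)), Fintype.sum_sum_type]
      simp only [sg, zz, Sum.elim_inl, Sum.elim_inr, one_mul, neg_mul, Finset.sum_neg_distrib]
      have h := hsys j
      have h' : (∑ i : Fin s, (p.1 i : ℤ) ^ (j.val + 1)) = ∑ i : Fin s, (p.2 i : ℤ) ^ (j.val + 1) := by
        exact_mod_cast h
      rw [h']
      ring

lemma card_d (s k d : ℕ) (B : Finset ℕ) :
    ((NS s k B).filter fun p => (sp p).card = d).card ≤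
      ∑ π ∈ good s d, (W k B (mu π)).card := by
  classical
  have h : ((NS s k B).filter fun p => (sp p).card = d) ⊆
      (good s d).biUnion fun π => (W k B (mu π)).image
        fun v => (fun i => v (π (Sum.inl i)), fun i => v (π (Sum.inr i))) := by
    intro p hp
    rw [Finset.mem_filter] at hp
    obtain ⟨hp1, hp2⟩ := hp
    subst hp2
    obtain ⟨π, hπ, v, hv, hz⟩ := cover hp1
    rw [Finset.mem_biUnion]
    refine ⟨π, hπ, ?_⟩
    rw [Finset.mem_image]
    refine ⟨v, hv, ?_⟩
    refine Prod.ext ?_ ?_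
    · funext i
      have := congrFun hz (Sum.inl i)
      simp only [zz, Sum.elim_inl, Function.comp_apply] at this
      exact this.symm
    · funext i
      have := congrFun hz (Sum.inr i)
      simp only [zz, Sum.elim_inr, Function.comp_apply] at this
      exact this.symm
  refine (Finset.card_le_card h).trans (Finset.card_biUnion_le.trans ?_)
  exact Finset.sum_le_sum fun π _ => Finset.card_image_le

lemma good_card {s d : ℕ} {π : Fin s ⊕ Fin s → Fin d} (hπ : π ∈ good s d) :
    (univ.filter fun a => mu π a ≠ 0).card + 2 * (d - (univ.filter fun a => mu π a ≠ 0).card) ≤ 2 * s ∧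
    1 ≤ (univ.filter fun a => mu π a ≠ 0).card ∧ (univ.filter fun a => mu π a ≠ 0).card ≤ d := by
  classical
  unfold good at hπ
  obtain ⟨-, hs, hne⟩ := Finset.mem_filter.1 hπ
  have hle : (univ.filter fun a => mu π a ≠ 0).card ≤ d := by
    refine (Finset.card_le_univ _).trans ?_
    rw [Fintype.card_fin]
  refine ⟨?_, hne.card_pos, hle⟩
  have h1 : ∑ a, (univ.filter (fun i => π i = a)).card = 2 * s := by
    rw [← Finset.card_eq_sum_card_fiberwise (fun i _ => Finset.mem_coe.2 (mem_univ (π i)))]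
    rw [Finset.card_univ, Fintype.card_sum, Fintype.card_fin]
    ring
  have h2 : ∀ a, (if mu π a ≠ 0 then 1 else 2) ≤ (univ.filter (fun i => π i = a)).card := by
    intro a
    obtain ⟨i, hi⟩ := hs a
    have hpos : 1 ≤ (univ.filter (fun i => π i = a)).card :=
      Finset.card_pos.2 ⟨i, Finset.mem_filter.2 ⟨mem_univ _, hi⟩⟩
    split_ifs with h
    · exact hpos
    · rw [not_not] at h
      by_contra hlt
      have hone : (univ.filter (fun i => π i = a)).card = 1 := by omega
      obtain ⟨b, hb⟩ := Finset.card_eq_one.1 hone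
      unfold mu at h
      rw [hb, Finset.sum_singleton] at h
      unfold sg at h
      rcases b with b | b <;> simp at h
  have h3 := Finset.sum_le_sum fun a (_ : a ∈ (univ : Finset (Fin d))) => h2 a
  rw [h1, Finset.sum_ite, Finset.sum_const, Finset.sum_const, smul_eq_mul, smul_eq_mul] at h3
  have h4 := Finset.card_filter_add_card_filter_not (s := (univ : Finset (Fin d))) (fun a => mu π a ≠ 0)
  rw [Finset.card_univ, Fintype.card_fin] at h4
  omega

end Pool.Agent.Run7.h195.VR
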