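import Pool.Agent.Run7.h195.VR.Conc
import Pool.Agent.Run7.h195.VR.Fin

/-! # No concentration on sparse relations between two variables -/

set_option autoImplicit false

namespace Pool.Agent.Run7.h195.VR

open Finset Pool.Agent.helper132_dc

lemma F_mom (k e q N : ℕ) [NeZero q] (B : Finset ℕ) (C ε : ℝ) (hN : 1 ≤ N) (hε : 0 < ε)
    (hB : B.Nonempty) (he : e ≤ sk k)
    (hmom : ∑ α : Fin k → ZMod q, ‖F q k B α‖ ^ (2 * sk k) ≤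
        (q : ℝ) ^ k * (C * (B.card : ℝ) ^ (sk k) * (N : ℝ) ^ ε)) :
    ∑ α : Fin k → ZMod q, ‖F q k B α‖ ^ (2 * e) ≤
      (q : ℝ) ^ k * ((1 + C) * ((B.card : ℝ) ^ e * (N : ℝ) ^ ε)) := by
  obtain ⟨b, hb⟩ : ∃ b, b = B.card := ⟨_, rfl⟩
  have hb1 : 1 ≤ b := by rw [hb]; exact hB.card_pos
  have hbR : (0 : ℝ) < b := by exact_mod_cast hb1
  have hN1 : (1 : ℝ) ≤ N := by exact_mod_cast hN
  rw [← hb] at hmom ⊢
  have hG : GG k (2 * e) = (e : ℝ) := by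
    unfold GG
    have h1 : (e : ℝ) ≤ sk k := by exact_mod_cast he
    push_cast
    rw [max_eq_left] <;> linarith
  have h1 : ∑ α : Fin k → ZMod q, ‖F q k B α‖ ^ (2 * e) ≤ ∑ α : Fin k → ZMod q,
      ((b : ℝ) ^ (e : ℝ) + (b : ℝ) ^ ((e : ℝ) - (sk k : ℝ)) * ‖F q k B α‖ ^ (2 * sk k)) := by
    refine Finset.sum_le_sum fun α _ => ?_
    rw [← hG]
    refine pow_bd k (2 * e) b hb1 _ (norm_nonneg _) ?_
    rw [hb]
    exact F_le q k B α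
  refine h1.trans ?_
  rw [Finset.sum_add_distrib, ← Finset.mul_sum, Finset.sum_const, Finset.card_univ, nsmul_eq_mul]
  have h2 : ((Fintype.card (Fin k → ZMod q) : ℕ) : ℝ) = (q : ℝ) ^ k := by
    rw [Fintype.card_fun, ZMod.card, Fintype.card_fin]
    push_cast
    rfl
  rw [h2, Real.rpow_natCast]
  have hN2 : (1 : ℝ) ≤ (N : ℝ) ^ ε := Real.one_le_rpow hN1 hε.le
  have h4 : (b : ℝ) ^ ((e : ℝ) - (sk k : ℝ)) * (b : ℝ) ^ (sk k) = (b : ℝ) ^ e := by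
    rw [← Real.rpow_natCast (b : ℝ) (sk k), ← Real.rpow_add hbR, ← Real.rpow_natCast (b : ℝ) e]
    congr 1; ring
  have h5 : (b : ℝ) ^ ((e : ℝ) - (sk k : ℝ)) * ∑ α : Fin k → ZMod q, ‖F q k B α‖ ^ (2 * sk k) ≤
      (b : ℝ) ^ ((e : ℝ) - (sk k : ℝ)) * ((q : ℝ) ^ k * (C * (b : ℝ) ^ (sk k) * (N : ℝ) ^ ε)) :=
    mul_le_mul_of_nonneg_left hmom (by positivity)
  have h6 : (b : ℝ) ^ ((e : ℝ) - (sk k : ℝ)) * ((q : ℝ) ^ k * (C * (b : ℝ) ^ (sk k) * (N : ℝ) ^ ε)) =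
      (q : ℝ) ^ k * C * ((b : ℝ) ^ e * (N : ℝ) ^ ε) := by
    rw [← h4]; ring
  rw [h6] at h5
  have h7 : (q : ℝ) ^ k * (b : ℝ) ^ e ≤ (q : ℝ) ^ k * ((b : ℝ) ^ e * (N : ℝ) ^ ε) := by
    refine mul_le_mul_of_nonneg_left ?_ (by positivity)
    have : 0 ≤ (b : ℝ) ^ e := by positivity
    nlinarith
  nlinarith

/-- the mean value with a relation. -/
theorem rel_mean (k s : ℕ) (hk : 2 ≤ k) (hs : 1 ≤ s) (hsk : s + 2 ≤ sk k) (δ : ℝ) (hδ : 0 < δ) :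
    ∃ C : ℝ, 0 < C ∧ ∀ (q N : ℕ) (_ : NeZero q) (B : Finset ℕ) (P : Finset (ℕ × ℕ)) (c1 c2 : ℤ),
      1 ≤ N → 2 * sk k * N ^ k < q → 4 * N ^ 2 < q → B ⊆ Icc 1 N → B.Nonempty → P ⊆ B ×ˢ B →
      (c1 = 1 ∨ c1 = -1) → (c2 = 1 ∨ c2 = -1) → (c1 = c2 ∨ ∀ p ∈ P, p.1 ≠ p.2) →
      (P.card : ℝ) ≤ (B.card : ℝ) ^ 2 * (N : ℝ) ^ (-δ) →
      ∑ α : Fin k → ZMod q, ‖RR q k P (gp q k c1 c2) α‖ * ‖F q k B α‖ ^ (2 * s - 2) ≤
        (q : ℝ) ^ k * (C * ((B.card : ℝ) ^ s * (N : ℝ) ^ (-(δ / (8 * s))))) := by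
  have hsR : (1 : ℝ) ≤ s := by exact_mod_cast hs
  have hs0 : (0 : ℝ) < s := by linarith
  obtain ⟨ε, hε⟩ : ∃ ε : ℝ, ε = δ / (8 * s) := ⟨_, rfl⟩
  have hε0 : 0 < ε := by rw [hε]; positivity
  obtain ⟨C, hC1, hC⟩ := mom_bound k (by omega) ε hε0
  refine ⟨5 + 2 * C, by linarith, ?_⟩
  intro q N inst B P c1 c2 hN hq1 hq2 hB hBne hP h1 h2 h3 hPc
  have hmom := hC q N inst B hN hq1 hB
  obtain ⟨K, hK⟩ : ∃ K, K = sk k := ⟨_, rfl⟩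
  obtain ⟨r, hr⟩ : ∃ r, r = K / 2 := ⟨_, rfl⟩
  obtain ⟨b, hb⟩ : ∃ b, b = B.card := ⟨_, rfl⟩
  have hb1 : 1 ≤ b := by rw [hb]; exact hBne.card_pos
  have hbR : (0 : ℝ) < b := by exact_mod_cast hb1
  have hN1 : (1 : ℝ) ≤ N := by exact_mod_cast hN
  have hN0 : (0 : ℝ) < N := by linarith
  have hq0 : (0 : ℝ) ≤ (q : ℝ) ^ k := by positivity
  have hm4 := F_mom k (2 * r) q N B C ε hN hε0 hBne (by omega) hmom
  rw [← hK] at hmom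
  rw [← hb] at hmom hm4 hPc ⊢
  -- moments of R
  have hR2 : ∑ α : Fin k → ZMod q, ‖RR q k P (gp q k c1 c2) α‖ ^ 2 ≤
      (q : ℝ) ^ k * (2 * ((b : ℝ) ^ 2 * (N : ℝ) ^ (-δ))) := by
    have h4 := RR_two q k N hk hN hq2 P (by
      intro p hp
      have h5 := Finset.mem_product.1 (hP hp)
      exact ⟨(Finset.mem_Icc.1 (hB h5.1)).2, (Finset.mem_Icc.1 (hB h5.2)).2⟩) c1 c2 h1 h2 h3
    refine h4.trans ?_
    exact mul_le_mul_of_nonneg_left (by linarith) hq0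
  have hRr : ∑ α : Fin k → ZMod q, ‖RR q k P (gp q k c1 c2) α‖ ^ (2 * r) ≤
      (q : ℝ) ^ k * ((1 + C) * ((b : ℝ) ^ (2 * r) * (N : ℝ) ^ ε)) := by
    refine (RR_mono q k r P (B ×ˢ B) hP (gp q k c1 c2)).trans ?_
    refine le_trans (le_of_eq ?_) hm4
    refine Finset.sum_congr rfl fun α _ => ?_
    rw [RR_prod q k B c1 c2 h1 h2 α, ← pow_mul]
  obtain ⟨T, hT⟩ : ∃ T : ℝ, T = (N : ℝ) ^ (δ / (4 * s)) := ⟨_, rfl⟩
  have hT1 : 1 ≤ T := by rw [hT]; exact Real.one_le_rpow hN1 (by positivity)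
  have hT0 : 0 < T := by linarith
  have hTi : T⁻¹ = (N : ℝ) ^ (-(2 * ε)) := by
    rw [hT, ← Real.rpow_neg hN0.le, hε]
    congr 1
    field_simp
    ring
  have hT2 : T ^ (2 * s) = (N : ℝ) ^ (δ / 2) := by
    rw [hT, ← Real.rpow_natCast, ← Real.rpow_mul hN0.le]
    congr 1
    push_cast
    field_simp
    ring
  -- pointwise
  have hpt : ∀ α : Fin k → ZMod q, ‖RR q k P (gp q k c1 c2) α‖ * ‖F q k B α‖ ^ (2 * s - 2) ≤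
      (b : ℝ) ^ s * (T ^ (2 * s) * (‖RR q k P (gp q k c1 c2) α‖ ^ 2 * ((b : ℝ) ^ 2)⁻¹) +
        T⁻¹ * (1 + ‖RR q k P (gp q k c1 c2) α‖ ^ (2 * r) * ((b : ℝ) ^ (2 * r))⁻¹ +
          ‖F q k B α‖ ^ (2 * K) * ((b : ℝ) ^ K)⁻¹)) := by
    intro α
    have h4 := pointwise s r K hs (by omega) (by omega) T (‖RR q k P (gp q k c1 c2) α‖ / b)
      (‖F q k B α‖ ^ 2 / b) hT1 (by positivity) (by positivity)
    have h5 := mul_le_mul_of_nonneg_left h4 (by positivity : (0 : ℝ) ≤ (b : ℝ) ^ s)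
    have e1 : (b : ℝ) ^ s * (‖RR q k P (gp q k c1 c2) α‖ / b * (‖F q k B α‖ ^ 2 / b) ^ (s - 1)) =
        ‖RR q k P (gp q k c1 c2) α‖ * ‖F q k B α‖ ^ (2 * s - 2) := by
      have e2 : (b : ℝ) ^ s = b * (b : ℝ) ^ (s - 1) := by rw [← pow_succ']; congr 1; omega
      have e3 : 2 * s - 2 = 2 * (s - 1) := by omega
      rw [e2, e3, div_pow, ← pow_mul]
      field_simp
    rw [e1] at h5
    refine h5.trans (le_of_eq ?_)
    congr 1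
    rw [div_pow, div_pow, div_pow, ← pow_mul]
    simp only [div_eq_mul_inv]
  refine (Finset.sum_le_sum fun α _ => hpt α).trans ?_
  rw [← Finset.mul_sum, Finset.sum_add_distrib, ← Finset.mul_sum, ← Finset.mul_sum,
    ← Finset.sum_mul, Finset.sum_add_distrib, Finset.sum_add_distrib, ← Finset.sum_mul,
    ← Finset.sum_mul, Finset.sum_const, Finset.card_univ, nsmul_eq_mul, mul_one]
  have h6 : ((Fintype.card (Fin k → ZMod q) : ℕ) : ℝ) = (q : ℝ) ^ k := by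
    rw [Fintype.card_fun, ZMod.card, Fintype.card_fin]
    push_cast
    rfl
  rw [h6]
  have g1 : (∑ α : Fin k → ZMod q, ‖RR q k P (gp q k c1 c2) α‖ ^ 2) * ((b : ℝ) ^ 2)⁻¹ ≤
      (q : ℝ) ^ k * (2 * (N : ℝ) ^ (-δ)) := by
    rw [← div_eq_mul_inv, div_le_iff₀ (by positivity)]
    refine hR2.trans (le_of_eq ?_)
    ring
  have g2 : (∑ α : Fin k → ZMod q, ‖RR q k P (gp q k c1 c2) α‖ ^ (2 * r)) * ((b : ℝ) ^ (2 * r))⁻¹ ≤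
      (q : ℝ) ^ k * ((1 + C) * (N : ℝ) ^ ε) := by
    rw [← div_eq_mul_inv, div_le_iff₀ (by positivity)]
    refine hRr.trans (le_of_eq ?_)
    ring
  have g3 : (∑ α : Fin k → ZMod q, ‖F q k B α‖ ^ (2 * K)) * ((b : ℝ) ^ K)⁻¹ ≤
      (q : ℝ) ^ k * (C * (N : ℝ) ^ ε) := by
    rw [← div_eq_mul_inv, div_le_iff₀ (by positivity)]
    refine hmom.trans (le_of_eq ?_)
    ring
  have g4 : T ^ (2 * s) * ((∑ α : Fin k → ZMod q, ‖RR q k P (gp q k c1 c2) α‖ ^ 2) * ((b : ℝ) ^ 2)⁻¹) ≤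
      (q : ℝ) ^ k * (2 * (N : ℝ) ^ (-ε)) := by
    have g5 := mul_le_mul_of_nonneg_left g1 (by positivity : (0 : ℝ) ≤ T ^ (2 * s))
    refine g5.trans ?_
    rw [hT2]
    have g6 : (N : ℝ) ^ (δ / 2) * (N : ℝ) ^ (-δ) ≤ (N : ℝ) ^ (-ε) := by
      rw [← Real.rpow_add hN0]
      apply Real.rpow_le_rpow_of_exponent_le hN1
      have : ε ≤ δ / 8 := by
        rw [hε, div_le_div_iff₀ (by positivity) (by norm_num)]
        nlinarith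
      linarith
    calc (N : ℝ) ^ (δ / 2) * ((q : ℝ) ^ k * (2 * (N : ℝ) ^ (-δ)))
        = (q : ℝ) ^ k * (2 * ((N : ℝ) ^ (δ / 2) * (N : ℝ) ^ (-δ))) := by ring
      _ ≤ _ := mul_le_mul_of_nonneg_left (by linarith) hq0
  have g7 : (N : ℝ) ^ (-(2 * ε)) * (N : ℝ) ^ ε = (N : ℝ) ^ (-ε) := by
    rw [← Real.rpow_add hN0]; congr 1; ring
  have g8 : (N : ℝ) ^ (-(2 * ε)) ≤ (N : ℝ) ^ (-ε) :=
    Real.rpow_le_rpow_of_exponent_le hN1 (by linarith)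
  have g9 : T⁻¹ * ((q : ℝ) ^ k + (∑ α : Fin k → ZMod q, ‖RR q k P (gp q k c1 c2) α‖ ^ (2 * r)) *
      ((b : ℝ) ^ (2 * r))⁻¹ + (∑ α : Fin k → ZMod q, ‖F q k B α‖ ^ (2 * K)) * ((b : ℝ) ^ K)⁻¹) ≤
      (q : ℝ) ^ k * ((2 + 2 * C) * (N : ℝ) ^ (-ε)) := by
    have g10 : (q : ℝ) ^ k + (∑ α : Fin k → ZMod q, ‖RR q k P (gp q k c1 c2) α‖ ^ (2 * r)) *
      ((b : ℝ) ^ (2 * r))⁻¹ + (∑ α : Fin k → ZMod q, ‖F q k B α‖ ^ (2 * K)) * ((b : ℝ) ^ K)⁻¹ ≤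
        (q : ℝ) ^ k * (1 + (1 + 2 * C) * (N : ℝ) ^ ε) := by
      linarith
    have g11 := mul_le_mul_of_nonneg_left g10 (by positivity : (0 : ℝ) ≤ T⁻¹)
    refine g11.trans ?_
    rw [hTi]
    calc (N : ℝ) ^ (-(2 * ε)) * ((q : ℝ) ^ k * (1 + (1 + 2 * C) * (N : ℝ) ^ ε))
        = (q : ℝ) ^ k * ((N : ℝ) ^ (-(2 * ε)) + (1 + 2 * C) * ((N : ℝ) ^ (-(2 * ε)) * (N : ℝ) ^ ε)) := by ring
      _ ≤ (q : ℝ) ^ k * ((2 + 2 * C) * (N : ℝ) ^ (-ε)) := by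
          rw [g7]
          refine mul_le_mul_of_nonneg_left ?_ hq0
          linarith
  have g12 := add_le_add g4 g9
  have g13 := mul_le_mul_of_nonneg_left g12 (by positivity : (0 : ℝ) ≤ (b : ℝ) ^ s)
  refine g13.trans (le_of_lt ?_)
  have g14 : 0 < (q : ℝ) ^ k := by
    have : 0 < q := Nat.pos_of_ne_zero (NeZero.ne q)
    positivity
  have g15 : 0 < (b : ℝ) ^ s * (N : ℝ) ^ (-ε) := by positivity
  rw [← hε]
  nlinarith [mul_pos g14 g15]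

end Pool.Agent.Run7.h195.VR
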