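import Pool.Agent.Run7.h195.VR.Rel

/-! # Counting the solutions in which two variables are in a sparse relation -/

set_option autoImplicit false

namespace Pool.Agent.Run7.h195.VR

open Finset Pool.Agent.helper132_dc

open scoped Classical in
/-- solutions in which the variables with indices `a`, `b` are in the relation. -/
noncomputable def Rab (s k : ℕ) (B : Finset ℕ) (R : Finset (ℕ × ℕ)) (a b : Fin s ⊕ Fin s) :
    Finset ((Fin s → ℕ) × (Fin s → ℕ)) :=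
  (JS s k B).filter fun p => (zz p a, zz p b) ∈ R ∧ (sg s a = sg s b ∨ zz p a ≠ zz p b)

lemma sg_pm (s : ℕ) (i : Fin s ⊕ Fin s) : sg s i = 1 ∨ sg s i = -1 := by
  rcases i with i | i
  · left; rfl
  · right; rfl

lemma mem_JS {s k : ℕ} {A : Finset ℕ} {p : (Fin s → ℕ) × (Fin s → ℕ)} (hp : p ∈ JS s k A) :
    (∀ i, zz p i ∈ A) ∧ ∀ j : Fin k, ∑ i, sg s i * ((zz p i : ℕ) : ℤ) ^ (j.val + 1) = 0 := by
  classical
  unfold JS at hp
  rw [Finset.mem_filter, Finset.mem_product, Fintype.mem_piFinset, Fintype.mem_piFinset] at hp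
  obtain ⟨⟨h1, h2⟩, h3⟩ := hp
  refine ⟨?_, ?_⟩
  · intro i
    rcases i with i | i
    · exact h1 i
    · exact h2 i
  · intro j
    rw [Fintype.sum_sum_type]
    simp only [sg, zz, Sum.elim_inl, Sum.elim_inr, one_mul, neg_mul, Finset.sum_neg_distrib]
    have h' : (∑ i : Fin s, (p.1 i : ℤ) ^ (j.val + 1)) = ∑ i : Fin s, (p.2 i : ℤ) ^ (j.val + 1) := by
      exact_mod_cast h3 j
    rw [h']
    ring

lemma sum_split {ι : Type*} [Fintype ι] [DecidableEq ι] (a b : ι) (hab : a ≠ b) (g : ι → ℤ) :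
    ∑ i, g i = g a + g b + ∑ i : {i // i ≠ a ∧ i ≠ b}, g i := by
  have h1 : ∑ i : {i // i ≠ a ∧ i ≠ b}, g i = ∑ i ∈ (univ.erase a).erase b, g i := by
    refine (Finset.sum_subtype _ (fun x => ?_) g).symm
    rw [Finset.mem_erase, Finset.mem_erase]
    constructor
    · rintro ⟨h1, h2, -⟩; exact ⟨h2, h1⟩
    · rintro ⟨h1, h2⟩; exact ⟨h2, h1, mem_univ _⟩
  rw [h1, ← Finset.add_sum_erase univ g (mem_univ a),
    ← Finset.add_sum_erase (univ.erase a) g (Finset.mem_erase.2 ⟨hab.symm, mem_univ b⟩)]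
  ring

lemma card_rest (s : ℕ) (a b : Fin s ⊕ Fin s) (hab : a ≠ b) :
    Fintype.card {i : Fin s ⊕ Fin s // i ≠ a ∧ i ≠ b} = 2 * s - 2 := by
  rw [Fintype.card_of_subtype ((univ.erase a).erase b) (by
    intro x
    rw [Finset.mem_erase, Finset.mem_erase]
    constructor
    · rintro ⟨h1, h2, -⟩; exact ⟨h2, h1⟩
    · rintro ⟨h1, h2⟩; exact ⟨h2, h1, mem_univ _⟩)]
  rw [Finset.card_erase_of_mem (Finset.mem_erase.2 ⟨hab.symm, mem_univ b⟩),
    Finset.card_erase_of_mem (mem_univ a), Finset.card_univ, Fintype.card_sum, Fintype.card_fin]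
  omega

lemma Rab_le (s k : ℕ) (B : Finset ℕ) (R : Finset (ℕ × ℕ)) (a b : Fin s ⊕ Fin s) (hab : a ≠ b)
    (P : Finset (ℕ × ℕ))
    (hP : P = R.filter fun p => p.1 ∈ B ∧ p.2 ∈ B ∧ (sg s a = sg s b ∨ p.1 ≠ p.2)) :
    (Rab s k B R a b).card ≤
      ((P ×ˢ (Fintype.piFinset fun _ : {i : Fin s ⊕ Fin s // i ≠ a ∧ i ≠ b} => B)).filter fun t =>
        ∀ j : Fin k, sg s a * ((t.1.1 : ℕ) : ℤ) ^ (j.val + 1) + sg s b * ((t.1.2 : ℕ) : ℤ) ^ (j.val + 1) +
          ∑ i : {i : Fin s ⊕ Fin s // i ≠ a ∧ i ≠ b}, sg s i * ((t.2 i : ℕ) : ℤ) ^ (j.val + 1) = 0).card := by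
  classical
  refine Finset.card_le_card_of_injOn (fun p => ((zz p a, zz p b), fun i => zz p i)) ?_ ?_
  · intro p hp
    rw [Finset.mem_coe] at hp
    unfold Rab at hp
    rw [Finset.mem_filter] at hp
    obtain ⟨h1, h2, h3⟩ := hp
    obtain ⟨h4, h5⟩ := mem_JS h1
    rw [Finset.mem_coe, Finset.mem_filter, Finset.mem_product, Fintype.mem_piFinset]
    refine ⟨⟨?_, fun i => h4 i⟩, ?_⟩
    · rw [hP, Finset.mem_filter]
      exact ⟨h2, h4 a, h4 b, h3⟩
    · intro j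
      have h6 := h5 j
      rw [sum_split a b hab] at h6
      exact h6
  · intro p _ p' _ h
    simp only [Prod.mk.injEq] at h
    obtain ⟨⟨h1, h2⟩, h3⟩ := h
    have h4 : zz p = zz p' := by
      funext i
      by_cases ha : i = a
      · rw [ha]; exact h1
      by_cases hb : i = b
      · rw [hb]; exact h2
      exact congrFun h3 ⟨i, ha, hb⟩
    refine Prod.ext ?_ ?_
    · funext i
      exact congrFun h4 (Sum.inl i)
    · funext i
      exact congrFun h4 (Sum.inr i)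

open scoped Classical in
/-- **no concentration on sparse relations.** -/
theorem rel_main (k s : ℕ) (hk : 2 ≤ k) (hs : 1 ≤ s) (hsk : s + 2 ≤ k * (k + 1) / 2) (δ : ℝ) (hδ : 0 < δ) :
    ∃ C : ℝ, ∀ (N : ℕ) (B : Finset ℕ) (R : Finset (ℕ × ℕ)), 1 ≤ N → B ⊆ Icc 1 N →
      (R.card : ℝ) ≤ (B.card : ℝ) ^ 2 * (N : ℝ) ^ (-δ) →
      (((JS s k B).filter fun p => (∃ i j, p.1 i ≠ p.2 j ∧ (p.1 i, p.2 j) ∈ R) ∨
        (∃ i j, i ≠ j ∧ (p.1 i, p.1 j) ∈ R) ∨ (∃ i j, i ≠ j ∧ (p.2 i, p.2 j) ∈ R)).card : ℝ) ≤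
        C * (B.card : ℝ) ^ s * (N : ℝ) ^ (-(δ / (8 * s))) := by
  obtain ⟨C, hC0, hC⟩ := rel_mean k s hk hs (by unfold sk; exact hsk) δ hδ
  refine ⟨((Fintype.card ((Fin s ⊕ Fin s) × (Fin s ⊕ Fin s)) : ℕ) : ℝ) * C, ?_⟩
  intro N B R hN hB hR
  rcases B.eq_empty_or_nonempty with hB0 | hBne
  · have h1 : ((JS s k B).filter fun p => (∃ i j, p.1 i ≠ p.2 j ∧ (p.1 i, p.2 j) ∈ R) ∨
        (∃ i j, i ≠ j ∧ (p.1 i, p.1 j) ∈ R) ∨ (∃ i j, i ≠ j ∧ (p.2 i, p.2 j) ∈ R)) = ∅ := by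
      rw [Finset.filter_eq_empty_iff]
      intro p hp
      obtain ⟨h2, _⟩ := mem_JS hp
      have := h2 (Sum.inl ⟨0, hs⟩)
      rw [hB0] at this
      exact absurd this (Finset.notMem_empty _)
    rw [h1, Finset.card_empty, Nat.cast_zero]
    positivity
  · obtain ⟨U, hU⟩ : ∃ U : Finset ((Fin s ⊕ Fin s) × (Fin s ⊕ Fin s)),
        U = univ.filter fun t => t.1 ≠ t.2 := ⟨_, rfl⟩
    have hcov : ((JS s k B).filter fun p => (∃ i j, p.1 i ≠ p.2 j ∧ (p.1 i, p.2 j) ∈ R) ∨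
        (∃ i j, i ≠ j ∧ (p.1 i, p.1 j) ∈ R) ∨ (∃ i j, i ≠ j ∧ (p.2 i, p.2 j) ∈ R)) ⊆
        U.biUnion fun t => Rab s k B R t.1 t.2 := by
      intro p hp
      rw [Finset.mem_filter] at hp
      obtain ⟨h1, h2⟩ := hp
      rw [Finset.mem_biUnion]
      rcases h2 with ⟨i, j, h3, h4⟩ | ⟨i, j, h3, h4⟩ | ⟨i, j, h3, h4⟩
      · refine ⟨(Sum.inl i, Sum.inr j), ?_, ?_⟩
        · rw [hU, Finset.mem_filter]
          exact ⟨mem_univ _, by simp⟩
        · unfold Rab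
          rw [Finset.mem_filter]
          exact ⟨h1, h4, Or.inr h3⟩
      · refine ⟨(Sum.inl i, Sum.inl j), ?_, ?_⟩
        · rw [hU, Finset.mem_filter]
          exact ⟨mem_univ _, by simpa using h3⟩
        · unfold Rab
          rw [Finset.mem_filter]
          exact ⟨h1, h4, Or.inl rfl⟩
      · refine ⟨(Sum.inr i, Sum.inr j), ?_, ?_⟩
        · rw [hU, Finset.mem_filter]
          exact ⟨mem_univ _, by simpa using h3⟩
        · unfold Rab
          rw [Finset.mem_filter]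
          exact ⟨h1, h4, Or.inl rfl⟩
    have hone : ∀ t ∈ U, ((Rab s k B R t.1 t.2).card : ℝ) ≤
        C * ((B.card : ℝ) ^ s * (N : ℝ) ^ (-(δ / (8 * s)))) := by
      intro t ht
      rw [hU, Finset.mem_filter] at ht
      have hab := ht.2
      obtain ⟨P, hP⟩ : ∃ P, P = R.filter fun p => p.1 ∈ B ∧ p.2 ∈ B ∧ (sg s t.1 = sg s t.2 ∨ p.1 ≠ p.2) :=
        ⟨_, rfl⟩
      have hle := Rab_le s k B R t.1 t.2 hab P hP
      obtain ⟨q, hqM, hqp⟩ := Nat.exists_infinite_primes (2 * sk k * N ^ k + 4 * N ^ 2 + 1)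
      have hq0 : 0 < q := hqp.pos
      have hNeZ : NeZero q := ⟨hq0.ne'⟩
      have hqk : (0 : ℝ) < (q : ℝ) ^ k := by positivity
      have hPB : P ⊆ B ×ˢ B := by
        intro p hp
        rw [hP, Finset.mem_filter] at hp
        exact Finset.mem_product.2 ⟨hp.2.1, hp.2.2.1⟩
      have hne : sg s t.1 = sg s t.2 ∨ ∀ p ∈ P, p.1 ≠ p.2 := by
        by_cases h : sg s t.1 = sg s t.2
        · exact Or.inl h
        · right
          intro p hp
          rw [hP, Finset.mem_filter] at hp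
          rcases hp.2.2.2 with h' | h'
          · exact absurd h' h
          · exact h'
      have hPc : (P.card : ℝ) ≤ (B.card : ℝ) ^ 2 * (N : ℝ) ^ (-δ) := by
        refine le_trans ?_ hR
        rw [hP]
        exact_mod_cast Finset.card_filter_le _ _
      have h1 := hC q N inferInstance B P (sg s t.1) (sg s t.2) hN (by omega) (by omega) hB hBne hPB
        (sg_pm s _) (sg_pm s _) hne hPc
      have h2 := count_le q k B P (sg s t.1) (sg s t.2)
        (fun i : {i : Fin s ⊕ Fin s // i ≠ t.1 ∧ i ≠ t.2} => sg s i) (fun i => sg_pm s i)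
      rw [card_rest s t.1 t.2 hab] at h2
      have h3 := h2.trans h1
      have h4 := le_of_mul_le_mul_left h3 hqk
      refine le_trans ?_ h4
      exact_mod_cast hle
    have h5 := Finset.card_le_card hcov
    have h6 : ((((JS s k B).filter fun p => (∃ i j, p.1 i ≠ p.2 j ∧ (p.1 i, p.2 j) ∈ R) ∨
        (∃ i j, i ≠ j ∧ (p.1 i, p.1 j) ∈ R) ∨ (∃ i j, i ≠ j ∧ (p.2 i, p.2 j) ∈ R)).card : ℕ) : ℝ) ≤
        ∑ t ∈ U, ((Rab s k B R t.1 t.2).card : ℝ) := by
      exact_mod_cast h5.trans Finset.card_biUnion_le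
    refine h6.trans ((Finset.sum_le_sum hone).trans ?_)
    rw [Finset.sum_const, nsmul_eq_mul]
    have h7 : (U.card : ℝ) ≤ ((Fintype.card ((Fin s ⊕ Fin s) × (Fin s ⊕ Fin s)) : ℕ) : ℝ) := by
      exact_mod_cast Finset.card_le_univ U
    have h8 : 0 ≤ C * ((B.card : ℝ) ^ s * (N : ℝ) ^ (-(δ / (8 * s)))) := by positivity
    refine (mul_le_mul_of_nonneg_right h7 h8).trans (le_of_eq ?_)
    ring

end Pool.Agent.Run7.h195.VR
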