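import Pool.Agent.Run7.h195.VR.Pat
import Pool.Agent.Run7.h195.VR.Mom

/-! # Averages over the subsets with `m` elements of an arbitrary set -/

set_option autoImplicit false

namespace Pool.Agent.Run7.h195.VR

open Finset Pool.Agent.helper132_dc

lemma choose_le (N m : ℕ) (hmN : m ≤ N) :
    ∀ d : ℕ, d ≤ m → (N - d).choose (m - d) * N ^ d ≤ N.choose m * m ^ d := by
  intro d
  induction d with
  | zero => intro _; simp
  | succ d ih =>
    intro hd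
    have ih' := ih (by omega)
    obtain ⟨a, ha⟩ : ∃ a, N - d = a + 1 := ⟨N - d - 1, by omega⟩
    obtain ⟨b, hb⟩ : ∃ b, m - d = b + 1 := ⟨m - d - 1, by omega⟩
    have e1 : N - (d + 1) = a := by omega
    have e2 : m - (d + 1) = b := by omega
    rw [e1, e2]
    rw [ha, hb] at ih'
    have h1 := Nat.add_one_mul_choose_eq a b
    have h2 : (b + 1) * N ≤ m * (a + 1) := by
      rw [← hb, ← ha]
      obtain ⟨c, hc⟩ : ∃ c, N = m + c := ⟨N - m, by omega⟩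
      obtain ⟨g, hg⟩ : ∃ g, m = d + g := ⟨m - d, by omega⟩
      have e3 : m - d = g := by omega
      have e4 : N - d = g + c := by omega
      rw [e3, e4, hc, hg]
      nlinarith [Nat.zero_le (d * c)]
    have h3 : (a + 1) * (a.choose b * N ^ (d + 1)) ≤ (a + 1) * (N.choose m * m ^ (d + 1)) := by
      calc (a + 1) * (a.choose b * N ^ (d + 1)) = ((a + 1) * a.choose b) * N ^ d * N := by ring
        _ = ((a + 1).choose (b + 1) * N ^ d) * ((b + 1) * N) := by rw [h1]; ring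
        _ ≤ (N.choose m * m ^ d) * (m * (a + 1)) := Nat.mul_le_mul ih' h2
        _ = (a + 1) * (N.choose m * m ^ (d + 1)) := by ring
    exact Nat.le_of_mul_le_mul_left h3 (by omega)

lemma card_sup (m : ℕ) (B : Finset ℕ) (hB : B.Nonempty) (hmB : m ≤ B.card) (D : Finset ℕ) (hD : D ⊆ B) :
    (((B.powersetCard m).filter fun A => D ⊆ A).card : ℝ) ≤
      (B.card.choose m : ℝ) * ((m : ℝ) / B.card) ^ D.card := by
  classical
  have hN0 : (0 : ℝ) < B.card := by exact_mod_cast hB.card_pos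
  rcases Nat.lt_or_ge m D.card with h | h
  · have h1 : ((B.powersetCard m).filter fun A => D ⊆ A) = ∅ := by
      rw [Finset.filter_eq_empty_iff]
      intro A hA hDA
      have := Finset.card_le_card hDA
      rw [(Finset.mem_powersetCard.1 hA).2] at this
      omega
    rw [h1, Finset.card_empty, Nat.cast_zero]
    positivity
  · have h1 : ((B.powersetCard m).filter fun A => D ⊆ A).card ≤
        ((B \ D).powersetCard (m - D.card)).card := by
      refine Finset.card_le_card_of_injOn (fun A => A \ D) ?_ ?_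
      · intro A hA
        have hA' := Finset.mem_filter.1 (Finset.mem_coe.1 hA)
        obtain ⟨h2, h3⟩ := Finset.mem_powersetCard.1 hA'.1
        rw [Finset.mem_coe, Finset.mem_powersetCard]
        refine ⟨Finset.sdiff_subset_sdiff h2 (Finset.Subset.refl _), ?_⟩
        rw [Finset.card_sdiff_of_subset hA'.2, h3]
      · intro A hA A' hB' hAB
        have hA' := Finset.mem_filter.1 (Finset.mem_coe.1 hA)
        have hB' := Finset.mem_filter.1 (Finset.mem_coe.1 hB')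
        have hAB' : A \ D = A' \ D := hAB
        rw [← Finset.sdiff_union_of_subset hA'.2, ← Finset.sdiff_union_of_subset hB'.2, hAB']
    rw [Finset.card_powersetCard, Finset.card_sdiff_of_subset hD] at h1
    have h2 := choose_le B.card m hmB D.card h
    have h3 : (((B.card - D.card).choose (m - D.card) : ℕ) : ℝ) * (B.card : ℝ) ^ D.card ≤
        (B.card.choose m : ℝ) * (m : ℝ) ^ D.card := by exact_mod_cast h2
    have h4 : (((B.powersetCard m).filter fun A => D ⊆ A).card : ℝ) ≤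
        (((B.card - D.card).choose (m - D.card) : ℕ) : ℝ) := by exact_mod_cast h1
    refine h4.trans ?_
    rw [div_pow, ← mul_div_assoc, le_div_iff₀ (by positivity)]
    exact h3

lemma NS_sub (s k : ℕ) (A B : Finset ℕ) (hA : A ⊆ B) :
    NS s k A = (NS s k B).filter fun p => sp p ⊆ A := by
  classical
  ext p
  rw [Finset.mem_filter, mem_NS, mem_NS]
  constructor
  · rintro ⟨h1, h2⟩
    exact ⟨⟨h1.trans hA, h2⟩, h1⟩
  · rintro ⟨⟨_, h2⟩, h1⟩
    exact ⟨h1, h2⟩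

/-- double counting. -/
lemma avg (s k m : ℕ) (B : Finset ℕ) (hB : B.Nonempty) (hmB : m ≤ B.card) :
    ∑ A ∈ B.powersetCard m, ((NS s k A).card : ℝ) ≤
      (B.card.choose m : ℝ) * ∑ d ∈ range (2 * s + 1), ∑ π ∈ good s d,
        ((m : ℝ) / B.card) ^ d * ((W k B (mu π)).card : ℝ) := by
  classical
  have h1 : ∀ A ∈ B.powersetCard m, ((NS s k A).card : ℝ) =
      ∑ p ∈ NS s k B, if sp p ⊆ A then (1 : ℝ) else 0 := by
    intro A hA
    rw [NS_sub s k A B (Finset.mem_powersetCard.1 hA).1, Finset.sum_boole]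
  rw [Finset.sum_congr rfl h1, Finset.sum_comm]
  have h2 : ∀ p ∈ NS s k B, (∑ A ∈ B.powersetCard m, if sp p ⊆ A then (1 : ℝ) else 0) ≤
      (B.card.choose m : ℝ) * ((m : ℝ) / B.card) ^ (sp p).card := by
    intro p hp
    rw [Finset.sum_boole]
    exact card_sup m B hB hmB (sp p) (mem_NS.1 hp).1
  refine (Finset.sum_le_sum h2).trans ?_
  rw [← Finset.mul_sum]
  refine mul_le_mul_of_nonneg_left ?_ (by positivity)
  have h3 : ∀ p ∈ NS s k B, (sp p).card ∈ range (2 * s + 1) := by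
    intro p _
    rw [Finset.mem_range]
    have : (sp p).card ≤ 2 * s := by
      unfold sp
      refine Finset.card_image_le.trans ?_
      rw [Finset.card_univ, Fintype.card_sum, Fintype.card_fin]
      omega
    omega
  rw [← Finset.sum_fiberwise_of_maps_to h3]
  refine Finset.sum_le_sum fun d _ => ?_
  have h4 : ∑ p ∈ (NS s k B).filter (fun p => (sp p).card = d), ((m : ℝ) / B.card) ^ (sp p).card =
      ∑ _p ∈ (NS s k B).filter (fun p => (sp p).card = d), ((m : ℝ) / B.card) ^ d := by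
    refine Finset.sum_congr rfl fun p hp => ?_
    rw [(Finset.mem_filter.1 hp).2]
  rw [h4, Finset.sum_const, nsmul_eq_mul, ← Finset.mul_sum, mul_comm]
  refine mul_le_mul_of_nonneg_left ?_ (by positivity)
  have := card_d s k d B
  exact_mod_cast this

lemma term (k s e f m n N : ℕ) (δ : ℝ) (hN : 1 ≤ N) (hn : 1 ≤ n) (hm : 1 ≤ m)
    (hmn : (m : ℝ) ≤ (n : ℝ) * (N : ℝ) ^ (-δ))
    (hms : (m : ℝ) ^ s ≤ (n : ℝ) ^ (sk k) * (N : ℝ) ^ (-δ))
    (he : 1 ≤ e) (hef : e + 2 * f ≤ 2 * s) (hδ0 : 0 < δ) :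
    ((m : ℝ) / n) ^ (e + f) * ((n : ℝ) ^ f * ((n : ℝ) ^ GG k e * (N : ℝ) ^ (δ / 4))) ≤
      (m : ℝ) ^ s * (N : ℝ) ^ (-(δ / 4)) := by
  have hN0 : (0 : ℝ) < N := by exact_mod_cast hN
  have hN1 : (1 : ℝ) ≤ N := by exact_mod_cast hN
  have hn0 : (0 : ℝ) < n := by exact_mod_cast hn
  have hm0 : (0 : ℝ) < m := by exact_mod_cast hm
  have hm1 : (1 : ℝ) ≤ m := by exact_mod_cast hm
  have heR : (1 : ℝ) ≤ e := by exact_mod_cast he
  have hefR : (e : ℝ) + 2 * f ≤ 2 * s := by exact_mod_cast hef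
  have e1 : ((m : ℝ) / n) ^ (e + f) * (n : ℝ) ^ f = (m : ℝ) ^ ((f : ℝ) + e / 2) *
      ((m : ℝ) ^ ((e : ℝ) / 2) * (n : ℝ) ^ (-(e : ℝ))) := by
    rw [← mul_assoc, ← Real.rpow_add hm0, div_pow]
    have e2 : (n : ℝ) ^ (-(e : ℝ)) = ((n : ℝ) ^ e)⁻¹ := by
      rw [Real.rpow_neg hn0.le, Real.rpow_natCast]
    have e3 : (m : ℝ) ^ ((f : ℝ) + e / 2 + (e : ℝ) / 2) = (m : ℝ) ^ (e + f) := by
      rw [← Real.rpow_natCast]
      push_cast
      congr 1
      ring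
    rw [e2, e3, pow_add (n : ℝ) e f]
    field_simp
  have b1 : (m : ℝ) ^ ((f : ℝ) + e / 2) ≤ (m : ℝ) ^ s := by
    rw [← Real.rpow_natCast (m : ℝ) s]
    exact Real.rpow_le_rpow_of_exponent_le hm1 (by linarith)
  have b2 : (m : ℝ) ^ ((e : ℝ) / 2) * (n : ℝ) ^ (-(e : ℝ)) * (n : ℝ) ^ GG k e ≤ (N : ℝ) ^ (-(δ / 2)) := by
    rcases le_total ((e : ℝ) - (sk k : ℝ)) ((e : ℝ) / 2) with h | h
    · have hG : GG k e = (e : ℝ) / 2 := max_eq_left h
      rw [hG, mul_assoc, ← Real.rpow_add hn0]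
      have h1 : (m : ℝ) ^ ((e : ℝ) / 2) ≤ (n : ℝ) ^ ((e : ℝ) / 2) * (N : ℝ) ^ (-δ * ((e : ℝ) / 2)) := by
        rw [Real.rpow_mul hN0.le, ← Real.mul_rpow hn0.le (by positivity)]
        exact Real.rpow_le_rpow hm0.le hmn (by positivity)
      have h2 : (n : ℝ) ^ ((e : ℝ) / 2) * (n : ℝ) ^ (-(e : ℝ) + (e : ℝ) / 2) = 1 := by
        rw [← Real.rpow_add hn0]
        have : (e : ℝ) / 2 + (-(e : ℝ) + (e : ℝ) / 2) = 0 := by ring
        rw [this, Real.rpow_zero]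
      calc (m : ℝ) ^ ((e : ℝ) / 2) * (n : ℝ) ^ (-(e : ℝ) + (e : ℝ) / 2)
          ≤ ((n : ℝ) ^ ((e : ℝ) / 2) * (N : ℝ) ^ (-δ * ((e : ℝ) / 2))) *
            (n : ℝ) ^ (-(e : ℝ) + (e : ℝ) / 2) := mul_le_mul_of_nonneg_right h1 (by positivity)
        _ = (N : ℝ) ^ (-δ * ((e : ℝ) / 2)) * ((n : ℝ) ^ ((e : ℝ) / 2) *
            (n : ℝ) ^ (-(e : ℝ) + (e : ℝ) / 2)) := by ring
        _ = (N : ℝ) ^ (-δ * ((e : ℝ) / 2)) := by rw [h2, mul_one]
        _ ≤ (N : ℝ) ^ (-(δ / 2)) := Real.rpow_le_rpow_of_exponent_le hN1 (by nlinarith)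
    · have hG : GG k e = (e : ℝ) - (sk k : ℝ) := max_eq_right h
      rw [hG, mul_assoc, ← Real.rpow_add hn0]
      have h1 : (m : ℝ) ^ ((e : ℝ) / 2) ≤ (n : ℝ) ^ (sk k) * (N : ℝ) ^ (-δ) := by
        refine le_trans ?_ hms
        rw [← Real.rpow_natCast (m : ℝ) s]
        apply Real.rpow_le_rpow_of_exponent_le hm1
        have : (0 : ℝ) ≤ f := by positivity
        linarith
      have h2 : (n : ℝ) ^ (sk k) * (n : ℝ) ^ (-(e : ℝ) + ((e : ℝ) - (sk k : ℝ))) = 1 := by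
        rw [← Real.rpow_natCast (n : ℝ) (sk k), ← Real.rpow_add hn0]
        have : (sk k : ℝ) + (-(e : ℝ) + ((e : ℝ) - (sk k : ℝ))) = 0 := by ring
        rw [this, Real.rpow_zero]
      calc (m : ℝ) ^ ((e : ℝ) / 2) * (n : ℝ) ^ (-(e : ℝ) + ((e : ℝ) - (sk k : ℝ)))
          ≤ ((n : ℝ) ^ (sk k) * (N : ℝ) ^ (-δ)) *
            (n : ℝ) ^ (-(e : ℝ) + ((e : ℝ) - (sk k : ℝ))) := mul_le_mul_of_nonneg_right h1 (by positivity)
        _ = (N : ℝ) ^ (-δ) * ((n : ℝ) ^ (sk k) *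
            (n : ℝ) ^ (-(e : ℝ) + ((e : ℝ) - (sk k : ℝ)))) := by ring
        _ = (N : ℝ) ^ (-δ) := by rw [h2, mul_one]
        _ ≤ (N : ℝ) ^ (-(δ / 2)) := Real.rpow_le_rpow_of_exponent_le hN1 (by linarith)
  have e4 : ((m : ℝ) / n) ^ (e + f) * ((n : ℝ) ^ f * ((n : ℝ) ^ GG k e * (N : ℝ) ^ (δ / 4))) =
      (m : ℝ) ^ ((f : ℝ) + e / 2) * (((m : ℝ) ^ ((e : ℝ) / 2) * (n : ℝ) ^ (-(e : ℝ)) *
        (n : ℝ) ^ GG k e) * (N : ℝ) ^ (δ / 4)) := by
    rw [← mul_assoc, e1]; ring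
  rw [e4]
  have h5 : (N : ℝ) ^ (-(δ / 2)) * (N : ℝ) ^ (δ / 4) = (N : ℝ) ^ (-(δ / 4)) := by
    rw [← Real.rpow_add hN0]; congr 1; ring
  refine mul_le_mul b1 ?_ (by positivity) (by positivity)
  rw [← h5]
  exact mul_le_mul_of_nonneg_right b2 (by positivity)

/-- **average over the subsets with `m` elements.** -/
theorem main_avg (k s : ℕ) (δ : ℝ) (hk : 1 ≤ k) (hδ0 : 0 < δ) :
    ∃ C : ℝ, 0 < C ∧ ∀ (N m : ℕ) (B : Finset ℕ), 1 ≤ N → B ⊆ Icc 1 N → 1 ≤ m →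
      (m : ℝ) ≤ (B.card : ℝ) * (N : ℝ) ^ (-δ) →
      (m : ℝ) ^ s ≤ (B.card : ℝ) ^ (sk k) * (N : ℝ) ^ (-δ) →
      ∑ A ∈ B.powersetCard m, ((NS s k A).card : ℝ) ≤
        (B.card.choose m : ℝ) * (C * ((m : ℝ) ^ s * (N : ℝ) ^ (-(δ / 4)))) := by
  obtain ⟨C, hC1, hC⟩ := W_bound k hk (δ / 4) (by linarith)
  obtain ⟨L, hL⟩ : ∃ L : ℝ, L = ∑ d ∈ range (2 * s + 1), ∑ _π ∈ good s d, (2 * (s : ℝ) * C) := ⟨_, rfl⟩
  have hL0 : 0 ≤ L := by
    rw [hL]
    exact Finset.sum_nonneg fun d _ => Finset.sum_nonneg fun π _ => by positivity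
  refine ⟨L + 1, by linarith, ?_⟩
  intro N m B hN hB hm hmN hms
  have hN0 : (0 : ℝ) < N := by exact_mod_cast hN
  have hN1 : (1 : ℝ) ≤ N := by exact_mod_cast hN
  have hmR : (1 : ℝ) ≤ m := by exact_mod_cast hm
  have hNd : (N : ℝ) ^ (-δ) ≤ 1 := Real.rpow_le_one_of_one_le_of_nonpos hN1 (by linarith)
  have hmB : m ≤ B.card := by
    have h1 : (B.card : ℝ) * (N : ℝ) ^ (-δ) ≤ (B.card : ℝ) * 1 :=
      mul_le_mul_of_nonneg_left hNd (by positivity)
    rw [mul_one] at h1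
    exact_mod_cast hmN.trans h1
  have hBne : B.Nonempty := Finset.card_pos.1 (by omega)
  refine (avg s k m B hBne hmB).trans (mul_le_mul_of_nonneg_left ?_ (by positivity))
  obtain ⟨n, hn⟩ : ∃ n, n = B.card := ⟨_, rfl⟩
  rw [← hn] at hmB hmN hms ⊢
  have h1 : ∑ d ∈ range (2 * s + 1), ∑ π ∈ good s d, ((m : ℝ) / n) ^ d * ((W k B (mu π)).card : ℝ) ≤
      ∑ d ∈ range (2 * s + 1), ∑ _π ∈ good s d, (2 * (s : ℝ) * C) * ((m : ℝ) ^ s * (N : ℝ) ^ (-(δ / 4))) := by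
    refine Finset.sum_le_sum fun d _ => Finset.sum_le_sum fun π hπ => ?_
    obtain ⟨g1, g2, g3⟩ := good_card hπ
    have hne : (univ.filter fun a => mu π a ≠ 0).Nonempty := Finset.card_pos.1 (by omega)
    have h2 := hC d N B (mu π) hN hB hBne hne
    obtain ⟨e, he⟩ : ∃ e, e = (univ.filter fun a => mu π a ≠ 0).card := ⟨_, rfl⟩
    rw [← he] at g1 g2 g3 h2
    rw [← hn] at h2
    obtain ⟨f, hf⟩ : ∃ f, d = e + f := ⟨d - e, by omega⟩
    have e3 : d - e = f := by omega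
    rw [e3] at g1 h2
    have h3 := term k s e f m n N δ hN (by omega) hm hmN hms g2 g1 hδ0
    have he2 : (e : ℝ) ≤ 2 * s := by
      have : e ≤ 2 * s := by omega
      exact_mod_cast this
    calc ((m : ℝ) / n) ^ d * ((W k B (mu π)).card : ℝ)
        ≤ ((m : ℝ) / n) ^ d * ((n : ℝ) ^ f * ((e : ℝ) * (C * ((n : ℝ) ^ GG k e * (N : ℝ) ^ (δ / 4))))) :=
          mul_le_mul_of_nonneg_left h2 (by positivity)
      _ = (e : ℝ) * C * (((m : ℝ) / n) ^ (e + f) * ((n : ℝ) ^ f * ((n : ℝ) ^ GG k e * (N : ℝ) ^ (δ / 4)))) := by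
          rw [hf]; ring
      _ ≤ (e : ℝ) * C * ((m : ℝ) ^ s * (N : ℝ) ^ (-(δ / 4))) :=
          mul_le_mul_of_nonneg_left h3 (by positivity)
      _ ≤ (2 * (s : ℝ) * C) * ((m : ℝ) ^ s * (N : ℝ) ^ (-(δ / 4))) := by
          refine mul_le_mul_of_nonneg_right ?_ (by positivity)
          exact mul_le_mul_of_nonneg_right he2 (by linarith)
  have h2 : ∑ d ∈ range (2 * s + 1), ∑ _π ∈ good s d, (2 * (s : ℝ) * C) * ((m : ℝ) ^ s * (N : ℝ) ^ (-(δ / 4))) =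
      L * ((m : ℝ) ^ s * (N : ℝ) ^ (-(δ / 4))) := by
    rw [hL, Finset.sum_mul]
    refine Finset.sum_congr rfl fun d _ => ?_
    rw [Finset.sum_mul]
  rw [h2] at h1
  have h3 : 0 ≤ (m : ℝ) ^ s * (N : ℝ) ^ (-(δ / 4)) := by positivity
  nlinarith

end Pool.Agent.Run7.h195.VR
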