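import Pool.Agent.Run7.h195.VR.Conc
import Pool.Agent.W346.PV.Newt

/-! # Tuples of variables: exponential sums over a set of `t`-tuples -/

set_option autoImplicit false

namespace Pool.Agent.Run7.h195.VR

open Finset Pool.Agent.helper132_dc Polynomial

/-- the frequency of a tuple. -/
def gt (q k t : ℕ) (ε : Fin t → ℤ) (c : Fin t → ℕ) (j : Fin k) : ZMod q :=
  ∑ a, (ε a : ZMod q) * ((c a : ℕ) : ZMod q) ^ (j.val + 1)

lemma RR_prod_t (q k t : ℕ) (B : Finset ℕ) [NeZero q] (ε : Fin t → ℤ) (hε : ∀ a, ε a = 1 ∨ ε a = -1)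
    (α : Fin k → ZMod q) :
    ‖RR q k (Fintype.piFinset fun _ : Fin t => B) (gt q k t ε) α‖ = ‖F q k B α‖ ^ t := by
  have h3 : RR q k (Fintype.piFinset fun _ : Fin t => B) (gt q k t ε) α =
      ∏ a, F q k B (fun j => (ε a : ZMod q) * α j) := by
    unfold RR F
    rw [Finset.prod_univ_sum]
    refine Finset.sum_congr rfl fun x _ => ?_
    rw [← char_sum]
    congr 1
    rw [Finset.sum_comm]
    refine Finset.sum_congr rfl fun j _ => ?_
    unfold gt
    rw [Finset.mul_sum]
    refine Finset.sum_congr rfl fun a _ => ?_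
    ring
  rw [h3, norm_prod, Finset.prod_congr rfl fun a _ => F_pm q k B (ε a) (hε a) α, Finset.prod_const,
    Finset.card_univ, Fintype.card_fin]

/-- counting with a relation between `t` variables. -/
lemma count_le_t {ι : Type*} [Fintype ι] [DecidableEq ι] (q k t : ℕ) (B : Finset ℕ) [NeZero q]
    (P : Finset (Fin t → ℕ)) (ε : Fin t → ℤ) (ν : ι → ℤ) (hν : ∀ i, ν i = 1 ∨ ν i = -1) :
    (q : ℝ) ^ k * (((P ×ˢ (Fintype.piFinset fun _ : ι => B)).filter fun w =>
      ∀ j : Fin k, ∑ a, ε a * ((w.1 a : ℕ) : ℤ) ^ (j.val + 1) +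
        ∑ i, ν i * ((w.2 i : ℕ) : ℤ) ^ (j.val + 1) = 0).card : ℝ) ≤
    ∑ α : Fin k → ZMod q, ‖RR q k P (gt q k t ε) α‖ * ‖F q k B α‖ ^ (Fintype.card ι) := by
  obtain ⟨Q, hQ⟩ : ∃ Q, Q = (P ×ˢ (Fintype.piFinset fun _ : ι => B)).filter fun w =>
      ∀ j : Fin k, gt q k t ε w.1 j + ∑ i, ((ν i : ℤ) : ZMod q) * ((w.2 i : ℕ) : ZMod q) ^ (j.val + 1) = 0 :=
    ⟨_, rfl⟩
  have h0 : ((P ×ˢ (Fintype.piFinset fun _ : ι => B)).filter fun w =>
      ∀ j : Fin k, ∑ a, ε a * ((w.1 a : ℕ) : ℤ) ^ (j.val + 1) +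
        ∑ i, ν i * ((w.2 i : ℕ) : ℤ) ^ (j.val + 1) = 0) ⊆ Q := by
    rw [hQ]
    intro w hw
    rw [Finset.mem_filter] at hw ⊢
    refine ⟨hw.1, fun j => ?_⟩
    have h := congrArg (fun z : ℤ => (z : ZMod q)) (hw.2 j)
    push_cast at h
    unfold gt
    exact h
  have h1 : ((((P ×ˢ (Fintype.piFinset fun _ : ι => B)).filter fun w =>
      ∀ j : Fin k, ∑ a, ε a * ((w.1 a : ℕ) : ℤ) ^ (j.val + 1) +
        ∑ i, ν i * ((w.2 i : ℕ) : ℤ) ^ (j.val + 1) = 0).card : ℕ) : ℝ) ≤ (Q.card : ℝ) := by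
    exact_mod_cast Finset.card_le_card h0
  refine (mul_le_mul_of_nonneg_left h1 (by positivity)).trans ?_
  have h2 : ∑ α : Fin k → ZMod q, (RR q k P (gt q k t ε) α *
      ∏ i, F q k B (fun j => ((ν i : ℤ) : ZMod q) * α j)) = (q : ℂ) ^ k * (Q.card : ℂ) := by
    have h3 : ∀ α : Fin k → ZMod q, RR q k P (gt q k t ε) α *
        ∏ i, F q k B (fun j => ((ν i : ℤ) : ZMod q) * α j) =
        ∑ w ∈ P ×ˢ (Fintype.piFinset fun _ : ι => B),
          (ZMod.stdAddChar (∑ j : Fin k, α j * (gt q k t ε w.1 j +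
            ∑ i, ((ν i : ℤ) : ZMod q) * ((w.2 i : ℕ) : ZMod q) ^ (j.val + 1))) : ℂ) := by
      intro α
      unfold RR F
      rw [Finset.prod_univ_sum, Finset.sum_mul_sum, Finset.sum_product]
      refine Finset.sum_congr rfl fun x _ => Finset.sum_congr rfl fun y _ => ?_
      rw [← char_sum, ← AddChar.map_add_eq_mul]
      congr 1
      rw [Finset.sum_comm, ← Finset.sum_add_distrib]
      refine Finset.sum_congr rfl fun j _ => ?_
      rw [mul_add, Finset.mul_sum]
      congr 1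
      refine Finset.sum_congr rfl fun i _ => ?_
      ring
    rw [Finset.sum_congr rfl fun α _ => h3 α, Finset.sum_comm]
    rw [Finset.sum_congr rfl fun v _ => orth q k _]
    rw [← Finset.sum_filter, ← hQ, Finset.sum_const, nsmul_eq_mul, mul_comm]
  have h3 : (q : ℝ) ^ k * (Q.card : ℝ) = ‖∑ α : Fin k → ZMod q, (RR q k P (gt q k t ε) α *
      ∏ i, F q k B (fun j => ((ν i : ℤ) : ZMod q) * α j))‖ := by
    rw [h2, norm_mul, norm_pow, Complex.norm_natCast, Complex.norm_natCast]
  rw [h3]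
  refine (norm_sum_le _ _).trans (le_of_eq ?_)
  refine Finset.sum_congr rfl fun α _ => ?_
  rw [norm_mul, norm_prod, Finset.prod_congr rfl fun i _ => F_pm q k B (ν i) (hν i) α,
    Finset.prod_const, Finset.card_univ]

lemma perm_of_map {t : ℕ} {Z : Type} [DecidableEq Z] (x y : Fin t → Z)
    (h : (univ : Finset (Fin t)).val.map x = (univ : Finset (Fin t)).val.map y) :
    ∃ σ : Equiv.Perm (Fin t), y = x ∘ σ := by
  classical
  have h1 : ∀ w : Z, Fintype.card {i // y i = w} = Fintype.card {i // x i = w} := by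
    intro w
    have h2 : ∀ z : Fin t → Z, Fintype.card {i // z i = w} = Multiset.count w ((univ : Finset (Fin t)).val.map z) := by
      intro z
      rw [Multiset.count_map, Fintype.card_subtype, Finset.card_def, Finset.filter_val]
      congr 1
      exact Multiset.filter_congr fun i _ => eq_comm
    rw [h2, h2, h]
  refine ⟨Equiv.ofFiberEquiv (f := y) (g := x) fun w => Fintype.equivOfCardEq (h1 w), ?_⟩
  funext i
  exact (Equiv.ofFiberEquiv_map (f := y) (g := x) (fun w => Fintype.equivOfCardEq (h1 w)) i).symm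

lemma newton (t k : ℕ) (htk : t ≤ k) (x y : Fin t → ℕ)
    (h : ∀ j : Fin k, ∑ i, ((x i : ℕ) : ℤ) ^ (j.val + 1) = ∑ i, ((y i : ℕ) : ℤ) ^ (j.val + 1)) :
    ∃ σ : Equiv.Perm (Fin t), y = x ∘ σ := by
  have h1 := Pool.Agent.W346.PV.Newt.main t k x y (by
    intro j
    exact_mod_cast h j)
  have e0 : t - k = 0 := by omega
  rw [e0] at h1
  have h2 : (∏ i, ((X : ℤ[X]) - C ((x i : ℕ) : ℤ))) - ∏ i, (X - C ((y i : ℕ) : ℤ)) = 0 := by
    by_contra hne
    have h3 := Polynomial.zero_le_degree_iff.2 hne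
    exact absurd (lt_of_le_of_lt h3 h1) (lt_irrefl _)
  have h3 : (∏ i, ((X : ℤ[X]) - C ((x i : ℕ) : ℤ))) = ∏ i, (X - C ((y i : ℕ) : ℤ)) := sub_eq_zero.1 h2
  have h4 : ∀ z : Fin t → ℤ, (∏ i, ((X : ℤ[X]) - C (z i))).roots = (univ : Finset (Fin t)).val.map z := by
    intro z
    have h5 : (∏ i, ((X : ℤ[X]) - C (z i))) =
        (((univ : Finset (Fin t)).val.map z).map fun a => X - C a).prod := by
      rw [Multiset.map_map]
      rfl
    rw [h5, Polynomial.roots_multiset_prod_X_sub_C]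
  obtain ⟨σ, hσ⟩ := perm_of_map (fun i => ((x i : ℕ) : ℤ)) (fun i => ((y i : ℕ) : ℤ))
    (by rw [← h4, ← h4, h3])
  refine ⟨σ, ?_⟩
  funext i
  have := congrFun hσ i
  simp only [Function.comp_apply] at this ⊢
  exact_mod_cast this

/-- a signed tuple is determined up to permutation. -/
lemma signed (t k : ℕ) (htk : t ≤ k) (ε : Fin t → ℤ) (hε : ∀ a, ε a = 1 ∨ ε a = -1) (c c' : Fin t → ℕ)
    (hc : ∀ a b, ε a ≠ ε b → c a ≠ c b)
    (h : ∀ j : Fin k, ∑ a, ε a * ((c a : ℕ) : ℤ) ^ (j.val + 1) =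
      ∑ a, ε a * ((c' a : ℕ) : ℤ) ^ (j.val + 1)) :
    ∃ τ : Equiv.Perm (Fin t), c' = c ∘ τ := by
  classical
  obtain ⟨x, hx⟩ : ∃ x : Fin t → ℕ, x = fun a => if ε a = 1 then c a else c' a := ⟨_, rfl⟩
  obtain ⟨y, hy⟩ : ∃ y : Fin t → ℕ, y = fun a => if ε a = 1 then c' a else c a := ⟨_, rfl⟩
  have h1 : ∀ j : Fin k, ∑ i, ((x i : ℕ) : ℤ) ^ (j.val + 1) = ∑ i, ((y i : ℕ) : ℤ) ^ (j.val + 1) := by
    intro j
    have h2 := h j
    rw [← sub_eq_zero, ← Finset.sum_sub_distrib] at h2 ⊢
    rw [← h2]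
    refine Finset.sum_congr rfl fun a _ => ?_
    rw [hx, hy]
    rcases hε a with h3 | h3
    · simp only [h3, if_true]; ring
    · have h4 : ¬ ((-1 : ℤ) = 1) := by norm_num
      simp only [h3, if_neg h4]; ring
  obtain ⟨σ, hσ⟩ := newton t k htk x y h1
  have hneg : ∀ a, ε a = -1 → ε (σ a) = -1 := by
    intro a ha
    rcases hε (σ a) with h2 | h2
    · exfalso
      have h3 := congrFun hσ a
      rw [Function.comp_apply, hx, hy] at h3
      have h4 : ¬ ((-1 : ℤ) = 1) := by norm_num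
      simp only [ha, h2, if_neg h4, if_true] at h3
      exact hc a (σ a) (by rw [ha, h2]; norm_num) h3
    · exact h2
  -- the negative indices are mapped onto the negative ones
  have hpos : ∀ a, ε a = 1 → ε (σ a) = 1 := by
    intro a ha
    rcases hε (σ a) with h2 | h2
    · exact h2
    · exfalso
      obtain ⟨S, hS⟩ : ∃ S : Finset (Fin t), S = univ.filter fun b => ε b = -1 := ⟨_, rfl⟩
      have h3 : S.image σ ⊆ S := by
        intro b hb
        obtain ⟨b', hb', rfl⟩ := Finset.mem_image.1 hb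
        rw [hS, Finset.mem_filter] at hb' ⊢
        exact ⟨mem_univ _, hneg b' hb'.2⟩
      have h4 : (S.image σ).card = S.card := Finset.card_image_of_injective _ σ.injective
      have h5 := Finset.eq_of_subset_of_card_le h3 h4.ge
      have h6 : σ a ∈ S.image σ := by
        rw [h5, hS, Finset.mem_filter]
        exact ⟨mem_univ _, h2⟩
      obtain ⟨b, hb, hb2⟩ := Finset.mem_image.1 h6
      have h7 := σ.injective hb2
      rw [hS, Finset.mem_filter] at hb
      rw [h7, ha] at hb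
      exact absurd hb.2 (by norm_num)
  -- build the permutation
  obtain ⟨f, hf⟩ : ∃ f : Fin t → Fin t, f = fun a => if ε a = 1 then σ a else σ.symm a := ⟨_, rfl⟩
  have hnegs : ∀ a, ε a = -1 → ε (σ.symm a) = -1 := by
    intro a ha
    rcases hε (σ.symm a) with h2 | h2
    · exfalso
      have h3 := hpos _ h2
      rw [Equiv.apply_symm_apply, ha] at h3
      exact absurd h3 (by norm_num)
    · exact h2
  have h41 : ¬ ((-1 : ℤ) = 1) := by norm_num
  have hfinj : Function.Injective f := by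
    intro a b hab
    rw [hf] at hab
    rcases hε a with h2 | h2 <;> rcases hε b with h3 | h3
    · simp only [h2, h3, if_true] at hab
      exact σ.injective hab
    · simp only [h2, h3, if_true, if_neg h41] at hab
      exfalso
      have h5 := hpos a h2
      have h6 := hnegs b h3
      rw [hab, h6] at h5
      exact h41 h5
    · simp only [h2, h3, if_true, if_neg h41] at hab
      exfalso
      have h5 := hpos b h3
      have h6 := hnegs a h2
      rw [hab, h5] at h6
      exact h41 h6.symm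
    · simp only [h2, h3, if_neg h41] at hab
      exact σ.symm.injective hab
  have hfbij : Function.Bijective f := Finite.injective_iff_bijective.1 hfinj
  refine ⟨Equiv.ofBijective f hfbij, ?_⟩
  funext a
  rw [Function.comp_apply, Equiv.ofBijective_apply, hf]
  rcases hε a with h2 | h2
  · have h3 := congrFun hσ a
    rw [Function.comp_apply, hx, hy] at h3
    simp only [h2, hpos a h2, if_true] at h3
    simp only [h2, if_true]
    exact h3
  · have h3 := congrFun hσ (σ.symm a)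
    rw [Function.comp_apply, Equiv.apply_symm_apply, hx, hy] at h3
    simp only [h2, hnegs a h2, if_neg h41] at h3
    simp only [h2, if_neg h41]
    exact h3.symm

end Pool.Agent.Run7.h195.VR
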