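import Pool.Agent.Run7.h195.VR.Tup
import Pool.Agent.Run7.h195.VR.Rel2

/-! # No concentration on sparse relations between `t ≤ k` variables -/

set_option autoImplicit false

namespace Pool.Agent.Run7.h195.VR

open Finset Pool.Agent.helper132_dc

/-- the second moment over a set of tuples. -/
lemma RR_two_t (q k t N : ℕ) [NeZero q] (htk : t ≤ k) (hN : 1 ≤ N) (hq : 2 * t * N ^ k < q)
    (P : Finset (Fin t → ℕ)) (hP : ∀ c ∈ P, ∀ a, c a ≤ N) (ε : Fin t → ℤ)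
    (hε : ∀ a, ε a = 1 ∨ ε a = -1) (hne : ∀ c ∈ P, ∀ a b, ε a ≠ ε b → c a ≠ c b) :
    ∑ α : Fin k → ZMod q, ‖RR q k P (gt q k t ε) α‖ ^ 2 ≤
      (q : ℝ) ^ k * ((t.factorial : ℝ) * (P.card : ℝ)) := by
  classical
  have hm := RR_moment q k 1 P (gt q k t ε)
  rw [mul_one] at hm
  rw [hm]
  refine mul_le_mul_of_nonneg_left ?_ (by positivity)
  have key : ∀ c ∈ P, ∀ c' ∈ P, (∀ j : Fin k, gt q k t ε c j = gt q k t ε c' j) →
      ∃ τ : Equiv.Perm (Fin t), c' = c ∘ τ := by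
    intro c hc c' hc' h
    refine signed t k htk ε hε c c' (hne c hc) ?_
    intro j
    have hj := h j
    unfold gt at hj
    have e1 : (((∑ a, ε a * ((c a : ℕ) : ℤ) ^ (j.val + 1)) -
        (∑ a, ε a * ((c' a : ℕ) : ℤ) ^ (j.val + 1)) : ℤ) : ZMod q) = 0 := by
      push_cast
      rw [sub_eq_zero]
      exact hj
    rw [ZMod.intCast_zmod_eq_zero_iff_dvd] at e1
    have e2 : ∀ d ∈ P, |∑ a, ε a * ((d a : ℕ) : ℤ) ^ (j.val + 1)| ≤ t * (N : ℤ) ^ k := by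
      intro d hd
      refine (Finset.abs_sum_le_sum_abs _ _).trans ?_
      have e3 : ∀ a ∈ (univ : Finset (Fin t)), |ε a * ((d a : ℕ) : ℤ) ^ (j.val + 1)| ≤ (N : ℤ) ^ k := by
        intro a _
        rw [abs_mul]
        have e4 : |ε a| = 1 := by
          rcases hε a with h | h <;> rw [h] <;> simp
        rw [e4, one_mul, abs_of_nonneg (by positivity)]
        have e5 : d a ^ (j.val + 1) ≤ N ^ (j.val + 1) := Nat.pow_le_pow_left (hP d hd a) _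
        have e6 : N ^ (j.val + 1) ≤ N ^ k := Nat.pow_le_pow_right hN (by have := j.isLt; omega)
        exact_mod_cast e5.trans e6
      refine (Finset.sum_le_sum e3).trans ?_
      rw [Finset.sum_const, Finset.card_univ, Fintype.card_fin, nsmul_eq_mul]
    have e7 := Int.eq_zero_of_abs_lt_dvd e1 (by
      have h8 := e2 c hc
      have h9 := e2 c' hc'
      have h10 : ((2 * t * N ^ k : ℕ) : ℤ) < q := by exact_mod_cast hq
      push_cast at h10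
      have h11 := abs_sub (∑ a, ε a * ((c a : ℕ) : ℤ) ^ (j.val + 1))
        (∑ a, ε a * ((c' a : ℕ) : ℤ) ^ (j.val + 1))
      linarith)
    linarith
  have hcard : ((Fintype.piFinset fun _ : Fin 1 ⊕ Fin 1 => P).filter fun w =>
        ∀ j : Fin k, ∑ i, ((sg 1 i : ℤ) : ZMod q) * gt q k t ε (w i) j = 0).card ≤
      (P ×ˢ (univ : Finset (Equiv.Perm (Fin t)))).card := by
    refine Finset.card_le_card_of_surjOn (fun u => fun i => Sum.elim (fun _ => u.1)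
      (fun _ => u.1 ∘ u.2) i) ?_
    intro w hw
    rw [Finset.mem_coe, Finset.mem_filter, Fintype.mem_piFinset] at hw
    obtain ⟨hw1, hw2⟩ := hw
    have h3 : ∀ j : Fin k, gt q k t ε (w (Sum.inl 0)) j = gt q k t ε (w (Sum.inr 0)) j := by
      intro j
      have := hw2 j
      rw [Fintype.sum_sum_type] at this
      simp only [Finset.univ_unique, Finset.sum_singleton, sg, Sum.elim_inl, Sum.elim_inr] at this
      push_cast at this
      have h4 : gt q k t ε (w (Sum.inl default)) j = gt q k t ε (w (Sum.inr default)) j := by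
        linear_combination this
      exact h4
    rw [Set.mem_image]
    obtain ⟨τ, hτ⟩ := key _ (hw1 (Sum.inl 0)) _ (hw1 (Sum.inr 0)) h3
    refine ⟨(w (Sum.inl 0), τ), ?_, ?_⟩
    · rw [Finset.mem_coe, Finset.mem_product]
      exact ⟨hw1 _, mem_univ _⟩
    · funext i
      rcases i with i | i
      · have : i = 0 := Subsingleton.elim _ _
        rw [this]; rfl
      · have : i = 0 := Subsingleton.elim _ _
        rw [this]
        exact hτ.symm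
  rw [Finset.card_product, Finset.card_univ, Fintype.card_perm, Fintype.card_fin] at hcard
  have h5 : ((((Fintype.piFinset fun _ : Fin 1 ⊕ Fin 1 => P).filter fun w =>
        ∀ j : Fin k, ∑ i, ((sg 1 i : ℤ) : ZMod q) * gt q k t ε (w i) j = 0).card : ℕ) : ℝ) ≤
      ((P.card * t.factorial : ℕ) : ℝ) := by exact_mod_cast hcard
  refine h5.trans (le_of_eq ?_)
  push_cast
  ring

/-- the pointwise inequality. -/
lemma pointwise_t (s t r K : ℕ) (ht : 1 ≤ t) (hts : t ≤ 2 * s) (hsr : s < r * t) (hsK : s < K)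
    (T g b : ℝ) (hT : 1 ≤ T) (hg : 0 ≤ g) (hb : 0 ≤ b) :
    g ^ t * b ^ (2 * s - t) ≤ T ^ (4 * s) * (g ^ t) ^ 2 + T⁻¹ * (1 + (g ^ t) ^ (2 * r) + b ^ (2 * K)) := by
  have hT0 : 0 < T := by linarith
  have hTi : 0 < T⁻¹ := by positivity
  obtain ⟨a, ha⟩ : ∃ a, a = g ^ t := ⟨_, rfl⟩
  have ha0 : 0 ≤ a := by rw [ha]; positivity
  have ham : (g ^ t) ^ (2 * r) = g ^ (2 * (r * t)) := by rw [← pow_mul]; congr 1; ring
  have hlow : 0 ≤ T ^ (4 * s) * (g ^ t) ^ 2 := by positivity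
  have p1 : 0 ≤ (g ^ t) ^ (2 * r) := by positivity
  have p2 : 0 ≤ b ^ (2 * K) := by positivity
  have hbig : ∀ (z : ℝ) (M : ℕ), T ≤ z → 2 * s < M → z ^ (2 * s) ≤ T⁻¹ * z ^ M := by
    intro z M hz hM
    have hz1 : 1 ≤ z := hT.trans hz
    have h3 : z ^ M = z ^ (2 * s) * z ^ (M - 2 * s) := by rw [← pow_add]; congr 1; omega
    have h4 : T ≤ z ^ (M - 2 * s) := by
      calc T ≤ z := hz
        _ = z ^ 1 := (pow_one z).symm
        _ ≤ z ^ (M - 2 * s) := pow_le_pow_right₀ hz1 (by omega)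
    rw [h3, ← mul_assoc, mul_comm T⁻¹, mul_assoc]
    have h5 : 1 ≤ T⁻¹ * z ^ (M - 2 * s) := by
      rw [← inv_mul_cancel₀ hT0.ne']
      exact mul_le_mul_of_nonneg_left h4 hTi.le
    have h6 : 0 ≤ z ^ (2 * s) := by positivity
    nlinarith
  have hprod : ∀ z : ℝ, g ≤ z → b ≤ z → 0 ≤ z → g ^ t * b ^ (2 * s - t) ≤ z ^ (2 * s) := by
    intro z hgz hbz hz
    have h1 : z ^ (2 * s) = z ^ t * z ^ (2 * s - t) := by rw [← pow_add]; congr 1; omega
    rw [h1]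
    exact mul_le_mul (pow_le_pow_left₀ hg hgz _) (pow_le_pow_left₀ hb hbz _) (by positivity) (by positivity)
  rcases le_total T (max g b) with hm | hm
  · rcases le_total g b with hgb | hgb
    · rw [max_eq_right hgb] at hm
      have e1 := hprod b hgb le_rfl hb
      have e2 := hbig b (2 * K) hm (by omega)
      have e3 : T⁻¹ * b ^ (2 * K) ≤ T⁻¹ * (1 + (g ^ t) ^ (2 * r) + b ^ (2 * K)) :=
        mul_le_mul_of_nonneg_left (by linarith) hTi.le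
      linarith
    · rw [max_eq_left hgb] at hm
      have e1 := hprod g le_rfl hgb hg
      have e2 := hbig g (2 * (r * t)) hm (by omega)
      rw [← ham] at e2
      have e3 : T⁻¹ * (g ^ t) ^ (2 * r) ≤ T⁻¹ * (1 + (g ^ t) ^ (2 * r) + b ^ (2 * K)) :=
        mul_le_mul_of_nonneg_left (by linarith) hTi.le
      linarith
  · have hbT : b ≤ T := (le_max_right _ _).trans hm
    have e1 : b ^ (2 * s - t) ≤ T ^ (2 * s - t) := pow_le_pow_left₀ hb hbT _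
    rw [← ha]
    have e2 : a * b ^ (2 * s - t) ≤ a * T ^ (2 * s - t) := mul_le_mul_of_nonneg_left e1 ha0
    rcases le_total (T⁻¹ ^ (2 * s)) a with h | h
    · have e4 : 1 ≤ a * T ^ (2 * s) := by
        have h5 : T⁻¹ ^ (2 * s) * T ^ (2 * s) = 1 := by
          rw [← mul_pow, inv_mul_cancel₀ hT0.ne', one_pow]
        rw [← h5]
        exact mul_le_mul_of_nonneg_right h (by positivity)
      have h6 : T ^ (2 * s - t) ≤ T ^ (2 * s) := pow_le_pow_right₀ hT (by omega)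
      have h7 : T ^ (4 * s) = T ^ (2 * s) * T ^ (2 * s) := by rw [← pow_add]; congr 1; omega
      have h8 : 0 ≤ a * T ^ (2 * s) := by positivity
      have e5 : a * T ^ (2 * s - t) ≤ T ^ (4 * s) * a ^ 2 := by
        calc a * T ^ (2 * s - t) ≤ a * T ^ (2 * s) := mul_le_mul_of_nonneg_left h6 ha0
          _ = (a * T ^ (2 * s)) * 1 := (mul_one _).symm
          _ ≤ (a * T ^ (2 * s)) * (a * T ^ (2 * s)) := mul_le_mul_of_nonneg_left e4 h8
          _ = T ^ (4 * s) * a ^ 2 := by rw [h7]; ring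
      have e6 : 0 ≤ T⁻¹ * (1 + a ^ (2 * r) + b ^ (2 * K)) := by positivity
      linarith
    · have e4 : a * T ^ (2 * s - t) ≤ T⁻¹ := by
        have h9 : T ^ (2 * s - t) ≤ T ^ (2 * s - 1) := pow_le_pow_right₀ hT (by omega)
        calc a * T ^ (2 * s - t) ≤ T⁻¹ ^ (2 * s) * T ^ (2 * s - 1) :=
              mul_le_mul h h9 (by positivity) (by positivity)
          _ = T⁻¹ := by
              have h6 : T⁻¹ ^ (2 * s) = T⁻¹ * T⁻¹ ^ (2 * s - 1) := by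
                rw [← pow_succ']; congr 1; omega
              rw [h6, mul_assoc, ← mul_pow, inv_mul_cancel₀ hT0.ne', one_pow, mul_one]
      have e5 : 0 ≤ T ^ (4 * s) * a ^ 2 := by positivity
      have e6 : T⁻¹ * 1 ≤ T⁻¹ * (1 + a ^ (2 * r) + b ^ (2 * K)) := by
        refine mul_le_mul_of_nonneg_left ?_ hTi.le
        have : 0 ≤ a ^ (2 * r) := by positivity
        linarith
      linarith

/-- the mean value with a relation. -/
theorem rel_mean_t (k s t : ℕ) (ht : 1 ≤ t) (htk : t ≤ k) (hts : t ≤ 2 * s) (hs : 1 ≤ s)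
    (hsk : s < t * (sk k / t)) (δ : ℝ) (hδ : 0 < δ) :
    ∃ C : ℝ, 0 < C ∧ ∀ (q N : ℕ) (_ : NeZero q) (B : Finset ℕ) (P : Finset (Fin t → ℕ)) (ε : Fin t → ℤ),
      1 ≤ N → 2 * sk k * N ^ k < q → 2 * t * N ^ k < q → B ⊆ Icc 1 N → B.Nonempty →
      P ⊆ (Fintype.piFinset fun _ : Fin t => B) →
      (∀ a, ε a = 1 ∨ ε a = -1) → (∀ c ∈ P, ∀ a b, ε a ≠ ε b → c a ≠ c b) →
      (P.card : ℝ) ≤ (B.card : ℝ) ^ t * (N : ℝ) ^ (-δ) →
      ∑ α : Fin k → ZMod q, ‖RR q k P (gt q k t ε) α‖ * ‖F q k B α‖ ^ (2 * s - t) ≤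
        (q : ℝ) ^ k * (C * ((B.card : ℝ) ^ s * (N : ℝ) ^ (-(δ / (16 * s))))) := by
  have hsR : (1 : ℝ) ≤ s := by exact_mod_cast hs
  have hs0 : (0 : ℝ) < s := by linarith
  obtain ⟨η, hη⟩ : ∃ η : ℝ, η = δ / (16 * s) := ⟨_, rfl⟩
  have hη0 : 0 < η := by rw [hη]; positivity
  obtain ⟨C, hC1, hC⟩ := mom_bound k (by omega) η hη0
  have htf : (0 : ℝ) < (t.factorial : ℝ) := by exact_mod_cast Nat.factorial_pos t
  refine ⟨(t.factorial : ℝ) + 3 + 2 * C, by linarith, ?_⟩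
  intro q N inst B P ε hN hq1 hq2 hB hBne hP h1 h3 hPc
  have hmom := hC q N inst B hN hq1 hB
  obtain ⟨K, hK⟩ : ∃ K, K = sk k := ⟨_, rfl⟩
  obtain ⟨r, hr⟩ : ∃ r, r = K / t := ⟨_, rfl⟩
  have hrt : r * t ≤ K := by rw [hr]; exact Nat.div_mul_le_self K t
  have hrt2 : s < r * t := by
    rw [hr, hK, mul_comm]
    exact hsk
  obtain ⟨b, hb⟩ : ∃ b, b = B.card := ⟨_, rfl⟩
  have hb1 : 1 ≤ b := by rw [hb]; exact hBne.card_pos
  have hbR : (0 : ℝ) < b := by exact_mod_cast hb1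
  have hN1 : (1 : ℝ) ≤ N := by exact_mod_cast hN
  have hN0 : (0 : ℝ) < N := by linarith
  have hq0 : (0 : ℝ) ≤ (q : ℝ) ^ k := by positivity
  have hm4 := F_mom k (r * t) q N B C η hN hη0 hBne (by omega) hmom
  rw [← hK] at hmom
  rw [← hb] at hmom hm4 hPc ⊢
  -- moments of R
  have hR2 : ∑ α : Fin k → ZMod q, ‖RR q k P (gt q k t ε) α‖ ^ 2 ≤
      (q : ℝ) ^ k * ((t.factorial : ℝ) * ((b : ℝ) ^ t * (N : ℝ) ^ (-δ))) := by
    have h4 := RR_two_t q k t N htk hN hq2 P (by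
      intro c hc a
      have h5 := Fintype.mem_piFinset.1 (hP hc) a
      exact (Finset.mem_Icc.1 (hB h5)).2) ε h1 h3
    refine h4.trans ?_
    exact mul_le_mul_of_nonneg_left (mul_le_mul_of_nonneg_left hPc htf.le) hq0
  have hRr : ∑ α : Fin k → ZMod q, ‖RR q k P (gt q k t ε) α‖ ^ (2 * r) ≤
      (q : ℝ) ^ k * ((1 + C) * ((b : ℝ) ^ (r * t) * (N : ℝ) ^ η)) := by
    refine (RR_mono q k r P _ hP (gt q k t ε)).trans ?_
    refine le_trans (le_of_eq ?_) hm4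
    refine Finset.sum_congr rfl fun α _ => ?_
    rw [RR_prod_t q k t B ε h1 α, ← pow_mul]
    congr 1
    ring
  obtain ⟨T, hT⟩ : ∃ T : ℝ, T = (N : ℝ) ^ (δ / (8 * s)) := ⟨_, rfl⟩
  have hT1 : 1 ≤ T := by rw [hT]; exact Real.one_le_rpow hN1 (by positivity)
  have hT0 : 0 < T := by linarith
  have hTi : T⁻¹ = (N : ℝ) ^ (-(2 * η)) := by
    rw [hT, ← Real.rpow_neg hN0.le, hη]
    congr 1
    field_simp
    ring
  have hT2 : T ^ (4 * s) = (N : ℝ) ^ (δ / 2) := by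
    rw [hT, ← Real.rpow_natCast, ← Real.rpow_mul hN0.le]
    congr 1
    push_cast
    field_simp
    ring
  obtain ⟨w, hw⟩ : ∃ w : ℝ, w = Real.sqrt b := ⟨_, rfl⟩
  have hw0 : 0 < w := by rw [hw]; exact Real.sqrt_pos.2 hbR
  have hw2 : w ^ 2 = b := by rw [hw]; exact Real.sq_sqrt hbR.le
  -- pointwise
  have hpt : ∀ α : Fin k → ZMod q, ‖RR q k P (gt q k t ε) α‖ * ‖F q k B α‖ ^ (2 * s - t) ≤
      (b : ℝ) ^ s * (T ^ (4 * s) * (‖RR q k P (gt q k t ε) α‖ ^ 2 * ((b : ℝ) ^ t)⁻¹) +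
        T⁻¹ * (1 + ‖RR q k P (gt q k t ε) α‖ ^ (2 * r) * ((b : ℝ) ^ (r * t))⁻¹ +
          ‖F q k B α‖ ^ (2 * K) * ((b : ℝ) ^ K)⁻¹)) := by
    intro α
    obtain ⟨ρ, hρ⟩ : ∃ ρ, ρ = ‖RR q k P (gt q k t ε) α‖ := ⟨_, rfl⟩
    obtain ⟨φ, hφ⟩ : ∃ φ, φ = ‖F q k B α‖ := ⟨_, rfl⟩
    have hρ0 : 0 ≤ ρ := by rw [hρ]; positivity
    have hφ0 : 0 ≤ φ := by rw [hφ]; positivity
    rw [← hρ, ← hφ]
    obtain ⟨g, hg⟩ : ∃ g : ℝ, g = (ρ / w ^ t) ^ ((1 : ℝ) / t) := ⟨_, rfl⟩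
    have hg0 : 0 ≤ g := by rw [hg]; positivity
    have hgt : g ^ t = ρ / w ^ t := by
      rw [hg, one_div, Real.rpow_inv_natCast_pow (by positivity) (by omega)]
    have h4 := pointwise_t s t r K ht hts hrt2 (by omega) T g (φ / w) hT1 hg0 (by positivity)
    rw [hgt] at h4
    have h5 := mul_le_mul_of_nonneg_left h4 (by positivity : (0 : ℝ) ≤ (b : ℝ) ^ s)
    have e1 : (b : ℝ) ^ s * (ρ / w ^ t * (φ / w) ^ (2 * s - t)) = ρ * φ ^ (2 * s - t) := by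
      have e2 : (b : ℝ) ^ s = w ^ t * w ^ (2 * s - t) := by
        rw [← hw2, ← pow_mul, ← pow_add]; congr 1; omega
      rw [e2, div_pow]
      field_simp
    rw [e1] at h5
    refine h5.trans (le_of_eq ?_)
    have e3 : (ρ / w ^ t) ^ 2 = ρ ^ 2 * ((b : ℝ) ^ t)⁻¹ := by
      rw [div_pow, ← pow_mul, mul_comm t 2, pow_mul, hw2, div_eq_mul_inv]
    have e4 : (ρ / w ^ t) ^ (2 * r) = ρ ^ (2 * r) * ((b : ℝ) ^ (r * t))⁻¹ := by
      rw [div_pow, ← pow_mul, div_eq_mul_inv]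
      have e5 : t * (2 * r) = 2 * (r * t) := by ring
      rw [e5, pow_mul w 2, hw2]
    have e6 : (φ / w) ^ (2 * K) = φ ^ (2 * K) * ((b : ℝ) ^ K)⁻¹ := by
      rw [div_pow, div_eq_mul_inv, pow_mul w 2, hw2]
    rw [e3, e4, e6]
  refine (Finset.sum_le_sum fun α _ => hpt α).trans ?_
  rw [← Finset.mul_sum, Finset.sum_add_distrib, ← Finset.mul_sum, ← Finset.mul_sum,
    ← Finset.sum_mul, Finset.sum_add_distrib, Finset.sum_add_distrib, ← Finset.sum_mul,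
    ← Finset.sum_mul, Finset.sum_const, Finset.card_univ, nsmul_eq_mul, mul_one]
  have h6 : ((Fintype.card (Fin k → ZMod q) : ℕ) : ℝ) = (q : ℝ) ^ k := by
    rw [Fintype.card_fun, ZMod.card, Fintype.card_fin]
    push_cast
    rfl
  rw [h6]
  have g1 : (∑ α : Fin k → ZMod q, ‖RR q k P (gt q k t ε) α‖ ^ 2) * ((b : ℝ) ^ t)⁻¹ ≤
      (q : ℝ) ^ k * ((t.factorial : ℝ) * (N : ℝ) ^ (-δ)) := by
    rw [← div_eq_mul_inv, div_le_iff₀ (by positivity)]
    refine hR2.trans (le_of_eq ?_)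
    ring
  have g2 : (∑ α : Fin k → ZMod q, ‖RR q k P (gt q k t ε) α‖ ^ (2 * r)) * ((b : ℝ) ^ (r * t))⁻¹ ≤
      (q : ℝ) ^ k * ((1 + C) * (N : ℝ) ^ η) := by
    rw [← div_eq_mul_inv, div_le_iff₀ (by positivity)]
    refine hRr.trans (le_of_eq ?_)
    ring
  have g3 : (∑ α : Fin k → ZMod q, ‖F q k B α‖ ^ (2 * K)) * ((b : ℝ) ^ K)⁻¹ ≤
      (q : ℝ) ^ k * (C * (N : ℝ) ^ η) := by
    rw [← div_eq_mul_inv, div_le_iff₀ (by positivity)]
    refine hmom.trans (le_of_eq ?_)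
    ring
  have g4 : T ^ (4 * s) * ((∑ α : Fin k → ZMod q, ‖RR q k P (gt q k t ε) α‖ ^ 2) * ((b : ℝ) ^ t)⁻¹) ≤
      (q : ℝ) ^ k * ((t.factorial : ℝ) * (N : ℝ) ^ (-η)) := by
    have g5 := mul_le_mul_of_nonneg_left g1 (by positivity : (0 : ℝ) ≤ T ^ (4 * s))
    refine g5.trans ?_
    rw [hT2]
    have g6 : (N : ℝ) ^ (δ / 2) * (N : ℝ) ^ (-δ) ≤ (N : ℝ) ^ (-η) := by
      rw [← Real.rpow_add hN0]
      apply Real.rpow_le_rpow_of_exponent_le hN1
      have : η ≤ δ / 16 := by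
        rw [hη, div_le_div_iff₀ (by positivity) (by norm_num)]
        nlinarith
      linarith
    calc (N : ℝ) ^ (δ / 2) * ((q : ℝ) ^ k * ((t.factorial : ℝ) * (N : ℝ) ^ (-δ)))
        = (q : ℝ) ^ k * ((t.factorial : ℝ) * ((N : ℝ) ^ (δ / 2) * (N : ℝ) ^ (-δ))) := by ring
      _ ≤ _ := mul_le_mul_of_nonneg_left (mul_le_mul_of_nonneg_left g6 htf.le) hq0
  have g7 : (N : ℝ) ^ (-(2 * η)) * (N : ℝ) ^ η = (N : ℝ) ^ (-η) := by
    rw [← Real.rpow_add hN0]; congr 1; ring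
  have g8 : (N : ℝ) ^ (-(2 * η)) ≤ (N : ℝ) ^ (-η) :=
    Real.rpow_le_rpow_of_exponent_le hN1 (by linarith)
  have g9 : T⁻¹ * ((q : ℝ) ^ k + (∑ α : Fin k → ZMod q, ‖RR q k P (gt q k t ε) α‖ ^ (2 * r)) *
      ((b : ℝ) ^ (r * t))⁻¹ + (∑ α : Fin k → ZMod q, ‖F q k B α‖ ^ (2 * K)) * ((b : ℝ) ^ K)⁻¹) ≤
      (q : ℝ) ^ k * ((2 + 2 * C) * (N : ℝ) ^ (-η)) := by
    have g10 : (q : ℝ) ^ k + (∑ α : Fin k → ZMod q, ‖RR q k P (gt q k t ε) α‖ ^ (2 * r)) *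
      ((b : ℝ) ^ (r * t))⁻¹ + (∑ α : Fin k → ZMod q, ‖F q k B α‖ ^ (2 * K)) * ((b : ℝ) ^ K)⁻¹ ≤
        (q : ℝ) ^ k * (1 + (1 + 2 * C) * (N : ℝ) ^ η) := by
      linarith
    have g11 := mul_le_mul_of_nonneg_left g10 (by positivity : (0 : ℝ) ≤ T⁻¹)
    refine g11.trans ?_
    rw [hTi]
    calc (N : ℝ) ^ (-(2 * η)) * ((q : ℝ) ^ k * (1 + (1 + 2 * C) * (N : ℝ) ^ η))
        = (q : ℝ) ^ k * ((N : ℝ) ^ (-(2 * η)) + (1 + 2 * C) * ((N : ℝ) ^ (-(2 * η)) * (N : ℝ) ^ η)) := by ring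
      _ ≤ (q : ℝ) ^ k * ((2 + 2 * C) * (N : ℝ) ^ (-η)) := by
          rw [g7]
          refine mul_le_mul_of_nonneg_left ?_ hq0
          linarith
  have g12 := add_le_add g4 g9
  have g13 := mul_le_mul_of_nonneg_left g12 (by positivity : (0 : ℝ) ≤ (b : ℝ) ^ s)
  refine g13.trans (le_of_lt ?_)
  have g14 : 0 < (q : ℝ) ^ k := by
    have : 0 < q := Nat.pos_of_ne_zero (NeZero.ne q)
    positivity
  have g15 : 0 < (b : ℝ) ^ s * (N : ℝ) ^ (-η) := by positivity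
  rw [← hη]
  nlinarith [mul_pos g14 g15]

end Pool.Agent.Run7.h195.VR
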