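import Pool.Agent.Run7.h195.VR.Tup2

/-! # Counting the solutions in which `t ≤ k` of the variables form a tuple in a sparse set -/

set_option autoImplicit false

namespace Pool.Agent.Run7.h195.VR

open Finset Pool.Agent.helper132_dc

open scoped Classical in
/-- solutions in which the variables with the indices `e` form a tuple in `Y`. -/
noncomputable def Re (s k t : ℕ) (B : Finset ℕ) (Y : Finset (Fin t → ℕ)) (e : Fin t ↪ Fin s ⊕ Fin s) :
    Finset ((Fin s → ℕ) × (Fin s → ℕ)) :=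
  (JS s k B).filter fun p => (fun a => zz p (e a)) ∈ Y ∧
    ∀ a b, sg s (e a) ≠ sg s (e b) → zz p (e a) ≠ zz p (e b)

lemma sum_split_t {ι : Type*} [Fintype ι] [DecidableEq ι] (t : ℕ) (e : Fin t ↪ ι) (g : ι → ℤ) :
    ∑ i, g i = ∑ a, g (e a) + ∑ i : {i // i ∉ univ.map e}, g i := by
  have h1 : ∑ i : {i // i ∉ univ.map e}, g i = ∑ i ∈ (univ.map e)ᶜ, g i := by
    refine (Finset.sum_subtype _ (fun x => ?_) g).symm
    rw [Finset.mem_compl]
  rw [h1, ← Finset.sum_map univ e g, Finset.sum_add_sum_compl]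

lemma card_rest_t (s t : ℕ) (e : Fin t ↪ Fin s ⊕ Fin s) :
    Fintype.card {i : Fin s ⊕ Fin s // i ∉ univ.map e} = 2 * s - t := by
  rw [Fintype.card_of_subtype ((univ.map e)ᶜ) (by
    intro x
    rw [Finset.mem_compl])]
  rw [Finset.card_compl, Finset.card_map, Finset.card_univ, Fintype.card_sum, Fintype.card_fin,
    Fintype.card_fin]
  omega

lemma Re_le (s k t : ℕ) (B : Finset ℕ) (Y : Finset (Fin t → ℕ)) (e : Fin t ↪ Fin s ⊕ Fin s)
    (P : Finset (Fin t → ℕ))
    (hP : P = Y.filter fun c => (∀ a, c a ∈ B) ∧ ∀ a b, sg s (e a) ≠ sg s (e b) → c a ≠ c b) :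
    (Re s k t B Y e).card ≤
      ((P ×ˢ (Fintype.piFinset fun _ : {i : Fin s ⊕ Fin s // i ∉ univ.map e} => B)).filter fun w =>
        ∀ j : Fin k, ∑ a, sg s (e a) * ((w.1 a : ℕ) : ℤ) ^ (j.val + 1) +
          ∑ i : {i : Fin s ⊕ Fin s // i ∉ univ.map e}, sg s i * ((w.2 i : ℕ) : ℤ) ^ (j.val + 1) = 0).card := by
  classical
  refine Finset.card_le_card_of_injOn (fun p => ((fun a => zz p (e a)), fun i => zz p i)) ?_ ?_
  · intro p hp
    rw [Finset.mem_coe] at hp
    unfold Re at hp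
    rw [Finset.mem_filter] at hp
    obtain ⟨h1, h2, h3⟩ := hp
    obtain ⟨h4, h5⟩ := mem_JS h1
    rw [Finset.mem_coe, Finset.mem_filter, Finset.mem_product, Fintype.mem_piFinset]
    refine ⟨⟨?_, fun i => h4 i⟩, ?_⟩
    · rw [hP, Finset.mem_filter]
      exact ⟨h2, fun a => h4 (e a), h3⟩
    · intro j
      have h6 := h5 j
      rw [sum_split_t t e] at h6
      exact h6
  · intro p _ p' _ h
    simp only [Prod.mk.injEq] at h
    obtain ⟨h1, h3⟩ := h
    have h4 : zz p = zz p' := by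
      funext i
      by_cases hi : i ∈ univ.map e
      · obtain ⟨a, _, ha⟩ := Finset.mem_map.1 hi
        rw [← ha]
        exact congrFun h1 a
      · exact congrFun h3 ⟨i, hi⟩
    refine Prod.ext ?_ ?_
    · funext i
      exact congrFun h4 (Sum.inl i)
    · funext i
      exact congrFun h4 (Sum.inr i)

open scoped Classical in
/-- **no concentration on sparse sets of `t`-tuples.** -/
theorem rel_main_t (k s t : ℕ) (ht : 1 ≤ t) (htk : t ≤ k) (hs : 1 ≤ s)
    (hsk : s < t * (k * (k + 1) / 2 / t))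
    (δ : ℝ) (hδ : 0 < δ) :
    ∃ C : ℝ, ∀ (N : ℕ) (B : Finset ℕ) (Y : Finset (Fin t → ℕ)), 1 ≤ N → B ⊆ Icc 1 N →
      (Y.card : ℝ) ≤ (B.card : ℝ) ^ t * (N : ℝ) ^ (-δ) →
      (((JS s k B).filter fun p => ∃ e : Fin t ↪ Fin s ⊕ Fin s,
          (fun a => Sum.elim p.1 p.2 (e a)) ∈ Y ∧
          ∀ a b i j, e a = Sum.inl i → e b = Sum.inr j → p.1 i ≠ p.2 j).card : ℝ) ≤
        C * (B.card : ℝ) ^ s * (N : ℝ) ^ (-(δ / (16 * s))) := by
  rcases Nat.lt_or_ge (2 * s) t with hts | hts
  · refine ⟨0, ?_⟩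
    intro N B Y _ _ _
    have h1 : ((JS s k B).filter fun p => ∃ e : Fin t ↪ Fin s ⊕ Fin s,
          (fun a => Sum.elim p.1 p.2 (e a)) ∈ Y ∧
          ∀ a b i j, e a = Sum.inl i → e b = Sum.inr j → p.1 i ≠ p.2 j) = ∅ := by
      rw [Finset.filter_eq_empty_iff]
      rintro p _ ⟨e, _⟩
      have h2 := Fintype.card_le_of_embedding e
      rw [Fintype.card_sum, Fintype.card_fin, Fintype.card_fin] at h2
      omega
    rw [h1, Finset.card_empty, Nat.cast_zero]
    simp
  obtain ⟨C, hC0, hC⟩ := rel_mean_t k s t ht htk hts hs (by unfold sk; exact hsk) δ hδ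
  refine ⟨((Fintype.card (Fin t ↪ Fin s ⊕ Fin s) : ℕ) : ℝ) * C, ?_⟩
  intro N B Y hN hB hY
  rcases B.eq_empty_or_nonempty with hB0 | hBne
  · have h1 : ((JS s k B).filter fun p => ∃ e : Fin t ↪ Fin s ⊕ Fin s,
          (fun a => Sum.elim p.1 p.2 (e a)) ∈ Y ∧
          ∀ a b i j, e a = Sum.inl i → e b = Sum.inr j → p.1 i ≠ p.2 j) = ∅ := by
      rw [Finset.filter_eq_empty_iff]
      intro p hp
      obtain ⟨h2, _⟩ := mem_JS hp
      have := h2 (Sum.inl ⟨0, hs⟩)
      rw [hB0] at this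
      exact absurd this (Finset.notMem_empty _)
    rw [h1, Finset.card_empty, Nat.cast_zero]
    positivity
  · have hcov : ((JS s k B).filter fun p => ∃ e : Fin t ↪ Fin s ⊕ Fin s,
          (fun a => Sum.elim p.1 p.2 (e a)) ∈ Y ∧
          ∀ a b i j, e a = Sum.inl i → e b = Sum.inr j → p.1 i ≠ p.2 j) ⊆
        (univ : Finset (Fin t ↪ Fin s ⊕ Fin s)).biUnion fun e => Re s k t B Y e := by
      intro p hp
      rw [Finset.mem_filter] at hp
      obtain ⟨h1, e, h2, h3⟩ := hp
      rw [Finset.mem_biUnion]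
      refine ⟨e, mem_univ _, ?_⟩
      unfold Re
      rw [Finset.mem_filter]
      refine ⟨h1, h2, ?_⟩
      intro a b hab
      rcases hea : e a with i | i <;> rcases heb : e b with j | j
      · rw [hea, heb] at hab; exact absurd rfl hab
      · exact h3 a b i j hea heb
      · exact (h3 b a j i heb hea).symm
      · rw [hea, heb] at hab; exact absurd rfl hab
    have hone : ∀ e : Fin t ↪ Fin s ⊕ Fin s, ((Re s k t B Y e).card : ℝ) ≤
        C * ((B.card : ℝ) ^ s * (N : ℝ) ^ (-(δ / (16 * s)))) := by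
      intro e
      obtain ⟨P, hP⟩ : ∃ P, P = Y.filter fun c => (∀ a, c a ∈ B) ∧
        ∀ a b, sg s (e a) ≠ sg s (e b) → c a ≠ c b := ⟨_, rfl⟩
      have hle := Re_le s k t B Y e P hP
      obtain ⟨q, hqM, hqp⟩ := Nat.exists_infinite_primes (2 * sk k * N ^ k + 2 * t * N ^ k + 1)
      have hq0 : 0 < q := hqp.pos
      have hNeZ : NeZero q := ⟨hq0.ne'⟩
      have hqk : (0 : ℝ) < (q : ℝ) ^ k := by positivity
      have hPB : P ⊆ Fintype.piFinset fun _ : Fin t => B := by
        intro c hc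
        rw [hP, Finset.mem_filter] at hc
        exact Fintype.mem_piFinset.2 hc.2.1
      have hne : ∀ c ∈ P, ∀ a b, sg s (e a) ≠ sg s (e b) → c a ≠ c b := by
        intro c hc
        rw [hP, Finset.mem_filter] at hc
        exact hc.2.2
      have hPc : (P.card : ℝ) ≤ (B.card : ℝ) ^ t * (N : ℝ) ^ (-δ) := by
        refine le_trans ?_ hY
        rw [hP]
        exact_mod_cast Finset.card_filter_le _ _
      have h1 := hC q N hNeZ B P (fun a => sg s (e a)) hN (by omega) (by omega) hB hBne hPB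
        (fun a => sg_pm s _) hne hPc
      have h2 := count_le_t q k t B P (fun a => sg s (e a))
        (fun i : {i : Fin s ⊕ Fin s // i ∉ univ.map e} => sg s i) (fun i => sg_pm s i)
      rw [card_rest_t s t e] at h2
      have h3 := h2.trans h1
      have h4 := le_of_mul_le_mul_left h3 hqk
      refine le_trans ?_ h4
      exact_mod_cast hle
    have h5 := Finset.card_le_card hcov
    have h6 : ((((JS s k B).filter fun p => ∃ e : Fin t ↪ Fin s ⊕ Fin s,
          (fun a => Sum.elim p.1 p.2 (e a)) ∈ Y ∧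
          ∀ a b i j, e a = Sum.inl i → e b = Sum.inr j → p.1 i ≠ p.2 j).card : ℕ) : ℝ) ≤
        ∑ e : Fin t ↪ Fin s ⊕ Fin s, ((Re s k t B Y e).card : ℝ) := by
      exact_mod_cast h5.trans Finset.card_biUnion_le
    refine h6.trans ((Finset.sum_le_sum fun e _ => hone e).trans ?_)
    rw [Finset.sum_const, nsmul_eq_mul, Finset.card_univ]
    exact le_of_eq (by ring)

end Pool.Agent.Run7.h195.VR
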